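import Pool.Agent.H90.QF.R1

/-! # QF.Addit : additivity in a smooth fibre (about 220 lines)

`A = (t, x₀, y₀)` in a smooth fibre, `α = a(t)`.  For a slope `τ` the line `y = -y₀ + τ (x - x₀)` through `-A` meets the fibre in two more points
with `x`-coordinates the roots `x₁, x₂` of `X^2 - (τ^2 - x₀) X + (α + x₀^2 + τ^2 x₀ + 2 τ y₀)`, `y_i = -y₀ + τ (x_i - x₀)`.
(Check: `x^3 + α x + β - (τ (x-x₀) - y₀)^2 = (x - x₀)(x^2 - (τ^2 - x₀) x + α + x₀^2 + τ^2 x₀ + 2 τ y₀)` if `y₀^2 = x₀^3 + α x₀ + β`.)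
STEP 1 (choice of `τ₀ ∈ k`). `e ∈ B` is a root iff `e^2 + x₀ e + α + x₀^2 + 2 τ y₀ - τ^2 (e - x₀) = 0`: a nonzero polynomial in `τ` (degree 2 if
`e ≠ x₀`; if `e = x₀` it is `3 x₀^2 + α + 2 τ y₀`, nonzero because the fibre is smooth: `y₀ = 0` and `3 x₀^2 + α = 0` imply
`4 α^3 + 27 β^2 = 0`).  `k` is infinite, so there is `τ₀` with both roots outside `B`.
STEP 2. `P, Q` = the two points for `τ₀`.  Apply `kk` to `L = [(U₁, R.con), (U₂, R.con)]`, `U_i` the two points over `Ω` for `τ = tt`,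
`u = some τ₀`, `v = Φ.cl P R + Φ.cl Q R`, `u' = none`, `v' = Φ.cl A R`.  Over `τ₀`: `rd_quad` (sum and product of the roots reduce), then the `y_i`.
Over infinity (`θ = tt⁻¹ ↦ 0`, `Rd.inv_zero`): divide the quadratic by `tt^2`: `x₁ + x₂ = tt^2 - x₀` is not integral, so one root, say `x₂`, is not
integral; then `θ' = x₂⁻¹ ↦ 0` and `x₁ = (α + x₀^2 + tt^2 x₀ + 2 tt y₀) / x₂`; and `x₂ / tt^2 = 1 - x₀ θ^2 - x₁ θ^2`.  To see that `x₁ ↦ x₀`: if `x` is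
ANY root then `(x - x₀) = θ^2 (x^2 + x₀ x + α + x₀^2) + 2 θ y₀`.  Put `z = x θ^2`... `z^2 - z (1 - x₀ θ^2) + θ^2 (α + x₀^2) θ^2 + θ^2 x₀ + 2 θ^3 y₀ = 0` for `z = θ^2 x`, so
`z_i` are integral with `z₁ + z₂ ↦ 1`, `z₁ z₂ ↦ 0`: by `rd_quad` say `z₂ ↦ 1`, `z₁ ↦ 0`; `x₂ = z₂ / θ^2` is not integral; and
`x₁ = (θ^2 (α + x₀^2) + x₀ + 2 θ y₀) / z₂ ↦ x₀`.  Then `tt (x₁ - x₀) = θ (x₁^2 + x₀ x₁ + α + x₀^2) + 2 y₀ ↦ 2 y₀`, so `y₁ ↦ -y₀ + 2 y₀ = y₀`: `U₁ ↦ A`.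
The same `L` with the factors exchanged gives the last claim (one can prove a common lemma for an arbitrary
function of the point). -/

namespace H90.QF

open Polynomial H68.BB

variable {k : Type} [Field k] [IsAlgClosed k] [C23 k] {S S' : Fam k} {G : Type} [AddCommGroup G] (Φ : Fn S S' G)

/-- the points of the line with slope `τ` through `-A` -/
private noncomputable def lpt {F : Type} [Field F] [Algebra k F] (A : Pt S k) (τ x : F)
    (hx : x ^ 2 - (τ ^ 2 - algebraMap k F A.x) * x + (algebraMap k F (A.t S.a) +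
      algebraMap k F A.x ^ 2 + τ ^ 2 * algebraMap k F A.x + 2 * τ * algebraMap k F A.y) = 0) :
    Pt S F where
  t := (Algebra.ofId k F).comp A.t
  x := x
  y := -algebraMap k F A.y + τ * (x - algebraMap k F A.x)
  eq := by
    have h1 := congrArg (algebraMap k F) A.eq
    simp only [map_add, map_mul, map_pow] at h1
    have e1 : ((Algebra.ofId k F).comp A.t) S.a = algebraMap k F (A.t S.a) := rfl
    have e2 : ((Algebra.ofId k F).comp A.t) S.b = algebraMap k F (A.t S.b) := rfl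
    rw [e1, e2]
    linear_combination h1 - (x - algebraMap k F A.x) * hx

private theorem coefs (u v w : k) : (C u + C v * X - C w * X ^ 2 : k[X]).coeff 2 = -w ∧
    (C u + C v * X - C w * X ^ 2 : k[X]).coeff 1 = v ∧
    (C u + C v * X - C w * X ^ 2 : k[X]).coeff 0 = u := by
  refine ⟨?_, ?_, ?_⟩ <;> simp [coeff_X, coeff_C, coeff_X_pow]

private theorem exists_slope (A : Pt S k) (hA : A.t S.dl ≠ 0) (B : Finset k) :
    ∃ τ : k, ∀ e ∈ B, e ^ 2 - (τ ^ 2 - A.x) * e + (A.t S.a + A.x ^ 2 + τ ^ 2 * A.x +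
      2 * τ * A.y) ≠ 0 := by
  classical
  set α : k := A.t S.a with hα
  set G : k → k[X] := fun e => C (e ^ 2 + A.x * e + α + A.x ^ 2) + C (2 * A.y) * X -
    C (e - A.x) * X ^ 2 with hG
  have hne : ∀ e : k, G e ≠ 0 := by
    intro e h0
    obtain ⟨c2, c1, c0⟩ : (G e).coeff 2 = -(e - A.x) ∧ (G e).coeff 1 = 2 * A.y ∧
        (G e).coeff 0 = e ^ 2 + A.x * e + α + A.x ^ 2 := coefs _ _ _
    rw [h0, coeff_zero] at c0 c1 c2
    have he : e = A.x := by linear_combination c2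
    have hy : A.y = 0 := by
      have h2 : (2 : k) ≠ 0 := n2 k
      exact (mul_eq_zero.1 c1.symm).resolve_left h2
    rw [he] at c0
    have hα' : α = -3 * A.x ^ 2 := by linear_combination -c0
    have hβ : A.t S.b = 2 * A.x ^ 3 := by
      have h1 := A.eq
      rw [hy, ← hα, hα'] at h1
      linear_combination -h1
    apply hA
    have h2 : A.t S.dl = 4 * A.t S.a ^ 3 + 27 * A.t S.b ^ 2 := t_dl _
    rw [h2, ← hα, hα', hβ]
    ring
  have hprod : (∏ e ∈ B, G e) ≠ 0 := Finset.prod_ne_zero_iff.2 fun e _ => hne e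
  obtain ⟨τ, hτ⟩ : ∃ τ : k, (∏ e ∈ B, G e).eval τ ≠ 0 := by
    by_contra hcon
    push Not at hcon
    exact hprod (zero_of_eval_zero _ hcon)
  refine ⟨τ, fun e he h0 => ?_⟩
  rw [eval_prod] at hτ
  apply Finset.prod_ne_zero_iff.1 hτ e he
  simp only [hG, eval_add, eval_sub, eval_mul, eval_C, eval_X, eval_pow]
  linear_combination h0

/-- the place at infinity: the root `x` whose partner is not integral -/
private theorem inf_root (π : Place k (Om k)) (hπ : OverPl π none) (A : Pt S k) (x x' : Om k)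
    (hs : x + x' = tt k ^ 2 - cst A.x)
    (hp : x * x' = cst (A.t S.a) + cst A.x ^ 2 + tt k ^ 2 * cst A.x + 2 * tt k * cst A.y)
    (hz : Rd π.V π.φ ((tt k)⁻¹ ^ 2 * x') 1) :
    x' ∉ π.V ∧ Rd π.V π.φ x A.x ∧ Rd π.V π.φ (-cst A.y + tt k * (x - cst A.x)) A.y := by
  have := π.isLocal
  have hθ : Rd π.V π.φ (tt k)⁻¹ 0 := Rd.inv_zero hπ
  have htt : tt k ≠ 0 := by
    have := tt_ne k 0
    rwa [cst, map_zero] at this
  have hxA : Rd π.V π.φ (cst A.x : Om k) A.x := π.const _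
  have hyA : Rd π.V π.φ (cst A.y : Om k) A.y := π.const _
  have hαA : Rd π.V π.φ (cst (A.t S.a) : Om k) (A.t S.a) := π.const _
  have h1 : x' ∉ π.V := by
    intro h
    have h2 := (hθ.pow 2).mul (Rd.of_mem (φ := π.φ) h)
    have h3 := h2.unique hz
    rw [zero_pow (by norm_num), zero_mul] at h3
    exact zero_ne_one h3
  have hx'0 : x' ≠ 0 := fun h => h1 (h ▸ π.V.zero_mem)
  have hx : Rd π.V π.φ x A.x := by
    have h2 : Rd π.V π.φ ((tt k)⁻¹ ^ 2 * (cst (A.t S.a) + cst A.x ^ 2) + cst A.x +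
        2 * ((tt k)⁻¹ * cst A.y)) (0 ^ 2 * (A.t S.a + A.x ^ 2) + A.x + 2 * (0 * A.y)) :=
      (((hθ.pow 2).mul (hαA.add (hxA.pow 2))).add hxA).add (Rd.two.mul (hθ.mul hyA))
    have h3 := h2.div hz one_ne_zero
    have e1 : (0 ^ 2 * (A.t S.a + A.x ^ 2) + A.x + 2 * (0 * A.y)) / 1 = A.x := by ring
    have e2 : ((tt k)⁻¹ ^ 2 * (cst (A.t S.a) + cst A.x ^ 2) + cst A.x +
        2 * ((tt k)⁻¹ * cst A.y)) / ((tt k)⁻¹ ^ 2 * x') = x := by
      rw [div_eq_iff (mul_ne_zero (pow_ne_zero _ (inv_ne_zero htt)) hx'0)]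
      have h4 : x * ((tt k)⁻¹ ^ 2 * x') = (tt k)⁻¹ ^ 2 * (x * x') := by ring
      rw [h4, hp]
      field_simp
    rw [e1, e2] at h3
    exact h3
  refine ⟨h1, hx, ?_⟩
  have h2 : Rd π.V π.φ (-cst A.y + ((tt k)⁻¹ * (x ^ 2 + cst A.x * x + cst (A.t S.a) +
      cst A.x ^ 2) + 2 * cst A.y)) (-A.y + (0 * (A.x ^ 2 + A.x * A.x + A.t S.a + A.x ^ 2) +
        2 * A.y)) :=
    hyA.neg.add ((hθ.mul ((((hx.pow 2).add (hxA.mul hx)).add hαA).add (hxA.pow 2))).add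
      (Rd.two.mul hyA))
  have e1 : -A.y + (0 * (A.x ^ 2 + A.x * A.x + A.t S.a + A.x ^ 2) + 2 * A.y) = A.y := by ring
  have hquad : x ^ 2 - (tt k ^ 2 - cst A.x) * x + (cst (A.t S.a) + cst A.x ^ 2 +
      tt k ^ 2 * cst A.x + 2 * tt k * cst A.y) = 0 := by
    rw [← hs, ← hp]; ring
  have e2 : -cst A.y + ((tt k)⁻¹ * (x ^ 2 + cst A.x * x + cst (A.t S.a) +
      cst A.x ^ 2) + 2 * cst A.y) = -cst A.y + tt k * (x - cst A.x) := by
    field_simp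
    linear_combination hquad
  rw [e1, e2] at h2
  exact h2

private theorem addit_aux (A : Pt S k) (hA : A.t S.dl ≠ 0) (B : Finset k) :
    ∃ (P Q : Pt S k) (U U' : Pt S (Om k)) (τ : k), P.t = A.t ∧ Q.t = A.t ∧ P.x ∉ B ∧ Q.x ∉ B ∧
      U.t = cstB A.t ∧ U'.t = cstB A.t ∧ (∀ π : Place k (Om k), OverPl π (some τ) →
        (RdP π U P ∧ RdP π U' Q) ∨ (RdP π U Q ∧ RdP π U' P)) ∧
      (∀ π : Place k (Om k), OverPl π none →
        (RdP π U A ∧ ¬ U'.Int π) ∨ (¬ U.Int π ∧ RdP π U' A)) := by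
  obtain ⟨τ, hτ⟩ := exists_slope A hA B
  obtain ⟨p, p', hs, hp⟩ := exists_quad (τ ^ 2 - A.x) (A.t S.a + A.x ^ 2 + τ ^ 2 * A.x +
    2 * τ * A.y)
  obtain ⟨x, x', hsx, hpx⟩ := exists_quad (tt k ^ 2 - cst A.x) (cst (A.t S.a) + cst A.x ^ 2 +
    tt k ^ 2 * cst A.x + 2 * tt k * cst A.y)
  have hpq : p ^ 2 - (τ ^ 2 - A.x) * p + (A.t S.a + A.x ^ 2 + τ ^ 2 * A.x + 2 * τ * A.y) = 0 := by
    rw [← hs, ← hp]; ring
  have hpq' : p' ^ 2 - (τ ^ 2 - A.x) * p' + (A.t S.a + A.x ^ 2 + τ ^ 2 * A.x + 2 * τ * A.y) = 0 := by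
    rw [← hs, ← hp]; ring
  have hxq : x ^ 2 - (tt k ^ 2 - cst A.x) * x + (cst (A.t S.a) + cst A.x ^ 2 +
      tt k ^ 2 * cst A.x + 2 * tt k * cst A.y) = 0 := by
    rw [← hsx, ← hpx]; ring
  have hxq' : x' ^ 2 - (tt k ^ 2 - cst A.x) * x' + (cst (A.t S.a) + cst A.x ^ 2 +
      tt k ^ 2 * cst A.x + 2 * tt k * cst A.y) = 0 := by
    rw [← hsx, ← hpx]; ring
  refine ⟨lpt A τ p hpq, lpt A τ p' hpq', lpt A (tt k) x hxq, lpt A (tt k) x' hxq', τ, rfl, rfl,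
    fun h => hτ p h hpq, fun h => hτ p' h hpq', rfl, rfl, ?_, ?_⟩
  · intro π hπ
    have ht : Rd π.V π.φ (tt k) τ := hπ
    have hxA : Rd π.V π.φ (cst A.x : Om k) A.x := π.const _
    have hyA : Rd π.V π.φ (cst A.y : Om k) A.y := π.const _
    have hαA : Rd π.V π.φ (cst (A.t S.a) : Om k) (A.t S.a) := π.const _
    have h1 : Rd π.V π.φ (x + x') (p + p') := by
      rw [hsx, hs]
      exact (ht.pow 2).sub hxA
    have h2 : Rd π.V π.φ (x * x') (p * p') := by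
      rw [hpx, hp]
      exact ((hαA.add (hxA.pow 2)).add ((ht.pow 2).mul hxA)).add ((Rd.two.mul ht).mul hyA)
    have key : ∀ (u : Om k) (c : k) (hu) (hc), Rd π.V π.φ u c →
        RdP π (lpt A (tt k) u hu) (lpt A τ c hc) := by
      intro u c hu hc huc
      exact ⟨RdB.cst π _, huc, hyA.neg.add (ht.mul (huc.sub hxA))⟩
    rcases rd_quad π h1 h2 with ⟨h3, h4⟩ | ⟨h3, h4⟩
    · exact Or.inl ⟨key _ _ _ _ h3, key _ _ _ _ h4⟩
    · exact Or.inr ⟨key _ _ _ _ h3, key _ _ _ _ h4⟩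
  · intro π hπ
    have := π.isLocal
    have hθ : Rd π.V π.φ (tt k)⁻¹ 0 := Rd.inv_zero hπ
    have htt : tt k ≠ 0 := by
      have := tt_ne k 0
      rwa [cst, map_zero] at this
    have hxA : Rd π.V π.φ (cst A.x : Om k) A.x := π.const _
    have hyA : Rd π.V π.φ (cst A.y : Om k) A.y := π.const _
    have hαA : Rd π.V π.φ (cst (A.t S.a) : Om k) (A.t S.a) := π.const _
    have h1 : Rd π.V π.φ ((tt k)⁻¹ ^ 2 * x + (tt k)⁻¹ ^ 2 * x') (0 + 1) := by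
      have e1 : (tt k)⁻¹ ^ 2 * x + (tt k)⁻¹ ^ 2 * x' = 1 - (tt k)⁻¹ ^ 2 * cst A.x := by
        rw [← mul_add, hsx]
        field_simp
      have e2 : (0 : k) + 1 = 1 - 0 ^ 2 * A.x := by ring
      rw [e1, e2]
      exact Rd.one.sub ((hθ.pow 2).mul hxA)
    have h2 : Rd π.V π.φ (((tt k)⁻¹ ^ 2 * x) * ((tt k)⁻¹ ^ 2 * x')) (0 * 1) := by
      have e1 : ((tt k)⁻¹ ^ 2 * x) * ((tt k)⁻¹ ^ 2 * x') =
          (tt k)⁻¹ ^ 2 * ((tt k)⁻¹ ^ 2 * (cst (A.t S.a) + cst A.x ^ 2) + cst A.x +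
            2 * ((tt k)⁻¹ * cst A.y)) := by
        have h4 : ((tt k)⁻¹ ^ 2 * x) * ((tt k)⁻¹ ^ 2 * x') =
          (tt k)⁻¹ ^ 2 * ((tt k)⁻¹ ^ 2 * (x * x')) := by ring
        rw [h4, hpx]
        field_simp
      have e2 : (0 : k) * 1 = 0 ^ 2 * (0 ^ 2 * (A.t S.a + A.x ^ 2) + A.x + 2 * (0 * A.y)) := by
        ring
      rw [e1, e2]
      exact (hθ.pow 2).mul ((((hθ.pow 2).mul (hαA.add (hxA.pow 2))).add hxA).add
        (Rd.two.mul (hθ.mul hyA)))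
    rcases rd_quad π h1 h2 with ⟨-, h4⟩ | ⟨h3, -⟩
    · obtain ⟨g1, g2, g3⟩ := inf_root π hπ A x x' hsx hpx h4
      exact Or.inl ⟨⟨RdB.cst π _, g2, g3⟩, fun h => g1 h.2.1⟩
    · obtain ⟨g1, g2, g3⟩ := inf_root π hπ A x' x (by rw [add_comm]; exact hsx)
        (by rw [mul_comm]; exact hpx) h3
      exact Or.inr ⟨fun h => g1 h.2.1, ⟨RdB.cst π _, g2, g3⟩⟩

theorem addit_fst (A : Pt S k) (hA : A.t S.dl ≠ 0) (B : Finset k) :
    ∃ P Q : Pt S k, P.t = A.t ∧ Q.t = A.t ∧ P.x ∉ B ∧ Q.x ∉ B ∧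
      (∀ R : Pt S' k, Φ.cl A R = Φ.cl P R + Φ.cl Q R) := by
  obtain ⟨P, Q, U, U', τ, h1, h2, h3, h4, t1, t2, h5, h6⟩ := addit_aux A hA B
  refine ⟨P, Q, h1, h2, h3, h4, ?_⟩
  intro R
  refine (Φ.kc [(U, R.con), (U', R.con)] A.t R.t ?_ (some τ) none (Φ.cl P R + Φ.cl Q R) (Φ.cl A R) ?_ ?_).symm
  · intro p hp
    simp only [List.mem_cons, List.not_mem_nil, or_false] at hp
    rcases hp with rfl | rfl
    · exact ⟨t1, rfl⟩
    · exact ⟨t2, rfl⟩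
  · intro π hπ
    simp only [List.map_cons, List.map_nil, List.sum_cons, List.sum_nil, add_zero]
    rcases h5 π hπ with ⟨g1, g2⟩ | ⟨g1, g2⟩
    · rw [Φ.spv_rd g1 (con_rd π R), Φ.spv_rd g2 (con_rd π R)]
    · rw [Φ.spv_rd g1 (con_rd π R), Φ.spv_rd g2 (con_rd π R), add_comm]
  · intro π hπ
    simp only [List.map_cons, List.map_nil, List.sum_cons, List.sum_nil, add_zero]
    rcases h6 π hπ with ⟨g1, g2⟩ | ⟨g1, g2⟩
    · rw [Φ.spv_rd g1 (con_rd π R), Φ.spv_zero fun h => g2 h.1, add_zero]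
    · rw [Φ.spv_rd g2 (con_rd π R), Φ.spv_zero fun h => g1 h.1, zero_add]

theorem addit_snd (A : Pt S' k) (hA : A.t S'.dl ≠ 0) (B : Finset k) :
    ∃ P Q : Pt S' k, P.t = A.t ∧ Q.t = A.t ∧ P.x ∉ B ∧ Q.x ∉ B ∧
      (∀ R : Pt S k, Φ.cl R A = Φ.cl R P + Φ.cl R Q) := addit_fst Φ.swp A hA B

end H90.QF
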