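import Mathlib

/-! # QF.AlgC : the algebra of the plane cubic `X^3 + A X + B = X'^3 + A' X' + B'` and its Jacobian if `2 ≠ 0`, `3 ≠ 0` (Mathlib only)

As `H71.K3.AlgF`, `H71.K3.Star`, but without the assumption that the characteristic is zero.
With `N = xh + 2 (A + A') = 12 (X^2+XX'+X'^2) + 6 (A+A')`, `m = X - X'`, `P = X + X'`, `κ = 6 (A - A')`, `β = B - B'`:
`N m + κ P = -12 β` is the equation of the curve, `-κ m + 3 N P = yh`, the determinant is `3 N^2 + κ^2 = 3 Q`. -/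

namespace H90.QF

/-- a field of characteristic different from `2` and `3` -/
class C23 (F : Type) [Field F] : Prop where
  h2 : (2 : F) ≠ 0
  h3 : (3 : F) ≠ 0

section num
variable (F : Type) [Field F] [C23 F]

theorem n2 : (2 : F) ≠ 0 := C23.h2
theorem n3 : (3 : F) ≠ 0 := C23.h3
theorem n4 : (4 : F) ≠ 0 := by
  have e : (4 : F) = 2 * 2 := by norm_num
  rw [e]; exact mul_ne_zero (n2 F) (n2 F)
theorem n6 : (6 : F) ≠ 0 := by
  have e : (6 : F) = 2 * 3 := by norm_num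
  rw [e]; exact mul_ne_zero (n2 F) (n3 F)
theorem n12 : (12 : F) ≠ 0 := by
  have e : (12 : F) = 4 * 3 := by norm_num
  rw [e]; exact mul_ne_zero (n4 F) (n3 F)
theorem n16 : (16 : F) ≠ 0 := by
  have e : (16 : F) = 4 * 4 := by norm_num
  rw [e]; exact mul_ne_zero (n4 F) (n4 F)
theorem n27 : (27 : F) ≠ 0 := by
  have e : (27 : F) = 3 * 3 * 3 := by norm_num
  rw [e]; exact mul_ne_zero (mul_ne_zero (n3 F) (n3 F)) (n3 F)
theorem n144 : (144 : F) ≠ 0 := by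
  have e : (144 : F) = 12 * 12 := by norm_num
  rw [e]; exact mul_ne_zero (n12 F) (n12 F)
theorem n256 : (256 : F) ≠ 0 := by
  have e : (256 : F) = 16 * 16 := by norm_num
  rw [e]; exact mul_ne_zero (n16 F) (n16 F)

end num

instance c23CharZero (F : Type) [Field F] [CharZero F] : C23 F := ⟨two_ne_zero, three_ne_zero⟩

variable {F : Type} [Field F]

/-- the first coordinate on the Jacobian -/
def xh (A A' X X' : F) : F := 12 * (X ^ 2 + X * X' + X' ^ 2) + 4 * (A + A')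

/-- the second coordinate on the Jacobian -/
def yh (A A' X X' : F) : F :=
  12 * (3 * (X + X') * (X ^ 2 + X * X' + X' ^ 2) + A * (X + 2 * X') + A' * (2 * X + X'))

/-- the determinant -/
def qh (A A' p : F) : F := p ^ 2 + 4 * (A + A') * p + 16 * (A ^ 2 - A * A' + A' ^ 2)

theorem alg_lin {A A' B B' X X' : F} (h : X ^ 3 + A * X + B = X' ^ 3 + A' * X' + B') :
    (xh A A' X X' + 2 * (A + A')) * (X - X') + 6 * (A - A') * (X + X') = -12 * (B - B') ∧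
    -(6 * (A - A')) * (X - X') + 3 * (xh A A' X X' + 2 * (A + A')) * (X + X') = yh A A' X X' := by
  constructor
  · unfold xh; linear_combination 12 * h
  · unfold xh yh; ring

theorem alg_on {A A' B B' X X' : F} (h : X ^ 3 + A * X + B = X' ^ 3 + A' * X' + B') :
    yh A A' X X' ^ 2 = xh A A' X X' ^ 3 - 48 * A * A' * xh A A' X X' + 864 * B * B'
      - 16 * (4 * A ^ 3 + 27 * B ^ 2) - 16 * (4 * A' ^ 3 + 27 * B' ^ 2) := by
  have h1 : B = X' ^ 3 + A' * X' + B' - X ^ 3 - A * X := by linear_combination h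
  subst h1
  unfold xh yh
  ring

theorem alg_uniq [C23 F] {A A' B B' X X' U U' : F} (h : X ^ 3 + A * X + B = X' ^ 3 + A' * X' + B')
    (h' : U ^ 3 + A * U + B = U' ^ 3 + A' * U' + B') (hx : xh A A' X X' = xh A A' U U')
    (hy : yh A A' X X' = yh A A' U U') (hq : qh A A' (xh A A' X X') ≠ 0) : X = U ∧ X' = U' := by
  obtain ⟨e1, e2⟩ := alg_lin h
  obtain ⟨e3, e4⟩ := alg_lin h'
  rw [← hx] at e3 e4
  rw [← hy] at e4
  obtain ⟨N, hN⟩ : ∃ N, N = xh A A' X X' + 2 * (A + A') := ⟨_, rfl⟩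
  rw [← hN] at e1 e2 e3 e4
  have hdet : 3 * N ^ 2 + (6 * (A - A')) ^ 2 ≠ 0 := by
    intro h0
    have h2 : xh A A' X X' = N - 2 * (A + A') := by rw [hN]; ring
    have h5 : 3 * qh A A' (xh A A' X X') = 0 := by
      rw [h2]
      unfold qh
      linear_combination h0
    exact hq ((mul_eq_zero.1 h5).resolve_left (n3 F))
  have k1 : (3 * N ^ 2 + (6 * (A - A')) ^ 2) * ((X - X') - (U - U')) = 0 := by
    linear_combination 3 * N * (e1 - e3) - (6 * (A - A')) * (e2 - e4)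
  have k2 : (3 * N ^ 2 + (6 * (A - A')) ^ 2) * ((X + X') - (U + U')) = 0 := by
    linear_combination (6 * (A - A')) * (e1 - e3) + N * (e2 - e4)
  have k3 := (mul_eq_zero.1 k1).resolve_left hdet
  have k4 := (mul_eq_zero.1 k2).resolve_left hdet
  constructor
  · have h5 : 2 * (X - U) = 0 := by linear_combination k3 + k4
    exact sub_eq_zero.1 ((mul_eq_zero.1 h5).resolve_left (n2 F))
  · have h5 : 2 * (X' - U') = 0 := by linear_combination k4 - k3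
    exact sub_eq_zero.1 ((mul_eq_zero.1 h5).resolve_left (n2 F))

theorem alg_exist [C23 F] {A A' B B' p q : F} (h : q ^ 2 = p ^ 3 - 48 * A * A' * p + 864 * B * B'
      - 16 * (4 * A ^ 3 + 27 * B ^ 2) - 16 * (4 * A' ^ 3 + 27 * B' ^ 2)) (hq : qh A A' p ≠ 0) :
    ∃ X X' : F, X ^ 3 + A * X + B = X' ^ 3 + A' * X' + B' ∧ xh A A' X X' = p ∧ yh A A' X X' = q := by
  -- unknowns: m = X - X', P = X + X'
  obtain ⟨i, hi⟩ : ∃ i : F, 12 * i = 1 := ⟨12⁻¹, mul_inv_cancel₀ (n12 F)⟩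
  obtain ⟨j, hj⟩ : ∃ j : F, 2 * j = 1 := ⟨2⁻¹, mul_inv_cancel₀ (n2 F)⟩
  obtain ⟨M, hM⟩ : ∃ M, p = 12 * M - 2 * (A + A') := ⟨(p + 2 * (A + A')) * i, by linear_combination (-(p + 2 * (A + A'))) * hi⟩
  obtain ⟨k, hk⟩ : ∃ k, A = A' + 2 * k := ⟨(A - A') * j, by linear_combination (-(A - A')) * hj⟩
  obtain ⟨c, hc⟩ : ∃ c, B = B' + c := ⟨B - B', by ring⟩
  obtain ⟨r, hr⟩ : ∃ r, q = 12 * r := ⟨q * i, by linear_combination (-q) * hi⟩
  subst hM; subst hr; subst hk; subst hc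
  have hd : 3 * M ^ 2 + k ^ 2 ≠ 0 := by
    intro h0
    apply hq
    unfold qh
    linear_combination 48 * h0
  obtain ⟨d, hdd⟩ : ∃ d, d * (3 * M ^ 2 + k ^ 2) = 1 := ⟨(3 * M ^ 2 + k ^ 2)⁻¹, inv_mul_cancel₀ hd⟩
  -- the equation: 144 r^2 + 432 c^2 = (p - 4 A - 4 A') Q
  have he : r ^ 2 + 3 * c ^ 2 = 4 * (M - (A' + k)) * (3 * M ^ 2 + k ^ 2) := by
    have h1 : (144 : F) * (r ^ 2 + 3 * c ^ 2) = 144 * (4 * (M - (A' + k)) * (3 * M ^ 2 + k ^ 2)) := by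
      linear_combination h
    exact mul_left_cancel₀ (n144 F) h1
  obtain ⟨m, hm⟩ : ∃ m, m = (-3 * M * c - k * r) * d := ⟨_, rfl⟩
  obtain ⟨P, hP⟩ : ∃ P, P = (M * r - k * c) * d := ⟨_, rfl⟩
  have f1 : M * m + k * P = -c := by
    rw [hm, hP]; linear_combination (-c) * hdd
  have f2 : -k * m + 3 * M * P = r := by
    rw [hm, hP]; linear_combination r * hdd
  -- M = (3 P^2 + m^2)/4 + (A + A')/2
  have f3 : 3 * P ^ 2 + m ^ 2 = 4 * (M - (A' + k)) := by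
    have g1 : (3 * P ^ 2 + m ^ 2) * (3 * M ^ 2 + k ^ 2) = r ^ 2 + 3 * c ^ 2 := by
      linear_combination 3 * (M * m + k * P - c) * f1 + (-k * m + 3 * M * P + r) * f2
    have g2 : (3 * M ^ 2 + k ^ 2) * (3 * P ^ 2 + m ^ 2 - 4 * (M - (A' + k))) = 0 := by
      linear_combination g1 + he
    have g3 := (mul_eq_zero.1 g2).resolve_left hd
    linear_combination g3
  obtain ⟨X, X', hX, hX'⟩ : ∃ X X' : F, P = X + X' ∧ m = X - X' :=
    ⟨(P + m) * j, (P - m) * j, by linear_combination (-P) * hj, by linear_combination (-m) * hj⟩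
  clear hm hP
  subst hX
  subst hX'
  have f4 : X ^ 2 + X * X' + X' ^ 2 = M - (A' + k) := by
    have h1 : (4 : F) * (X ^ 2 + X * X' + X' ^ 2) = 4 * (M - (A' + k)) := by linear_combination f3
    exact mul_left_cancel₀ (n4 F) h1
  refine ⟨X, X', ?_, ?_, ?_⟩
  · linear_combination f1 + (X - X') * f4
  · unfold xh; linear_combination 12 * f4
  · unfold yh; linear_combination 12 * f2 + 36 * (X + X') * f4

theorem star {A A' B B' z κ x₁ x₂ y₁ y₂ : F} (hz : z ≠ 0) (hκ : κ ^ 2 + κ + 1 = 0)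
    (hc : x₁ ^ 3 + A * x₁ + B = z ^ 3 * (x₂ ^ 3 + A' * x₂ + B'))
    (hμ : x₁ - κ ^ 2 * z * x₂ ≠ 0) (hl : y₁ - κ ^ 2 * z * y₂ = x₁ - κ ^ 2 * z * x₂)
    (hs : 3 * (x₁ - κ ^ 2 * z * x₂) * (κ ^ 2 * z) * (x₂ + y₂) + 3 * (x₁ - κ ^ 2 * z * x₂) ^ 2
      + A - A' * (κ ^ 2 * z) ^ 2 = 0) :
    y₁ ^ 3 + A * y₁ + B = z ^ 3 * (y₂ ^ 3 + A' * y₂ + B') ∧
    xh A ((κ * z) ^ 2 * A') y₁ (κ * z * y₂) = κ * xh A (z ^ 2 * A') x₁ (z * x₂) ∧
    yh A ((κ * z) ^ 2 * A') y₁ (κ * z * y₂) = -yh A (z ^ 2 * A') x₁ (z * x₂) := by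
  have _ := hz
  have _ := hμ
  have hκ3 : κ ^ 3 = 1 := by linear_combination (κ - 1) * hκ
  obtain ⟨d, hd⟩ : ∃ d : F, d = κ ^ 2 * z := ⟨_, rfl⟩
  have hz' : z = κ * d := by rw [hd]; linear_combination (-z) * hκ3
  obtain ⟨μ, hμd⟩ : ∃ μ : F, μ = x₁ - d * x₂ := ⟨_, rfl⟩
  have hx₁ : x₁ = μ + d * x₂ := by rw [hμd]; ring
  have hy₁ : y₁ = μ + d * y₂ := by
    rw [← hd] at hl
    rw [hμd]
    linear_combination hl
  rw [← hd, ← hμd] at hs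
  subst hx₁ hy₁ hz'
  have hs' : 3 * μ * d * (x₂ + y₂) + 3 * μ ^ 2 + A - A' * d ^ 2 = 0 := hs
  refine ⟨?_, ?_, ?_⟩
  · linear_combination hc + d * (y₂ - x₂) * hs' +
      (-(d ^ 3 * (y₂ ^ 3 + A' * y₂ + B')) + d ^ 3 * (x₂ ^ 3 + A' * x₂ + B')) * hκ3
  · unfold xh
    linear_combination 4 * (1 - κ) * hs' +
      (4*A'*d^2 - 8*A'*d^2*κ + 4*A'*d^2*κ^2 - 12*d*x₂*μ + 12*d*y₂*μ - 12*d^2*x₂^2*κ + 12*d^2*y₂^2 -
        12*d^2*y₂^2*κ + 12*d^2*y₂^2*κ^2) * hκ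
  · unfold yh
    linear_combination 12 * (2 * μ - (κ - κ ^ 2) * d * (y₂ - x₂)) * hs' +
      (12*A*d*x₂ + 12*A*d*y₂ - 24*A'*d^2*κ*μ + 24*A'*d^2*κ^2*μ + 24*A'*d^2*μ + 12*A'*d^3*x₂*κ -
        12*A'*d^3*y₂*κ + 24*A'*d^3*y₂*κ^2 - 12*A'*d^3*y₂*κ^3 + 12*A'*d^3*y₂*κ^4 + 36*d*x₂*μ^2 +
        36*d*y₂*μ^2 + 108*d^2*x₂^2*μ - 72*d^2*y₂^2*κ*μ + 72*d^2*y₂^2*κ^2*μ + 108*d^2*y₂^2*μ +
        36*d^3*x₂^3 + 36*d^3*x₂^3*κ + 36*d^3*y₂^3 - 36*d^3*y₂^3*κ + 72*d^3*y₂^3*κ^2 -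
        36*d^3*y₂^3*κ^3 + 36*d^3*y₂^3*κ^4) * hκ

/-- if the determinant for `κ z` does not vanish then `μ ≠ 0` -/
theorem mu_ne {A A' z κ x₁ x₂ : F} (hκ : κ ^ 2 + κ + 1 = 0)
    (hq : qh A ((κ * z) ^ 2 * A') (κ * xh A (z ^ 2 * A') x₁ (z * x₂)) ≠ 0) : x₁ - κ ^ 2 * z * x₂ ≠ 0 := by
  intro hμ
  apply hq
  have hκ3 : κ ^ 3 = 1 := by linear_combination (κ - 1) * hκ
  obtain ⟨d, hd⟩ : ∃ d : F, d = κ ^ 2 * z := ⟨_, rfl⟩
  have hz' : z = κ * d := by rw [hd]; linear_combination (-z) * hκ3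
  have hx : x₁ = d * x₂ := by rw [hd]; linear_combination hμ
  have h1 : xh A (z ^ 2 * A') x₁ (z * x₂) = 4 * (A + κ ^ 2 * d ^ 2 * A') := by
    rw [hx, hz']
    unfold xh
    linear_combination (12 * d ^ 2 * x₂ ^ 2) * hκ
  rw [h1, hz']
  unfold qh
  linear_combination (16*A*A'*d^2*κ^3 + 16*A^2 + 16*A'^2*d^4*κ^6) * hκ

end H90.QF
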