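import Pool.Agent.H90.QF.Base
import Pool.Agent.H90.QF.AlgC

/-! # QF.Alg : the relation `Over` (about 250 lines)

Translation of `AlgF` with `A = a(t)`, `A' = θ^4 a(s)`, `B = b(t)`, `B' = θ^6 b(s)`, `X = P.x`, `X' = θ^2 Q.x`, `xh = θ^2 x`, `yh = θ^3 y`:
`X^3 + A X + B = P.y^2 = θ^6 Q.y^2 = X'^3 + A' X' + B'`.  `Over.e1` says `θ^2 x = xh`, `Over.e2` says `θ^3 y = yh`, `Qd w θ = qh A A' (θ^2 x)`.
`over_on`: multiply `OnW` by `θ^12`... precisely with `T = -16 D_s θ^6`: `OnW` is `-16 D_s` times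
`θ^6 (x^3 - 48 a_t a_s x + 864 b_t b_s - y^2) - 16 D_s θ^12 - 16 D_t`, and this is `alg_on`.
`over_swp`: `DD/T = 256 D_t D_s/(-16 D_s θ^6) = -16 D_t θ^(-6)`; the other relations are multiplied by powers of `θ`; for `e1`, `e2` use that the
formulas are symmetric under exchanging `(A, X)` and `(A', X')` and homogeneous.
`over_exists`: `alg_exist`, then `η` with `η^2 = X^3 + A X + B`, `P = (t, X, η)`, `Q = (s, X'/θ^2, η/θ^3)`.
`over_uniq`: `alg_uniq` gives the `x`-coordinates, then `P'.y = ± P.y` (`eq_or_neg`), `Q'.y = P'.y/θ^3`.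
`Good.T_ne`: `T = 0` would give `DD = 0`.
`qd_dag`: `Qd (dag w) θ⁻¹ * θ^8 = Qd w θ`, where `dag w = (w.inv).swp`. -/

namespace H90.QF

open Polynomial

variable {k : Type} [Field k] {S S' : Fam k} {F : Type} [Field F] [Algebra k F] [C23 F]

/-- the equation of the plane cubic for a pair over `w` -/
private theorem over_curve {w : Wp S S' F} {θ : F} {P : Pt S F} {Q : Pt S' F} (h : Over w θ P Q) :
    P.x ^ 3 + w.t S.a * P.x + w.t S.b
      = (θ ^ 2 * Q.x) ^ 3 + θ ^ 4 * w.s S'.a * (θ ^ 2 * Q.x) + θ ^ 6 * w.s S'.b := by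
  have hP := P.eq
  have hQ := Q.eq
  rw [h.t] at hP
  rw [h.s] at hQ
  have hy := h.y
  rw [hy] at hP
  linear_combination -hP + θ ^ 6 * hQ

private theorem over_xh {w : Wp S S' F} {θ : F} {P : Pt S F} {Q : Pt S' F} (h : Over w θ P Q) :
    xh (w.t S.a) (θ ^ 4 * w.s S'.a) P.x (θ ^ 2 * Q.x) = θ ^ 2 * w.x := by
  rw [h.e1]; rfl

private theorem over_yh {w : Wp S S' F} {θ : F} {P : Pt S F} {Q : Pt S' F} (h : Over w θ P Q) :
    yh (w.t S.a) (θ ^ 4 * w.s S'.a) P.x (θ ^ 2 * Q.x) = θ ^ 3 * w.y := by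
  rw [h.e2]; rfl

theorem over_on {w : Wp S S' F} {θ : F} {P : Pt S F} {Q : Pt S' F} (h : Over w θ P Q) : OnW w := by
  have h1 := alg_on (over_curve h)
  rw [over_xh h, over_yh h] at h1
  have hT := h.T
  have hT' : w.T = -(16 * w.s S'.dl * θ ^ 6) := by rw [hT]; ring
  unfold OnW DD
  rw [hT']
  rw [t_dl w.t, t_dl w.s]
  linear_combination (16 * (4 * (w.s S'.a) ^ 3 + 27 * (w.s S'.b) ^ 2)) * h1

theorem over_neg {w : Wp S S' F} {θ : F} {P : Pt S F} {Q : Pt S' F} (h : Over w θ P Q) : Over w θ P.neg Q.neg where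
  t := h.t
  s := h.s
  th := h.th
  y := by
    change -P.y = θ ^ 3 * (-Q.y)
    rw [h.y]; ring
  T := h.T
  e1 := h.e1
  e2 := h.e2

theorem over_mir {w : Wp S S' F} {θ : F} {P : Pt S F} {Q : Pt S' F} (h : Over w (-θ) P Q) :
    Over w.mir θ P Q.neg where
  t := h.t
  s := h.s
  th := neg_ne_zero.1 h.th
  y := by
    change P.y = θ ^ 3 * (-Q.y)
    rw [h.y]; ring
  T := by
    change 16 * w.s S'.dl * θ ^ 6 = -w.T
    rw [← h.T]; ring
  e1 := by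
    have h1 := h.e1
    change θ ^ 2 * w.x = 12 * (P.x ^ 2 + P.x * (θ ^ 2 * Q.x) + (θ ^ 2 * Q.x) ^ 2)
      + 4 * (w.t S.a + θ ^ 4 * w.s S'.a)
    linear_combination h1
  e2 := by
    have h1 := h.e2
    change θ ^ 3 * (-w.y) = 12 * (3 * (P.x + θ ^ 2 * Q.x)
      * (P.x ^ 2 + P.x * (θ ^ 2 * Q.x) + (θ ^ 2 * Q.x) ^ 2)
      + w.t S.a * (P.x + 2 * (θ ^ 2 * Q.x)) + θ ^ 4 * w.s S'.a * (2 * P.x + θ ^ 2 * Q.x))
    linear_combination h1

theorem over_swp {w : Wp S S' F} {θ : F} {P : Pt S F} {Q : Pt S' F} (h : Over w θ P Q) (hs : w.s S'.dl ≠ 0) :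
    Over (w.inv).swp θ⁻¹ Q P := by
  have hθ := h.th
  have h16 : (16 : F) ≠ 0 := n16 F
  have hT' : w.T = -(16 * w.s S'.dl * θ ^ 6) := by rw [h.T]; ring
  refine ⟨h.s, h.t, inv_ne_zero hθ, ?_, ?_, ?_, ?_⟩
  · rw [h.y]
    field_simp
  · change 16 * w.t S.dl * θ⁻¹ ^ 6 = -(DD w / w.T)
    unfold DD
    rw [hT']
    field_simp
    ring
  · change θ⁻¹ ^ 2 * w.x = 12 * (Q.x ^ 2 + Q.x * (θ⁻¹ ^ 2 * P.x) + (θ⁻¹ ^ 2 * P.x) ^ 2)
      + 4 * (w.s S'.a + θ⁻¹ ^ 4 * w.t S.a)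
    have h1 := h.e1
    have h2 : θ⁻¹ ^ 2 * w.x = θ⁻¹ ^ 4 * (θ ^ 2 * w.x) := by field_simp
    rw [h2, h1]
    field_simp
    ring
  · change θ⁻¹ ^ 3 * w.y = 12 * (3 * (Q.x + θ⁻¹ ^ 2 * P.x)
      * (Q.x ^ 2 + Q.x * (θ⁻¹ ^ 2 * P.x) + (θ⁻¹ ^ 2 * P.x) ^ 2)
      + w.s S'.a * (Q.x + 2 * (θ⁻¹ ^ 2 * P.x)) + θ⁻¹ ^ 4 * w.t S.a * (2 * Q.x + θ⁻¹ ^ 2 * P.x))
    have h1 := h.e2
    have h2 : θ⁻¹ ^ 3 * w.y = θ⁻¹ ^ 6 * (θ ^ 3 * w.y) := by field_simp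
    rw [h2, h1]
    field_simp
    ring

theorem over_uniq {w : Wp S S' F} {θ : F} {P P' : Pt S F} {Q Q' : Pt S' F} (hq : Qd w θ ≠ 0) (h : Over w θ P Q)
    (h' : Over w θ P' Q') : (P' = P ∧ Q' = Q) ∨ (P' = P.neg ∧ Q' = Q.neg) := by
  have hθ := h.th
  obtain ⟨hx, hx'⟩ := alg_uniq (over_curve h) (over_curve h')
    ((over_xh h).trans (over_xh h').symm) ((over_yh h).trans (over_yh h').symm)
    (by rw [over_xh h]; exact hq)
  have hQx : Q.x = Q'.x := mul_left_cancel₀ (pow_ne_zero 2 hθ) hx'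
  have hPt : P'.t = P.t := h'.t.trans h.t.symm
  have hQt : Q'.t = Q.t := h'.s.trans h.s.symm
  have hyy : P'.y ^ 2 = P.y ^ 2 := by
    rw [P'.eq, P.eq, hPt, hx]
  have h3 : θ ^ 3 ≠ 0 := pow_ne_zero 3 hθ
  rcases sq_eq_sq_iff_eq_or_eq_neg.1 hyy with hy | hy
  · left
    refine ⟨Pt.ext hPt hx.symm hy, Pt.ext hQt hQx.symm ?_⟩
    apply mul_left_cancel₀ h3
    rw [← h'.y, ← h.y, hy]
  · right
    refine ⟨Pt.ext hPt hx.symm hy, Pt.ext hQt hQx.symm ?_⟩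
    change Q'.y = -Q.y
    apply mul_left_cancel₀ h3
    rw [← h'.y, hy, h.y]
    ring

theorem over_exists [IsAlgClosed F] {w : Wp S S' F} {θ : F} (hw : OnW w) (hs : w.s S'.dl ≠ 0)
    (hθ : θ ≠ 0) (hT : 16 * w.s S'.dl * θ ^ 6 = -w.T) (hq : Qd w θ ≠ 0) :
    ∃ (P : Pt S F) (Q : Pt S' F), Over w θ P Q := by
  have h16 : (16 : F) ≠ 0 := n16 F
  have hT' : w.T = -(16 * w.s S'.dl * θ ^ 6) := by rw [hT]; ring
  have hkey : (θ ^ 3 * w.y) ^ 2 = (θ ^ 2 * w.x) ^ 3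
      - 48 * w.t S.a * (θ ^ 4 * w.s S'.a) * (θ ^ 2 * w.x)
      + 864 * w.t S.b * (θ ^ 6 * w.s S'.b)
      - 16 * (4 * (w.t S.a) ^ 3 + 27 * (w.t S.b) ^ 2)
      - 16 * (4 * (θ ^ 4 * w.s S'.a) ^ 3 + 27 * (θ ^ 6 * w.s S'.b) ^ 2) := by
    unfold OnW DD at hw
    rw [hT'] at hw
    have hds := t_dl (S := S') w.s
    have hdt := t_dl w.t
    have h1 : (16 * w.s S'.dl) * ((θ ^ 3 * w.y) ^ 2 - ((θ ^ 2 * w.x) ^ 3
      - 48 * w.t S.a * (θ ^ 4 * w.s S'.a) * (θ ^ 2 * w.x)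
      + 864 * w.t S.b * (θ ^ 6 * w.s S'.b)
      - 16 * (4 * (w.t S.a) ^ 3 + 27 * (w.t S.b) ^ 2)
      - 16 * (4 * (θ ^ 4 * w.s S'.a) ^ 3 + 27 * (θ ^ 6 * w.s S'.b) ^ 2))) = 0 := by
      linear_combination hw - 256 * w.s S'.dl * hdt
        - 256 * θ ^ 12 * w.s S'.dl * hds
    rcases mul_eq_zero.1 h1 with h2 | h2
    · exact absurd h2 (mul_ne_zero h16 hs)
    · exact sub_eq_zero.1 h2
  obtain ⟨X, X', hc, hx, hy⟩ := alg_exist hkey hq
  obtain ⟨η, hη⟩ := IsAlgClosed.exists_pow_nat_eq (X ^ 3 + w.t S.a * X + w.t S.b)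
    (n := 2) (by norm_num)
  have e2 : θ ^ 2 * (X' / θ ^ 2) = X' := by field_simp
  have e3 : θ ^ 3 * (η / θ ^ 3) = η := by field_simp
  refine ⟨⟨w.t, X, η, hη⟩, ⟨w.s, X' / θ ^ 2, η / θ ^ 3, ?_⟩, rfl, rfl, hθ, e3.symm, hT, ?_, ?_⟩
  · apply mul_left_cancel₀ (pow_ne_zero 6 hθ)
    have h1 : θ ^ 6 * (η / θ ^ 3) ^ 2 = η ^ 2 := by field_simp
    rw [h1, hη, hc]
    field_simp
  · change θ ^ 2 * w.x = 12 * (X ^ 2 + X * (θ ^ 2 * (X' / θ ^ 2)) + (θ ^ 2 * (X' / θ ^ 2)) ^ 2)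
      + 4 * (w.t S.a + θ ^ 4 * w.s S'.a)
    rw [e2, ← hx]; rfl
  · change θ ^ 3 * w.y = 12 * (3 * (X + θ ^ 2 * (X' / θ ^ 2))
      * (X ^ 2 + X * (θ ^ 2 * (X' / θ ^ 2)) + (θ ^ 2 * (X' / θ ^ 2)) ^ 2)
      + w.t S.a * (X + 2 * (θ ^ 2 * (X' / θ ^ 2)))
      + θ ^ 4 * w.s S'.a * (2 * X + θ ^ 2 * (X' / θ ^ 2)))
    rw [e2, ← hy]; rfl

private theorem DD_ne {w : Wp S S' F} (ht : w.t S.dl ≠ 0) (hs : w.s S'.dl ≠ 0) :
    DD w ≠ 0 := by
  unfold DD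
  exact mul_ne_zero (mul_ne_zero (n256 F) ht) hs

theorem Good.T_ne {w : Wp S S' F} (hw : Good w) : w.T ≠ 0 := by
  intro h
  have h1 := hw.on
  unfold OnW at h1
  rw [h] at h1
  apply DD_ne hw.dt hw.ds
  linear_combination h1

theorem Good.theta [IsAlgClosed F] {w : Wp S S' F} (hw : Good w) :
    ∃ θ : F, θ ≠ 0 ∧ 16 * w.s S'.dl * θ ^ 6 = -w.T := by
  have h16 : (16 : F) ≠ 0 := n16 F
  have hd := hw.ds
  obtain ⟨θ, hθ⟩ := IsAlgClosed.exists_pow_nat_eq (-w.T / (16 * w.s S'.dl))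
    (n := 6) (by norm_num)
  refine ⟨θ, ?_, ?_⟩
  · rintro rfl
    rw [zero_pow (by norm_num)] at hθ
    have h1 := div_eq_zero_iff.1 hθ.symm
    rcases h1 with h1 | h1
    · exact hw.T_ne (neg_eq_zero.1 h1)
    · exact mul_ne_zero h16 hd h1
  · rw [hθ]
    field_simp

/-- a good point has a pair over it -/
theorem Good.ex [IsAlgClosed F] {w : Wp S S' F} (hw : Good w) :
    ∃ (θ : F) (P : Pt S F) (Q : Pt S' F), Over w θ P Q := by
  obtain ⟨θ, h0, hT⟩ := hw.theta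
  obtain ⟨P, Q, h⟩ := over_exists hw.on hw.ds h0 hT (hw.qd θ hT)
  exact ⟨θ, P, Q, h⟩

theorem qd_dag {w : Wp S S' F} {θ : F} (hθ : θ ≠ 0) : Qd (w.inv).swp θ⁻¹ * θ ^ 8 = Qd w θ := by
  unfold Qd
  change ((θ⁻¹ ^ 2 * w.x) ^ 2 + 4 * (w.s S'.a + θ⁻¹ ^ 4 * w.t S.a) * (θ⁻¹ ^ 2 * w.x)
    + 16 * (w.s S'.a ^ 2 - w.s S'.a * (θ⁻¹ ^ 4 * w.t S.a) + (θ⁻¹ ^ 4 * w.t S.a) ^ 2))
    * θ ^ 8 = _
  field_simp
  ring

theorem Good.mir {w : Wp S S' F} (hw : Good w) : Good w.mir where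
  on := by
    have h := hw.on
    unfold OnW at h ⊢
    change w.T ^ 2 + w.T * (w.x ^ 3 - 48 * w.t S.a * w.s S'.a * w.x
      + 864 * w.t S.b * w.s S'.b - (-w.y) ^ 2) + DD w = 0
    rw [neg_sq]
    exact h
  dt := hw.dt
  ds := hw.ds
  qd := fun θ h => hw.qd θ h

/-- `w` is good if and only if `dag w` is -/
theorem Good.dag {w : Wp S S' F} (hw : Good w) : Good (w.inv).swp where
  on := by
    have hT := hw.T_ne
    have h := hw.on
    unfold OnW at h ⊢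
    change (DD w / w.T) ^ 2 + (DD w / w.T) * (w.x ^ 3 - 48 * w.s S'.a * w.t S.a * w.x
      + 864 * w.s S'.b * w.t S.b - w.y ^ 2)
      + 256 * w.s S'.dl * w.t S.dl = 0
    have hD : 256 * w.s S'.dl * w.t S.dl = DD w := by
      unfold DD; ring
    rw [hD]
    have h1 : (DD w / w.T) ^ 2 + (DD w / w.T) * (w.x ^ 3
      - 48 * w.s S'.a * w.t S.a * w.x + 864 * w.s S'.b * w.t S.b - w.y ^ 2)
      + DD w = DD w / w.T ^ 2 * (w.T ^ 2 + w.T * (w.x ^ 3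
      - 48 * w.t S.a * w.s S'.a * w.x + 864 * w.t S.b * w.s S'.b - w.y ^ 2)
      + DD w) := by
      field_simp
      ring
    rw [h1, h, mul_zero]
  dt := hw.ds
  ds := hw.dt
  qd := by
    intro θ hθ
    change 16 * w.t S.dl * θ ^ 6 = -(DD w / w.T) at hθ
    have hT := hw.T_ne
    have hD := DD_ne hw.dt hw.ds
    have h16 : (16 : F) ≠ 0 := n16 F
    have hdt := hw.dt
    have hds := hw.ds
    have h0 : θ ≠ 0 := by
      rintro rfl
      rw [zero_pow (by norm_num), mul_zero] at hθ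
      have h1 := neg_eq_zero.1 hθ.symm
      rcases div_eq_zero_iff.1 h1 with h2 | h2
      · exact hD h2
      · exact hT h2
    have h2 : 16 * w.s S'.dl * θ⁻¹ ^ 6 = -w.T := by
      unfold DD at hθ
      have h3 : θ ^ 6 * w.T = -(16 * w.s S'.dl) := by
        have h4 : (16 * w.t S.dl) * (θ ^ 6 * w.T)
            = (16 * w.t S.dl) * (-(16 * w.s S'.dl)) := by
          have h5 : 16 * w.t S.dl * θ ^ 6 * w.T
              = -(256 * w.t S.dl * w.s S'.dl) := by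
            rw [hθ]
            field_simp
          linear_combination h5
        exact mul_left_cancel₀ (mul_ne_zero h16 hdt) h4
      have h6 : θ ^ 6 ≠ 0 := pow_ne_zero 6 h0
      apply mul_left_cancel₀ h6
      have h7 : θ ^ 6 * (16 * w.s S'.dl * θ⁻¹ ^ 6) = 16 * w.s S'.dl := by
        field_simp
      rw [h7]
      linear_combination h3
    have h8 := qd_dag (w := w) (inv_ne_zero h0)
    rw [inv_inv] at h8
    intro h9
    rw [h9, zero_mul] at h8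
    exact hw.qd _ h2 h8.symm

theorem inv_swp_comm (w : Wp S S' F) : (w.swp).inv = (w.inv).swp := by
  have hD : DD w.swp = DD w := by
    unfold DD
    change 256 * w.s S'.dl * w.t S.dl = _
    ring
  unfold Wp.inv
  rw [hD]
  rfl

theorem swp_swp (w : Wp S S' F) : w.swp.swp = w := rfl

theorem mir_mir (w : Wp S S' F) : w.mir.mir = w := by
  unfold Wp.mir; simp

theorem inv_inv_w {w : Wp S S' F} (hw : Good w) : (w.inv).inv = w := by
  have hT := hw.T_ne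
  have hD := DD_ne hw.dt hw.ds
  have h1 : DD (w.inv) = DD w := rfl
  have h2 : (w.inv).T = DD w / w.T := rfl
  have h3 : DD w / (DD w / w.T) = w.T := by field_simp
  unfold Wp.inv at *
  rw [h1, h3]

theorem GG.mir {w : Wp S S' F} (hw : GG w) : GG w.mir where
  g := hw.g.mir
  g' := hw.g'.mir
  disc := hw.disc

theorem GG.swp {w : Wp S S' F} (hw : GG w) : GG w.swp where
  g := hw.g'
  g' := hw.g
  disc := by
    have h : Disc w.swp = Disc w := by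
      unfold Disc DD Wp.swp
      ring
    rw [h]
    exact hw.disc

/-- `Good (inv w)` -/
theorem GG.inv_good {w : Wp S S' F} (hw : GG w) : Good (w.inv) := by
  have h := hw.g'.dag
  rw [inv_swp_comm, swp_swp] at h
  exact h

theorem GG.dag {w : Wp S S' F} (hw : GG w) : GG (w.inv).swp where
  g := hw.g.dag
  g' := hw.inv_good
  disc := by
    have hT := hw.g.T_ne
    have hD := DD_ne hw.g.dt hw.g.ds
    have h : Disc (w.inv).swp = DD w ^ 2 / w.T ^ 4 * Disc w := by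
      have hD' : DD (w.inv).swp = DD w := by
        unfold DD
        change 256 * w.s S'.dl * w.t S.dl = _
        ring
      unfold Disc
      rw [hD']
      change 4 * (-48 * w.s S'.a * w.t S.a) ^ 3 * (DD w / w.T) ^ 2
        + 27 * (864 * w.s S'.b * w.t S.b * (DD w / w.T) + (DD w / w.T) ^ 2
        + DD w) ^ 2 = _
      field_simp
      ring
    rw [h]
    exact mul_ne_zero (div_ne_zero (pow_ne_zero 2 hD) (pow_ne_zero 4 hT)) hw.disc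

end H90.QF
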