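import Pool.Agent.H71.K3.Rdt
import Pool.Agent.H71.K3.PlInf
import Pool.Agent.H90.QF.AlgC

/-! # QF.Base : functionals on the pairs of points of two families of plane cubics (complete)

A family `S` is a `k`-algebra `S.R` with two elements `S.a`, `S.b`; a point with values in `F` is a homomorphism `t : S.R → F` (the base point)
with a point `(x, y)` of the cubic `y^2 = x^3 + t(a) x + t(b)`.  A functional `Fn S S' G` gives every pair of points over `k` a class in a
torsion-free group `G`; its only property is `kc0`: a finite list of pairs over `Ω` with constant base points (NOT assumed to be stable under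
automorphisms) has the same sum of classes at any two points of `ℙ¹`, provided that the sum of the classes is the same for all places over one
point (pairs of points which are not integral have the class `0`).
Everything else is as in `H71.K3.Base`. -/

namespace H90.QF

open H68.BB

export H71.K3 (OverPl place_over rd_pow_root rd_sq exists_quad rd_quad rd_nat rd_ofNat rd_aeval)

/-- a family of plane cubics `y^2 = x^3 + a x + b` over `Spec R` -/
structure Fam (k : Type) [Field k] where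
  R : Type
  [cr : CommRing R]
  [alg : Algebra k R]
  a : R
  b : R

attribute [instance] Fam.cr Fam.alg

/-- the discriminant `4 a^3 + 27 b^2` -/
def Fam.dl {k : Type} [Field k] (S : Fam k) : S.R := 4 * S.a ^ 3 + 27 * S.b ^ 2

instance c23Om (k : Type) [Field k] [C23 k] : C23 (Om k) where
  h2 := by
    rw [← map_ofNat (algebraMap k (Om k)) 2]
    exact (map_ne_zero (algebraMap k (Om k))).2 (n2 k)
  h3 := by
    rw [← map_ofNat (algebraMap k (Om k)) 3]
    exact (map_ne_zero (algebraMap k (Om k))).2 (n3 k)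

section basic
variable {k : Type} [Field k]

/-- a point of the family with coordinates in `F` -/
@[ext] structure Pt (S : Fam k) (F : Type) [Field F] [Algebra k F] where
  t : S.R →ₐ[k] F
  x : F
  y : F
  eq : y ^ 2 = x ^ 3 + t S.a * x + t S.b

variable {S S' : Fam k} {F : Type} [Field F] [Algebra k F]

theorem t_dl (t : S.R →ₐ[k] F) : t S.dl = 4 * (t S.a) ^ 3 + 27 * (t S.b) ^ 2 := by
  unfold Fam.dl
  simp only [map_add, map_mul, map_pow, map_ofNat]

/-- the opposite point `(t, x, -y)` of the same fibre -/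
def Pt.neg (P : Pt S F) : Pt S F where
  t := P.t
  x := P.x
  y := -P.y
  eq := by rw [neg_sq]; exact P.eq

theorem neg_neg_pt (P : Pt S F) : P.neg.neg = P := by
  apply Pt.ext
  · rfl
  · rfl
  · exact neg_neg P.y

/-- points with the same `t` and `x` are equal or opposite -/
theorem eq_or_neg {P P' : Pt S F} (ht : P'.t = P.t) (hx : P'.x = P.x) :
    P' = P ∨ P' = P.neg := by
  have h1 : P'.y ^ 2 = P.y ^ 2 := by
    rw [P'.eq, P.eq, ht, hx]
  rcases sq_eq_sq_iff_eq_or_eq_neg.1 h1 with h | h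
  · exact Or.inl (Pt.ext ht hx h)
  · exact Or.inr (Pt.ext ht hx h)

/-- pairs of points -/
abbrev PP (S S' : Fam k) (F : Type) [Field F] [Algebra k F] : Type := Pt S F × Pt S' F

/-- a homomorphism `R → k` as a homomorphism `R → Ω` -/
noncomputable def cstB {R : Type} [CommRing R] [Algebra k R] (g : R →ₐ[k] k) : R →ₐ[k] Om k :=
  (Algebra.ofId k (Om k)).comp g

theorem cstB_apply {R : Type} [CommRing R] [Algebra k R] (g : R →ₐ[k] k) (r : R) : cstB g r = cst (g r) := rfl

/-- the base point `f` is integral and specialises to `g` -/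
def RdB (π : Place k (Om k)) {R : Type} [CommRing R] [Algebra k R] (f : R →ₐ[k] Om k) (g : R →ₐ[k] k) : Prop :=
  ∀ r, Rd π.V π.φ (f r) (g r)

theorem RdB.cst (π : Place k (Om k)) {R : Type} [CommRing R] [Algebra k R] (g : R →ₐ[k] k) : RdB π (cstB g) g :=
  fun _ => π.const _

theorem RdB.unique {π : Place k (Om k)} {R : Type} [CommRing R] [Algebra k R] {f : R →ₐ[k] Om k} {g g' : R →ₐ[k] k}
    (h : RdB π f g) (h' : RdB π f g') : g = g' := AlgHom.ext fun r => (h r).unique (h' r)

/-- the coordinates of the base point are integral -/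
def BI (π : Place k (Om k)) {R : Type} [CommRing R] [Algebra k R] (f : R →ₐ[k] Om k) : Prop := ∀ r, f r ∈ π.V

theorem RdB.bi {π : Place k (Om k)} {R : Type} [CommRing R] [Algebra k R] {f : R →ₐ[k] Om k} {g : R →ₐ[k] k}
    (h : RdB π f g) : BI π f := fun r => (h r).mem

/-- the specialisation of an integral base point -/
noncomputable def spB (π : Place k (Om k)) {R : Type} [CommRing R] [Algebra k R] (f : R →ₐ[k] Om k) (h : BI π f) :
    R →ₐ[k] k where
  toFun r := π.φ ⟨f r, h r⟩
  map_one' := ((Rd.of_mem (φ := π.φ) (h 1)).unique (by rw [map_one]; exact Rd.one))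
  map_mul' r r' := (Rd.of_mem (φ := π.φ) (h (r * r'))).unique (by
    rw [map_mul]; exact (Rd.of_mem (h r)).mul (Rd.of_mem (h r')))
  map_zero' := ((Rd.of_mem (φ := π.φ) (h 0)).unique (by rw [map_zero]; exact Rd.zero))
  map_add' r r' := (Rd.of_mem (φ := π.φ) (h (r + r'))).unique (by
    rw [map_add]; exact (Rd.of_mem (h r)).add (Rd.of_mem (h r')))
  commutes' c := (Rd.of_mem (φ := π.φ) (h (algebraMap k R c))).unique (by
    rw [AlgHom.commutes]; exact π.const c)

theorem spB_rd {π : Place k (Om k)} {R : Type} [CommRing R] [Algebra k R] {f : R →ₐ[k] Om k} (h : BI π f) :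
    RdB π f (spB π f h) := fun r => Rd.of_mem (h r)

/-- all coordinates are integral at the place -/
def Pt.Int (π : Place k (Om k)) (P : Pt S (Om k)) : Prop := BI π P.t ∧ P.x ∈ π.V ∧ P.y ∈ π.V

/-- the specialisation of a point with integral coordinates -/
noncomputable def Pt.sp (π : Place k (Om k)) (P : Pt S (Om k)) (h : P.Int π) : Pt S k where
  t := spB π P.t h.1
  x := π.φ ⟨P.x, h.2.1⟩
  y := π.φ ⟨P.y, h.2.2⟩
  eq := by
    have hx : Rd π.V π.φ P.x (π.φ ⟨P.x, h.2.1⟩) := Rd.of_mem h.2.1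
    have hy : Rd π.V π.φ P.y (π.φ ⟨P.y, h.2.2⟩) := Rd.of_mem h.2.2
    have h1 := ((hx.pow 3).add ((spB_rd h.1 S.a).mul hx)).add (spB_rd h.1 S.b)
    rw [← P.eq] at h1
    exact (hy.pow 2).unique h1

/-- the coordinates of `P` are integral and specialise to the coordinates of `P₀` -/
structure RdP (π : Place k (Om k)) (P : Pt S (Om k)) (P₀ : Pt S k) : Prop where
  t : RdB π P.t P₀.t
  x : Rd π.V π.φ P.x P₀.x
  y : Rd π.V π.φ P.y P₀.y

theorem RdP.int {π : Place k (Om k)} {P : Pt S (Om k)} {P₀ : Pt S k} (h : RdP π P P₀) : P.Int π :=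
  ⟨h.t.bi, h.x.mem, h.y.mem⟩

theorem RdP.sp {π : Place k (Om k)} {P : Pt S (Om k)} (h : P.Int π) : RdP π P (P.sp π h) :=
  ⟨spB_rd h.1, Rd.of_mem h.2.1, Rd.of_mem h.2.2⟩

theorem RdP.unique {π : Place k (Om k)} {P : Pt S (Om k)} {P₀ P₁ : Pt S k} (h : RdP π P P₀)
    (h' : RdP π P P₁) : P₀ = P₁ :=
  Pt.ext (h.t.unique h'.t) (h.x.unique h'.x) (h.y.unique h'.y)

theorem RdP.neg {π : Place k (Om k)} {P : Pt S (Om k)} {P₀ : Pt S k} (h : RdP π P P₀) :
    RdP π P.neg P₀.neg := ⟨h.t, h.x, h.y.neg⟩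

/-- a point over `k` as a constant point over `Ω` -/
noncomputable def Pt.con (P : Pt S k) : Pt S (Om k) where
  t := cstB P.t
  x := cst P.x
  y := cst P.y
  eq := by
    rw [cstB_apply, cstB_apply, ← map_pow, P.eq, map_add, map_add, map_mul, map_pow]

theorem con_t (P : Pt S k) : P.con.t = cstB P.t := rfl
theorem con_x (P : Pt S k) : P.con.x = cst P.x := rfl
theorem con_y (P : Pt S k) : P.con.y = cst P.y := rfl

theorem con_rd (π : Place k (Om k)) (P : Pt S k) : RdP π P.con P := ⟨RdB.cst π _, π.const _, π.const _⟩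

/-- both base points of the pair are integral -/
def BI2 (π : Place k (Om k)) (p : PP S S' (Om k)) : Prop := BI π p.1.t ∧ BI π p.2.t

open Classical in
/-- the class of the specialisation of a pair, `0` if one of its coordinates is not integral -/
noncomputable def spvC {G : Type} [AddCommGroup G] (cl : Pt S k → Pt S' k → G) (π : Place k (Om k)) (p : PP S S' (Om k)) : G :=
  if h : p.1.Int π ∧ p.2.Int π then cl (p.1.sp π h.1) (p.2.sp π h.2) else 0

/-- a functional on the pairs of points -/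
structure Fn (S S' : Fam k) (G : Type) [AddCommGroup G] where
  cl : Pt S k → Pt S' k → G
  tf : ∀ (n : ℕ) (v : G), n ≠ 0 → n • v = 0 → v = 0
  kc0 : ∀ (L : List (PP S S' (Om k))) (g : S.R →ₐ[k] k) (g' : S'.R →ₐ[k] k)
    (_ : ∀ p ∈ L, p.1.t = cstB g ∧ p.2.t = cstB g') (u u' : Option k) (v v' : G)
    (_ : ∀ π : Place k (Om k), OverPl π u → (L.map (spvC cl π)).sum = v)
    (_ : ∀ π : Place k (Om k), OverPl π u' → (L.map (spvC cl π)).sum = v'), v = v'

variable {G : Type} [AddCommGroup G]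

/-- the class of the specialisation of a pair -/
noncomputable def Fn.spv (Φ : Fn S S' G) (π : Place k (Om k)) (p : PP S S' (Om k)) : G := spvC Φ.cl π p

/-- the property of the functional for lists of pairs with constant base points -/
theorem Fn.kc (Φ : Fn S S' G) (L : List (PP S S' (Om k))) (g : S.R →ₐ[k] k) (g' : S'.R →ₐ[k] k)
    (hL : ∀ p ∈ L, p.1.t = cstB g ∧ p.2.t = cstB g') (u u' : Option k) (v v' : G)
    (h : ∀ π : Place k (Om k), OverPl π u → (L.map (Φ.spv π)).sum = v)
    (h' : ∀ π : Place k (Om k), OverPl π u' → (L.map (Φ.spv π)).sum = v') : v = v' :=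
  Φ.kc0 L g g' hL u u' v v' h h'

theorem Fn.half (Φ : Fn S S' G) {v : G} (h : v + v = 0) : v = 0 := Φ.tf 2 v two_ne_zero (by rw [two_nsmul]; exact h)

/-- the class of the specialisation, if both points are integral -/
theorem Fn.spv_rd (Φ : Fn S S' G) {π : Place k (Om k)} {P : Pt S (Om k)} {Q : Pt S' (Om k)} {P₀ : Pt S k} {Q₀ : Pt S' k}
    (h : RdP π P P₀) (h' : RdP π Q Q₀) : Φ.spv π (P, Q) = Φ.cl P₀ Q₀ := by
  unfold Fn.spv spvC
  rw [dif_pos ⟨h.int, h'.int⟩]
  rw [(RdP.sp h.int).unique h, (RdP.sp h'.int).unique h']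

/-- the class of the specialisation, if the points are not both integral -/
theorem Fn.spv_zero (Φ : Fn S S' G) {π : Place k (Om k)} {P : Pt S (Om k)} {Q : Pt S' (Om k)}
    (h : ¬(P.Int π ∧ Q.Int π)) : Φ.spv π (P, Q) = 0 := by
  unfold Fn.spv spvC
  rw [dif_neg h]

/-- either both points are integral, or the class of the specialisation is zero -/
theorem Fn.spv_cases (Φ : Fn S S' G) (π : Place k (Om k)) (P : Pt S (Om k)) (Q : Pt S' (Om k)) :
    (∃ P₀ Q₀, RdP π P P₀ ∧ RdP π Q Q₀ ∧ Φ.spv π (P, Q) = Φ.cl P₀ Q₀) ∨ Φ.spv π (P, Q) = 0 := by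
  by_cases h : P.Int π ∧ Q.Int π
  · exact Or.inl ⟨_, _, RdP.sp h.1, RdP.sp h.2, Φ.spv_rd (RdP.sp h.1) (RdP.sp h.2)⟩
  · exact Or.inr (Φ.spv_zero h)

/-- the functional with the two factors exchanged -/
noncomputable def Fn.swp (Φ : Fn S S' G) : Fn S' S G where
  cl Q P := Φ.cl P Q
  tf := Φ.tf
  kc0 L g g' hL u u' v v' h h' := by
    have key : ∀ π : Place k (Om k), ∀ p : PP S' S (Om k),
        spvC (fun Q P => Φ.cl P Q) π p = spvC Φ.cl π p.swap := by
      intro π p
      unfold spvC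
      by_cases hp : p.1.Int π ∧ p.2.Int π
      · have hp' : p.swap.1.Int π ∧ p.swap.2.Int π := ⟨hp.2, hp.1⟩
        rw [dif_pos hp, dif_pos hp']
        rfl
      · have hp' : ¬(p.swap.1.Int π ∧ p.swap.2.Int π) := fun h => hp ⟨h.2, h.1⟩
        rw [dif_neg hp, dif_neg hp']
    have e : ∀ π : Place k (Om k), (L.map (spvC (fun Q P => Φ.cl P Q) π)) =
        ((L.map Prod.swap).map (spvC Φ.cl π)) := by
      intro π
      rw [List.map_map]
      exact List.map_congr_left fun p _ => key π p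
    refine Φ.kc0 (L.map Prod.swap) g' g ?_ u u' v v' ?_ ?_
    · intro p hp
      obtain ⟨q, hq, rfl⟩ := List.mem_map.1 hp
      exact ⟨(hL q hq).2, (hL q hq).1⟩
    · intro π hπ
      rw [← e]
      exact h π hπ
    · intro π hπ
      rw [← e]
      exact h' π hπ

theorem Fn.swp_cl (Φ : Fn S S' G) (P : Pt S k) (Q : Pt S' k) : Φ.swp.cl Q P = Φ.cl P Q := rfl

end basic

/-- the coordinates of a point of the variety `W` of the pair of families -/
@[ext] structure Wp {k : Type} [Field k] (S S' : Fam k) (F : Type) [Field F] [Algebra k F] where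
  t : S.R →ₐ[k] F
  s : S'.R →ₐ[k] F
  x : F
  y : F
  T : F

section fourfold
variable {k : Type} [Field k] {S S' : Fam k} {F : Type} [Field F] [Algebra k F]

/-- `256` times the product of the discriminants of the two fibres -/
noncomputable def DD (w : Wp S S' F) : F := 256 * w.t S.dl * w.s S'.dl

/-- the equation of `W` -/
def OnW (w : Wp S S' F) : Prop :=
  w.T ^ 2 + w.T * (w.x ^ 3 - 48 * w.t S.a * w.s S'.a * w.x
    + 864 * w.t S.b * w.s S'.b - w.y ^ 2) + DD w = 0

/-- `y` replaced by `-y` -/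
def Wp.mir (w : Wp S S' F) : Wp S S' F := ⟨w.t, w.s, w.x, -w.y, w.T⟩

/-- the two families exchanged -/
def Wp.swp (w : Wp S S' F) : Wp S' S F := ⟨w.s, w.t, w.x, w.y, w.T⟩

/-- `T` replaced by the other root of the quadratic equation -/
noncomputable def Wp.inv (w : Wp S S' F) : Wp S S' F := ⟨w.t, w.s, w.x, w.y, DD w / w.T⟩

/-- the pair `(P, Q)` lies over the point `w` of `W`, with the sixth root `θ` -/
structure Over (w : Wp S S' F) (θ : F) (P : Pt S F) (Q : Pt S' F) : Prop where
  t : P.t = w.t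
  s : Q.t = w.s
  th : θ ≠ 0
  y : P.y = θ ^ 3 * Q.y
  T : 16 * w.s S'.dl * θ ^ 6 = -w.T
  e1 : θ ^ 2 * w.x = 12 * (P.x ^ 2 + P.x * (θ ^ 2 * Q.x) + (θ ^ 2 * Q.x) ^ 2)
    + 4 * (w.t S.a + θ ^ 4 * w.s S'.a)
  e2 : θ ^ 3 * w.y = 12 * (3 * (P.x + θ ^ 2 * Q.x) * (P.x ^ 2 + P.x * (θ ^ 2 * Q.x) + (θ ^ 2 * Q.x) ^ 2)
    + w.t S.a * (P.x + 2 * (θ ^ 2 * Q.x)) + θ ^ 4 * w.s S'.a * (2 * P.x + θ ^ 2 * Q.x))

/-- the determinant of the linear system for the point over `w` -/
noncomputable def Qd (w : Wp S S' F) (θ : F) : F :=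
  (θ ^ 2 * w.x) ^ 2 + 4 * (w.t S.a + θ ^ 4 * w.s S'.a) * (θ ^ 2 * w.x)
    + 16 * (w.t S.a ^ 2 - w.t S.a * (θ ^ 4 * w.s S'.a) + (θ ^ 4 * w.s S'.a) ^ 2)

/-- `w` is a point of `W` over two smooth fibres and the pairs over `w` are finite, for all choices of the
sixth root -/
structure Good (w : Wp S S' F) : Prop where
  on : OnW w
  dt : w.t S.dl ≠ 0
  ds : w.s S'.dl ≠ 0
  qd : ∀ θ : F, 16 * w.s S'.dl * θ ^ 6 = -w.T → Qd w θ ≠ 0

/-- `T^2` times the discriminant of the cubic in `x` -/
noncomputable def Disc (w : Wp S S' F) : F :=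
  4 * (-48 * w.t S.a * w.s S'.a) ^ 3 * w.T ^ 2
    + 27 * (864 * w.t S.b * w.s S'.b * w.T + w.T ^ 2 + DD w) ^ 2

/-- `w` and its swap are good, and the cubic curve in the `(x, y)`-plane is smooth -/
structure GG (w : Wp S S' F) : Prop where
  g : Good w
  g' : Good w.swp
  disc : Disc w ≠ 0

end fourfold

section spec
variable {k : Type} [Field k] {S S' : Fam k}

/-- the five coordinates of `w` are integral and specialise to the coordinates of `w₀` -/
structure RdW (π : Place k (Om k)) (w : Wp S S' (Om k)) (w₀ : Wp S S' k) : Prop where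
  t : RdB π w.t w₀.t
  s : RdB π w.s w₀.s
  x : Rd π.V π.φ w.x w₀.x
  y : Rd π.V π.φ w.y w₀.y
  T : Rd π.V π.φ w.T w₀.T

theorem RdW.mir {π : Place k (Om k)} {w : Wp S S' (Om k)} {w₀ : Wp S S' k} (h : RdW π w w₀) :
    RdW π w.mir w₀.mir := ⟨h.t, h.s, h.x, h.y.neg, h.T⟩

theorem RdW.swp {π : Place k (Om k)} {w : Wp S S' (Om k)} {w₀ : Wp S S' k} (h : RdW π w w₀) :
    RdW π w.swp w₀.swp := ⟨h.s, h.t, h.x, h.y, h.T⟩

end spec

end H90.QF
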