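import Mathlib

/-! # QF.ConstC : polynomial curves on a smooth cubic are constant, in characteristic different from `2` (Mathlib only)

As `H71.K3.ConstCurve`; if `x' = 0` then `y' = 0` and in characteristic `p` both are polynomials in `X^p` : induction on the degree. -/

namespace H90.QF

open Polynomial

theorem const_curve_aux {k : Type} [Field k] (h2 : (2 : k) ≠ 0) {A B : k} (hd : 4 * A ^ 3 + 27 * B ^ 2 ≠ 0) (m : ℕ) :
    ∀ x y : k[X], x.natDegree ≤ m → y ^ 2 = x ^ 3 + C A * x + C B → x.natDegree = 0 := by
  induction m with
  | zero =>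
    intro x y hx _
    exact Nat.le_zero.1 hx
  | succ m ih =>
    intro x y hxm h
    -- the derivative
    have hder : 2 * (y * derivative y) = (3 * x ^ 2 + C A) * derivative x := by
      have h1 := congrArg (derivative (R := k)) h
      rw [derivative_pow, derivative_add, derivative_add, derivative_pow, derivative_C_mul, derivative_C] at h1
      simp only [Nat.cast_ofNat, Nat.add_one_sub_one, pow_one, add_zero] at h1
      have e2 : (C (2 : k) : k[X]) = 2 := rfl
      have e3 : (C (3 : k) : k[X]) = 3 := rfl
      rw [e2, e3] at h1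
      linear_combination h1
    -- coprimality
    have hcop : IsCoprime y (3 * x ^ 2 + C A) := by
      refine ⟨C ((4 * A ^ 3 + 27 * B ^ 2)⁻¹) * (y * (-18 * C A * x + 27 * C B)),
        C ((4 * A ^ 3 + 27 * B ^ 2)⁻¹) * (6 * C A * x ^ 2 - 9 * C B * x + 4 * C A ^ 2), ?_⟩
      have e : C ((4 * A ^ 3 + 27 * B ^ 2)⁻¹) * (4 * C A ^ 3 + 27 * C B ^ 2) = (1 : k[X]) := by
        have e4 : (4 * C A ^ 3 + 27 * C B ^ 2 : k[X]) = C (4 * A ^ 3 + 27 * B ^ 2) := by
          rw [C_add, C_mul, C_mul, C_pow, C_pow]
          rfl
        rw [e4, ← C_mul, inv_mul_cancel₀ hd, C_1]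
      linear_combination e + C ((4 * A ^ 3 + 27 * B ^ 2)⁻¹) * (-18 * C A * x + 27 * C B) * h
    have hdvd : y ∣ derivative x := by
      have h1 : y ∣ (3 * x ^ 2 + C A) * derivative x := by
        rw [← hder]
        exact ⟨2 * derivative y, by ring⟩
      exact hcop.dvd_of_dvd_mul_left h1
    have hx0 : derivative x = 0 := by
      by_contra hne
      have h1 : y.natDegree ≤ (derivative x).natDegree := natDegree_le_of_dvd hdvd hne
      have h2 : x.natDegree ≠ 0 := by
        intro h0
        apply hne
        rw [eq_C_of_natDegree_eq_zero h0, derivative_C]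
      have h3 : (derivative x).natDegree < x.natDegree := natDegree_derivative_lt h2
      have h4 : (y ^ 2).natDegree = 2 * y.natDegree := natDegree_pow y 2
      have h5 : (x ^ 3 + C A * x + C B).natDegree = 3 * x.natDegree := by
        have h6 : (C A * x).natDegree < (x ^ 3).natDegree := by
          rw [natDegree_pow]
          exact lt_of_le_of_lt (natDegree_C_mul_le A x) (by omega)
        have h7 : (C B).natDegree < (x ^ 3 + C A * x).natDegree := by
          rw [natDegree_add_eq_left_of_natDegree_lt h6, natDegree_pow, natDegree_C]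
          omega
        rw [natDegree_add_eq_left_of_natDegree_lt h7, natDegree_add_eq_left_of_natDegree_lt h6, natDegree_pow]
      rw [h, h5] at h4
      omega
    have hy0 : derivative y = 0 := by
      rw [hx0, mul_zero] at hder
      have h22 : (2 : k[X]) ≠ 0 := by
        have e2 : (C (2 : k) : k[X]) = 2 := rfl
        rw [← e2]
        exact C_ne_zero.2 h2
      rcases mul_eq_zero.1 ((mul_eq_zero.1 hder).resolve_left h22) with h1 | h1
      · rw [h1, derivative_zero]
      · exact h1
    obtain ⟨p, hp⟩ := CharP.exists k
    by_cases hp0 : p = 0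
    · subst hp0
      have : CharZero k := CharP.charP_to_charZero k
      exact derivative_eq_zero.mp hx0
    · have hprime : p.Prime := (CharP.char_is_prime_or_zero k p).resolve_right hp0
      have ex : expand k p (contract p x) = x := expand_contract p hx0 hp0
      have ey : expand k p (contract p y) = y := expand_contract p hy0 hp0
      have h3 : contract p y ^ 2 = contract p x ^ 3 + C A * contract p x + C B := by
        apply expand_injective (R := k) (Nat.pos_of_ne_zero hp0)
        rw [map_pow, map_add, map_add, map_mul, map_pow, expand_C, expand_C, ex, ey]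
        exact h
      have h4 : (contract p x).natDegree * p = x.natDegree := by
        conv_rhs => rw [← ex]
        rw [natDegree_expand]
      by_cases hx1 : (contract p x).natDegree = 0
      · rw [← h4, hx1, zero_mul]
      · have h5 : (contract p x).natDegree ≤ m := by
          have h6 := hprime.two_le
          nlinarith [Nat.pos_of_ne_zero hx1]
        rw [← h4, ih _ _ h5 h3, zero_mul]

theorem const_curve {k : Type} [Field k] (h2 : (2 : k) ≠ 0) {x y : k[X]} {A B : k}
    (h : y ^ 2 = x ^ 3 + C A * x + C B) (hd : 4 * A ^ 3 + 27 * B ^ 2 ≠ 0) :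
    x = C (x.eval 0) ∧ y = C (y.eval 0) := by
  have hx : x.natDegree = 0 := const_curve_aux h2 hd x.natDegree x y le_rfl h
  have hxC : x = C (x.eval 0) := by
    have := eq_C_of_natDegree_eq_zero hx
    rw [coeff_zero_eq_eval_zero] at this
    exact this
  refine ⟨hxC, ?_⟩
  have hy : y.natDegree = 0 := by
    have h4 : (y ^ 2).natDegree = 2 * y.natDegree := natDegree_pow y 2
    have h5 : (x ^ 3 + C A * x + C B).natDegree = 0 := by
      rw [hxC, ← C_pow, ← C_mul, ← C_add, ← C_add, natDegree_C]
    rw [h, h5] at h4
    omega
  have := eq_C_of_natDegree_eq_zero hy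
  rw [coeff_zero_eq_eval_zero] at this
  exact this

end H90.QF
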