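import Pool.Agent.H90.QF.R1

/-! # QF.Nodal : points in singular fibres have class zero (complete, as `H71.K3.Nodal`) -/

namespace H90.QF

open Polynomial H68.BB

variable {k : Type} [Field k] [IsAlgClosed k] [C23 k] {S S' : Fam k} {G : Type} [AddCommGroup G] (Φ : Fn S S' G)

private theorem nodal_curve (P : Pt S k) (h : P.t S.dl = 0) :
    ∃ (m : k) (U : Pt S (Om k)), U.t = cstB P.t ∧ (∀ π : Place k (Om k), OverPl π (some m) → RdP π U P) ∧
      ∀ π : Place k (Om k), OverPl π none → ¬ U.Int π := by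
  have h1 : 4 * P.t S.a ^ 3 + 27 * P.t S.b ^ 2 = 0 := by
    rw [← t_dl, h]
  set A : k := P.t S.a with hA
  set B : k := P.t S.b with hB
  obtain ⟨α, hα1, hα2⟩ : ∃ α : k, A = -3 * α ^ 2 ∧ B = 2 * α ^ 3 := by
    by_cases hA0 : A = 0
    · refine ⟨0, by rw [hA0]; ring, ?_⟩
      rw [hA0] at h1
      have h3 : B ^ 2 = 0 := by
        have : (27 : k) ≠ 0 := n27 k
        have h4 : 27 * B ^ 2 = 0 := by linear_combination h1
        exact (mul_eq_zero.1 h4).resolve_left this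
      rw [pow_eq_zero_iff (by norm_num)] at h3
      rw [h3]; ring
    · have h2 : (2 : k) ≠ 0 := n2 k
      have h4 : (4 : k) ≠ 0 := n4 k
      refine ⟨-3 * B / (2 * A), ?_, ?_⟩
      · field_simp
        linear_combination h1
      · field_simp
        linear_combination B * h1
  obtain ⟨m1, hm1⟩ := IsAlgClosed.exists_pow_nat_eq (P.x + 2 * α) (n := 2) (by norm_num)
  have hy : P.y ^ 2 = ((P.x - α) * m1) ^ 2 := by
    rw [P.eq, mul_pow, hm1, ← hA, ← hB, hα1, hα2]; ring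
  obtain ⟨m, hm, hym⟩ : ∃ m : k, m ^ 2 = P.x + 2 * α ∧ P.y = (P.x - α) * m := by
    rcases sq_eq_sq_iff_eq_or_eq_neg.1 hy with h2 | h2
    · exact ⟨m1, hm1, h2⟩
    · exact ⟨-m1, by rw [neg_sq]; exact hm1, by rw [h2]; ring⟩
  have ea : cstB P.t S.a = cst A := rfl
  have eb : cstB P.t S.b = cst B := rfl
  refine ⟨m, ⟨cstB P.t, tt k ^ 2 - 2 * cst α, tt k * (tt k ^ 2 - 3 * cst α), ?_⟩, rfl, ?_, ?_⟩
  · rw [ea, eb, hα1, hα2]
    simp only [cst, map_mul, map_neg, map_pow, map_ofNat]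
    ring
  · intro π hπ
    have ht : Rd π.V π.φ (tt k) m := hπ
    have hc : Rd π.V π.φ (cst α : Om k) α := π.const α
    have hx : Rd π.V π.φ (tt k ^ 2 - 2 * cst α) (m ^ 2 - 2 * α) := (ht.pow 2).sub (Rd.two.mul hc)
    have hx3 : Rd π.V π.φ (tt k ^ 2 - 3 * cst α) (m ^ 2 - 3 * α) := (ht.pow 2).sub (Rd.three.mul hc)
    have e1 : m ^ 2 - 2 * α = P.x := by rw [hm]; ring
    have e2 : m * (m ^ 2 - 3 * α) = P.y := by rw [hm, hym]; ring
    refine ⟨RdB.cst π _, ?_, ?_⟩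
    · rw [← e1]; exact hx
    · rw [← e2]; exact ht.mul hx3
  · intro π hπ hint
    have hc : Rd π.V π.φ (cst α : Om k) α := π.const α
    have hx : Rd π.V π.φ (tt k ^ 2 - 2 * cst α) _ := Rd.of_mem hint.2.1
    have h2 := hx.add (Rd.two.mul hc)
    rw [sub_add_cancel] at h2
    obtain ⟨z, hz, -⟩ := rd_pow_root π (by norm_num : 0 < 2) h2
    exact hπ hz.mem

theorem cl_nodal_fst (P : Pt S k) (Q : Pt S' k) (h : P.t S.dl = 0) : Φ.cl P Q = 0 := by
  obtain ⟨m, U, h0, h1, h2⟩ := nodal_curve P h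
  refine Φ.kc [(U, Q.con)] P.t Q.t ?_ (some m) none (Φ.cl P Q) 0 ?_ ?_
  · intro p hp
    rw [List.mem_singleton] at hp
    rw [hp]
    exact ⟨h0, rfl⟩
  · intro π hπ
    rw [List.map_singleton, List.sum_singleton]
    exact Φ.spv_rd (h1 π hπ) (con_rd π Q)
  · intro π hπ
    rw [List.map_singleton, List.sum_singleton]
    exact Φ.spv_zero fun h3 => h2 π hπ h3.1

theorem cl_nodal_snd (P : Pt S k) (Q : Pt S' k) (h : Q.t S'.dl = 0) : Φ.cl P Q = 0 := cl_nodal_fst Φ.swp Q P h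

/-- if the first point specialises into a singular fibre then the class of the specialisation is `0` -/
theorem spv_dead (π : Place k (Om k)) (P : Pt S (Om k)) (Q : Pt S' (Om k)) {u : k} (hu : Rd π.V π.φ (P.t S.dl) u)
    (h : u = 0) : Φ.spv π (P, Q) = 0 := by
  rcases Φ.spv_cases π P Q with ⟨P₀, Q₀, hP, hQ, h1⟩ | h1
  · rw [h1]
    exact cl_nodal_fst Φ P₀ Q₀ (by rw [(hP.t S.dl).unique hu, h])
  · exact h1

end H90.QF
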