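import Pool.Agent.H90.QF.Indep
import Pool.Agent.H90.QF.Nodal
import Pool.Agent.H90.QE.Curve

/-! # QF.Pack : two families over the same affine line, pairs over the same base point, and the Fano variety (complete)

`a a' = q^4 A`, `b b' = q^6 B`, `D D' = q^12 E` with `deg A ≤ 4`, `deg B ≤ 6`, `deg E ≤ 12`.  A point `(σ; x, y, T)` of the Fano variety
`T^2 + T (x^3 - 48 A x + 864 B - y^2) + 256 E = 0` gives the point `mkw = (σ, σ; q^2 x, q^3 y, q^6 T)` of `W`. -/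

namespace H90.QF

open Polynomial H68.BB
open H90.QE (FF)

section fam
variable {k : Type} [Field k]

/-- the family `y^2 = x^3 + a(s) x + b(s)` over the affine line -/
noncomputable abbrev FL (a b : k[X]) : Fam k where
  R := k[X]
  a := a
  b := b

variable {F : Type} [Field F] [Algebra k F] {a b a' b' : k[X]}

theorem t_X (t : (FL a b).R →ₐ[k] F) : t = aeval (t X) := Polynomial.algHom_ext (by rw [aeval_X])

theorem dl_L : (FL a b).dl = 4 * a ^ 3 + 27 * b ^ 2 := rfl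

theorem rdB_L {π : Place k (Om k)} {σ : Om k} {σ₀ : k} (h : Rd π.V π.φ σ σ₀) :
    RdB π (R := (FL a b).R) (aeval σ) (aeval σ₀) := fun r => rd_aeval π h r

theorem bi_L {π : Place k (Om k)} {σ : Om k} (h : σ ∈ π.V) : BI π (R := (FL a b).R) (aeval σ) :=
  fun r => (rd_aeval π (Rd.of_mem (φ := π.φ) h) r).mem

/-- the point of `W` over `(σ, σ)` -/
noncomputable def mkw (a b a' b' q : k[X]) (σ x y T : F) : Wp (FL a b) (FL a' b') F :=
  ⟨aeval σ, aeval σ, aeval σ q ^ 2 * x, aeval σ q ^ 3 * y, aeval σ q ^ 6 * T⟩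

/-- the conditions on the forms -/
structure Dat (a b a' b' q A B E : k[X]) : Prop where
  hA : a * a' = q ^ 4 * A
  hB : b * b' = q ^ 6 * B
  hE : (4 * a ^ 3 + 27 * b ^ 2) * (4 * a' ^ 3 + 27 * b' ^ 2) = q ^ 12 * E
  dA : A.natDegree ≤ 4
  dB : B.natDegree ≤ 6
  dE : E.natDegree ≤ 12

variable {q A B E : k[X]} (hd : Dat a b a' b' q A B E)
include hd

theorem Dat.evA (σ : F) : aeval σ a * aeval σ a' = aeval σ q ^ 4 * aeval σ A := by
  rw [← map_mul, hd.hA, map_mul, map_pow]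

theorem Dat.evB (σ : F) : aeval σ b * aeval σ b' = aeval σ q ^ 6 * aeval σ B := by
  rw [← map_mul, hd.hB, map_mul, map_pow]

theorem Dat.evE (σ : F) : aeval σ (FL a b).dl * aeval σ (FL a' b').dl = aeval σ q ^ 12 * aeval σ E := by
  rw [dl_L, dl_L, ← map_mul, hd.hE, map_mul, map_pow]

theorem onW_mkw {σ x y T : F} (h : FF A B E σ x y T = 0) : OnW (mkw a b a' b' q σ x y T) := by
  have h1 := hd.evA σ
  have h2 := hd.evB σ
  have h3 := hd.evE σ
  unfold FF at h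
  unfold OnW DD mkw
  dsimp only
  linear_combination (aeval σ q) ^ 12 * h - 48 * aeval σ q ^ 8 * T * x * h1 + 864 * aeval σ q ^ 6 * T * h2 + 256 * h3

theorem FF_of_onW {σ x y T : F} (h : OnW (mkw a b a' b' q σ x y T)) (hq : aeval σ q ≠ 0) : FF A B E σ x y T = 0 := by
  have h1 := hd.evA σ
  have h2 := hd.evB σ
  have h3 := hd.evE σ
  unfold OnW DD mkw at h
  dsimp only at h
  have h4 : (aeval σ q) ^ 12 * FF A B E σ x y T = 0 := by
    unfold FF
    linear_combination h + 48 * aeval σ q ^ 8 * T * x * h1 - 864 * aeval σ q ^ 6 * T * h2 - 256 * h3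
  exact (mul_eq_zero.1 h4).resolve_left (pow_ne_zero 12 hq)

theorem q_ne {σ : F} (h1 : aeval σ (FL a b).dl ≠ 0) (h2 : aeval σ (FL a' b').dl ≠ 0) : aeval σ q ≠ 0 := by
  intro h0
  have h3 := hd.evE σ
  rw [h0, zero_pow (by norm_num), zero_mul] at h3
  exact mul_ne_zero h1 h2 h3

end fam

/-- every point of `W` over `(σ, σ)` is a point `mkw` if `q(σ) ≠ 0` -/
theorem mkw_surj {k : Type} [Field k] {F : Type} [Field F] [Algebra k F] {a b a' b' q : k[X]} (w : Wp (FL a b) (FL a' b') F)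
    (hts : w.t = w.s) (hq : aeval (w.t X) q ≠ 0) :
    w = mkw a b a' b' q (w.t X) (w.x / aeval (w.t X) q ^ 2) (w.y / aeval (w.t X) q ^ 3) (w.T / aeval (w.t X) q ^ 6) := by
  refine Wp.ext (t_X w.t) ?_ ?_ ?_ ?_
  · show w.s = aeval (w.t X)
    rw [← hts]
    exact t_X w.t
  · exact (mul_div_cancel₀ _ (pow_ne_zero 2 hq)).symm
  · exact (mul_div_cancel₀ _ (pow_ne_zero 3 hq)).symm
  · exact (mul_div_cancel₀ _ (pow_ne_zero 6 hq)).symm

variable {k : Type} [Field k] [IsAlgClosed k] [C23 k] {a b a' b' q A B E : k[X]} {G : Type} [AddCommGroup G]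
  (Φ : Fn (FL a b) (FL a' b') G)

/-- the coordinates specialise to the given ones -/
structure RdF (π : Place k (Om k)) (σ x y T : Om k) (σ₀ x₀ y₀ T₀ : k) : Prop where
  s : Rd π.V π.φ σ σ₀
  x : Rd π.V π.φ x x₀
  y : Rd π.V π.φ y y₀
  T : Rd π.V π.φ T T₀

omit [IsAlgClosed k] [C23 k] in
theorem RdF.w {π : Place k (Om k)} {σ x y T : Om k} {σ₀ x₀ y₀ T₀ : k} (h : RdF π σ x y T σ₀ x₀ y₀ T₀) :
    RdW π (mkw a b a' b' q σ x y T) (mkw a b a' b' q σ₀ x₀ y₀ T₀) := by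
  have hq := rd_aeval π h.s q
  exact ⟨rdB_L h.s, rdB_L h.s, (hq.pow 2).mul h.x, (hq.pow 3).mul h.y, (hq.pow 6).mul h.T⟩

theorem pack (hd : Dat a b a' b' q A B E) {σ₀ x₀ y₀ T₀ : k} (hw : Good (mkw a b a' b' q σ₀ x₀ y₀ T₀)) {σ x y T : Om k}
    (hF : FF A B E σ x y T = 0) {π₀ : Place k (Om k)} (h₀ : RdF π₀ σ x y T σ₀ x₀ y₀ T₀) :
    ∃ (P : Pt (FL a b) (Om k)) (Q : Pt (FL a' b') (Om k)), P.t = Q.t ∧
      (∀ π : Place k (Om k), σ ∈ π.V → BI2 π (P, Q)) ∧
      (∀ π : Place k (Om k), RdF π σ x y T σ₀ x₀ y₀ T₀ → Φ.spv π (P, Q) = CC Φ (mkw a b a' b' q σ₀ x₀ y₀ T₀)) ∧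
      (∀ (π : Place k (Om k)) (u : k), aeval u E = 0 → Rd π.V π.φ σ u → Φ.spv π (P, Q) = 0) := by
  have hon : OnW (mkw a b a' b' q σ x y T) := onW_mkw hd hF
  have hgood : Good (mkw a b a' b' q σ x y T) := good_of_rd h₀.w hw hon
  obtain ⟨θ, P, Q, hO⟩ := hgood.ex
  have hPt : P.t = aeval σ := hO.t
  have hQt : Q.t = aeval σ := hO.s
  refine ⟨P, Q, ?_, ?_, ?_, ?_⟩
  · rw [hPt, hQt]
  · intro π hπ
    refine ⟨?_, ?_⟩
    · show BI π P.t
      rw [hPt]
      exact bi_L hπ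
    · show BI π Q.t
      rw [hQt]
      exact bi_L hπ
  · intro π hπ
    exact spec_CC Φ hπ.w hw hO
  · intro π u hu h1
    have h2 := hd.evE u
    rw [hu, mul_zero] at h2
    rcases mul_eq_zero.1 h2 with h3 | h3
    · refine spv_dead Φ π P Q (u := aeval u (FL a b).dl) ?_ h3
      rw [hPt]
      exact rd_aeval π h1 _
    · have h4 := spv_dead Φ.swp π Q P (u := aeval u (FL a' b').dl) (by rw [hQt]; exact rd_aeval π h1 _) h3
      rcases Φ.spv_cases π P Q with ⟨P₀, Q₀, e1, e2, e3⟩ | e3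
      · rw [e3]
        have h5 := Φ.swp.spv_rd e2 e1
        rw [h4] at h5
        exact h5.symm
      · exact e3

end H90.QF
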