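import Pool.Agent.H90.QF.Spec
import Pool.Agent.H71.K3.Cof

/-! # QF.Ext : good pairs spread out (about 250 lines)

`GP.neg`: `over_mir` with `-θ` and `GG.mir`.  `GP.symm`: `over_swp`, `GG.dag`; `Q.y ≠ 0` because `P.y = θ^3 Q.y`.
PROOF of `GP.spread`. `P` fixed, `Q` a good partner, over `(w₀, θ₀)`; `Q.y ≠ 0`.  Take a place `π₀` over `Q.x`.  Over `Ω` let `η` be a square root of
`tt^3 + a_s tt + b_s` with `η ↦ Q.y` at `π₀` (`rd_sq`, change the sign), `U = (cst s, tt, η)`; let `θ ∈ Ω` be a cube root of `cst P.y / η` with `θ ↦ θ₀` at `π₀`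
(it reduces to a cube root of `P.y/Q.y = θ₀^3`; multiply by a cube root of unity of `k`).  Define `w` over `Ω` by `w.t = cst P.t`, `w.s = cst s`,
`w.T = -16 dl(s) θ^6`, `w.x = xh/θ^2`, `w.y = yh/θ^3` from the formulas of `Over` for `(P.con, U)`: `Over w θ P.con U`, so `OnW w` (`over_on`), and `w ↦ w₀` at
`π₀` (`RdW`; the relations of `Over w₀ θ₀ P Q` determine `w₀`).  So `GG w` by `gg_of_rd`.
Now choose a sixth root `θ' ∈ Ω` with `16 dl(t) θ'^6 = -w.T`.  The elements `η`, `θ`, `θ'`, `cst dl(t)`, `cst dl(s)`, `Disc w`, `Qd w (ε θ)`, `Qd w.swp (ε θ')` for the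
six `ε ∈ k` with `ε^6 = 1` are not zero.  By `cof` there is a finite set `B` such that at every place over `c ∉ B` they are integral with nonzero
reductions.  Let `R` be a point with `R.t = s`, `R.x = c ∉ B`.  Take a place `π` over `c`: `U ↦ R` or `R.neg` (`rd_sq`), say `R'`; `θ ↦ θ₁ ≠ 0`, and
`w ↦ w₁` (`w.T`, `w.x`, `w.y` are integral because `θ⁻¹` is), `Over w₁ θ₁ P R'`, `Disc w₁ ≠ 0`; every `ϑ ∈ k` with `16 dl(s) ϑ^6 = -w₁.T` is `ε θ₁` with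
`ε^6 = 1`, so `Qd w₁ ϑ` is the reduction of `Qd w (ε θ)` and is not `0`; the same for the swap.  So `GG w₁` and `GP P R'`, and
`GP P R` by `GP.neg`. -/

namespace H90.QF

open Polynomial H68.BB
open H71.K3 (cof)

variable {k : Type} [Field k] [IsAlgClosed k] [C23 k] {S S' : Fam k} {G : Type} [AddCommGroup G] (Φ : Fn S S' G)

/-- a good pair of points which are not 2-torsion points -/
def GP (P : Pt S k) (Q : Pt S' k) : Prop := P.y ≠ 0 ∧ ∃ (w : Wp S S' k) (θ : k), GG w ∧ Over w θ P Q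

theorem GP.neg {P : Pt S k} {Q : Pt S' k} (h : GP P Q) : GP P Q.neg := by
  obtain ⟨h0, w, θ, hw, hO⟩ := h
  refine ⟨h0, w.mir, -θ, hw.mir, over_mir ?_⟩
  rw [neg_neg]
  exact hO

private theorem ext_Qy {w : Wp S S' k} {θ : k} {P : Pt S k} {Q : Pt S' k} (h0 : P.y ≠ 0) (hO : Over w θ P Q) :
    Q.y ≠ 0 := by
  intro h
  apply h0
  rw [hO.y, h, mul_zero]

theorem GP.symm {P : Pt S k} {Q : Pt S' k} (h : GP P Q) : GP Q P := by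
  obtain ⟨h0, w, θ, hw, hO⟩ := h
  exact ⟨ext_Qy h0 hO, (w.inv).swp, θ⁻¹, hw.dag, over_swp hO hw.g.ds⟩

/-- the point of `W` below a pair of points -/
private noncomputable def mkW {F : Type} [Field F] [Algebra k F] (P : Pt S F) (Q : Pt S' F) (θ : F) : Wp S S' F where
  t := P.t
  s := Q.t
  x := (12 * (P.x ^ 2 + P.x * (θ ^ 2 * Q.x) + (θ ^ 2 * Q.x) ^ 2)
    + 4 * (P.t S.a + θ ^ 4 * Q.t S'.a)) / θ ^ 2
  y := (12 * (3 * (P.x + θ ^ 2 * Q.x) * (P.x ^ 2 + P.x * (θ ^ 2 * Q.x) + (θ ^ 2 * Q.x) ^ 2)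
    + P.t S.a * (P.x + 2 * (θ ^ 2 * Q.x)) + θ ^ 4 * Q.t S'.a * (2 * P.x + θ ^ 2 * Q.x))) / θ ^ 3
  T := -(16 * Q.t S'.dl * θ ^ 6)

omit [IsAlgClosed k] [C23 k] in
private theorem mkW_over {F : Type} [Field F] [Algebra k F] {P : Pt S F} {Q : Pt S' F} {θ : F} (h0 : θ ≠ 0)
    (hy : P.y = θ ^ 3 * Q.y) : Over (mkW P Q θ) θ P Q where
  t := rfl
  s := rfl
  th := h0
  y := hy
  T := by
    show 16 * Q.t S'.dl * θ ^ 6 = - -(16 * Q.t S'.dl * θ ^ 6)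
    rw [neg_neg]
  e1 := by
    show θ ^ 2 * (_ / θ ^ 2) = _
    rw [mul_div_cancel₀ _ (pow_ne_zero 2 h0)]
    rfl
  e2 := by
    show θ ^ 3 * (_ / θ ^ 3) = _
    rw [mul_div_cancel₀ _ (pow_ne_zero 3 h0)]
    rfl

omit [IsAlgClosed k] [C23 k] in
private theorem mkW_eq {F : Type} [Field F] [Algebra k F] {P : Pt S F} {Q : Pt S' F} {w : Wp S S' F} {θ : F}
    (h : Over w θ P Q) : mkW P Q θ = w := by
  have h2 := pow_ne_zero 2 h.th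
  have h3 := pow_ne_zero 3 h.th
  have e1 := h.e1
  have e2 := h.e2
  have e3 := h.T
  rw [← h.t, ← h.s] at e1 e2
  rw [← h.s] at e3
  refine Wp.ext h.t h.s ?_ ?_ ?_
  · show _ / θ ^ 2 = w.x
    rw [div_eq_iff h2, ← e1, mul_comm]
  · show _ / θ ^ 3 = w.y
    rw [div_eq_iff h3, ← e2, mul_comm]
  · show -(16 * Q.t S'.dl * θ ^ 6) = w.T
    rw [e3, neg_neg]

omit [IsAlgClosed k] [C23 k] in
private theorem mkW_rd {π : Place k (Om k)} {P : Pt S (Om k)} {Q : Pt S' (Om k)} {P₀ : Pt S k} {Q₀ : Pt S' k} {θ : Om k}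
    {θ₀ : k} (hP : RdP π P P₀) (hQ : RdP π Q Q₀) (hθ : Rd π.V π.φ θ θ₀) (h0 : θ₀ ≠ 0) :
    RdW π (mkW P Q θ) (mkW P₀ Q₀ θ₀) := by
  haveI := π.isLocal
  have r12 : Rd π.V π.φ (12 : Om k) (12 : k) := rd_ofNat π 12
  have r16 : Rd π.V π.φ (16 : Om k) (16 : k) := rd_ofNat π 16
  have r4 : Rd π.V π.φ (4 : Om k) (4 : k) := rd_ofNat π 4
  have r3 : Rd π.V π.φ (3 : Om k) (3 : k) := rd_ofNat π 3
  have r2 : Rd π.V π.φ (2 : Om k) (2 : k) := rd_ofNat π 2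
  have hA := hP.t S.a
  have hA' := hQ.t S'.a
  have hD := hQ.t S'.dl
  have hX' : Rd π.V π.φ (θ ^ 2 * Q.x) (θ₀ ^ 2 * Q₀.x) := (hθ.pow 2).mul hQ.x
  have hN : Rd π.V π.φ (P.x ^ 2 + P.x * (θ ^ 2 * Q.x) + (θ ^ 2 * Q.x) ^ 2)
      (P₀.x ^ 2 + P₀.x * (θ₀ ^ 2 * Q₀.x) + (θ₀ ^ 2 * Q₀.x) ^ 2) :=
    ((hP.x.pow 2).add (hP.x.mul hX')).add (hX'.pow 2)
  refine ⟨hP.t, hQ.t, ?_, ?_, ?_⟩
  · exact ((r12.mul hN).add (r4.mul (hA.add ((hθ.pow 4).mul hA')))).div (hθ.pow 2)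
      (pow_ne_zero 2 h0)
  · exact (r12.mul ((((r3.mul (hP.x.add hX')).mul hN).add
      (hA.mul (hP.x.add (r2.mul hX')))).add (((hθ.pow 4).mul hA').mul
        ((r2.mul hP.x).add hX')))).div (hθ.pow 3) (pow_ne_zero 3 h0)
  · exact ((r16.mul hD).mul (hθ.pow 6)).neg

omit [C23 k] in
private theorem cof_list (L : List (Om k)) : (∀ z ∈ L, z ≠ 0) → ∃ B : Finset k, ∀ c : k, c ∉ B →
    ∀ π : Place k (Om k), OverPl π (some c) → ∀ z ∈ L, ∃ z₀ : k, z₀ ≠ 0 ∧ Rd π.V π.φ z z₀ := by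
  classical
  induction L with
  | nil => intro _; exact ⟨∅, fun c _ π _ z hz => absurd hz (by simp)⟩
  | cons y L ih =>
    intro h
    obtain ⟨B₁, h₁⟩ := ih (fun z hz => h z (List.mem_cons_of_mem _ hz))
    obtain ⟨B₂, h₂⟩ := cof (h y (List.mem_cons_self))
    refine ⟨B₁ ∪ B₂, fun c hc π hπ z hz => ?_⟩
    rw [Finset.mem_union, not_or] at hc
    rcases List.mem_cons.1 hz with rfl | hz
    · exact h₂ c hc.2 π hπ
    · exact h₁ c hc.1 π hπ z hz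

omit [IsAlgClosed k] in
private theorem good_red {π : Place k (Om k)} {w : Wp S S' (Om k)} {w₁ : Wp S S' k} (hw : RdW π w w₁)
    {θ : Om k} {θ₁ : k} (hθ : Rd π.V π.φ θ θ₁) (h1 : θ₁ ≠ 0)
    (hT : 16 * w.s S'.dl * θ ^ 6 = -w.T)
    (hon : OnW w₁) (dt : w₁.t S.dl ≠ 0) (ds : w₁.s S'.dl ≠ 0)
    (hrd : ∀ ε : k, Rd π.V π.φ (Qd w (cst ε * θ)) (Qd w₁ (ε * θ₁)))
    (hq : ∀ ε : k, ε ^ 6 = 1 → ∃ z₀ : k, z₀ ≠ 0 ∧ Rd π.V π.φ (Qd w (cst ε * θ)) z₀) :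
    Good w₁ := by
  refine ⟨hon, dt, ds, fun ϑ hϑ => ?_⟩
  have r16 : Rd π.V π.φ (16 : Om k) (16 : k) := rd_ofNat π 16
  have e1 : Rd π.V π.φ (16 * w.s S'.dl * θ ^ 6) (16 * w₁.s S'.dl * θ₁ ^ 6) :=
    (r16.mul (hw.s S'.dl)).mul (hθ.pow 6)
  rw [hT] at e1
  have e2 : 16 * w₁.s S'.dl * θ₁ ^ 6 = -w₁.T := e1.unique hw.T.neg
  have e3 : ϑ ^ 6 = θ₁ ^ 6 := by
    have h16 : (16 : k) * w₁.s S'.dl ≠ 0 := mul_ne_zero (n16 k) ds
    apply mul_left_cancel₀ h16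
    rw [hϑ, e2]
  have e4 : (ϑ / θ₁) ^ 6 = 1 := by
    rw [div_pow, e3, div_self (pow_ne_zero 6 h1)]
  obtain ⟨z₀, hz, hz'⟩ := hq _ e4
  have e5 := (hrd (ϑ / θ₁)).unique hz'
  rw [div_mul_cancel₀ _ h1] at e5
  rw [e5]
  exact hz

private theorem ext_cst6 {ε : k} (h : ε ^ 6 = 1) (z : Om k) : (cst ε * z) ^ 6 = z ^ 6 := by
  rw [mul_pow, ← map_pow, h, map_one, one_mul]

theorem GP.spread {P : Pt S k} {Q : Pt S' k} (h : GP P Q) :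
    ∃ B : Finset k, ∀ R : Pt S' k, R.t = Q.t → R.x ∉ B → GP P R := by
  obtain ⟨hPy, w₀, θ₀, hw₀, hO₀⟩ := h
  have hQy : Q.y ≠ 0 := ext_Qy hPy hO₀
  obtain ⟨π₀, hπ₀⟩ := place_over (some Q.x)
  haveI := π₀.isLocal
  have hπ₀' : Rd π₀.V π₀.φ (tt k) Q.x := hπ₀
  obtain ⟨η', hη'⟩ := IsAlgClosed.exists_pow_nat_eq
    (tt k ^ 3 + cstB Q.t S'.a * tt k + cstB Q.t S'.b) two_pos
  have h1 : Rd π₀.V π₀.φ (η' ^ 2) (Q.y ^ 2) := by
    rw [hη', Q.eq]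
    exact ((hπ₀'.pow 3).add ((RdB.cst π₀ Q.t S'.a).mul hπ₀')).add
      (RdB.cst π₀ Q.t S'.b)
  obtain ⟨η, hη, hηQ⟩ : ∃ η : Om k, η ^ 2 = tt k ^ 3 + cstB Q.t S'.a * tt k + cstB Q.t S'.b ∧
      Rd π₀.V π₀.φ η Q.y := by
    rcases rd_sq π₀ h1 with h2 | h2
    · exact ⟨η', hη', h2⟩
    · refine ⟨-η', by rw [neg_sq]; exact hη', ?_⟩
      have := h2.neg
      rwa [neg_neg] at this
  clear h1 hη' η'
  have hη0 : η ≠ 0 := hηQ.ne_zero hQy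
  obtain ⟨U, hUt, hUx, hUy⟩ : ∃ U : Pt S' (Om k), U.t = cstB Q.t ∧ U.x = tt k ∧ U.y = η :=
    ⟨⟨cstB Q.t, tt k, η, hη⟩, rfl, rfl, rfl⟩
  -- the cube root
  obtain ⟨θ', hθ'⟩ := IsAlgClosed.exists_pow_nat_eq (cst P.y / η) (show 0 < 3 by norm_num)
  have h3 : Rd π₀.V π₀.φ (θ' ^ 3) (θ₀ ^ 3) := by
    rw [hθ']
    have h4 : θ₀ ^ 3 = P.y / Q.y := by
      rw [hO₀.y, mul_div_assoc, div_self hQy, mul_one]
    rw [h4]
    exact Rd.div (π₀.const _) hηQ hQy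
  obtain ⟨θ₁, hθ₁, hθ₁'⟩ := rd_pow_root π₀ (by norm_num) h3
  have hθ₁0 : θ₁ ≠ 0 := by
    rintro rfl
    apply pow_ne_zero 3 hO₀.th
    rw [← hθ₁']
    norm_num
  obtain ⟨θ, hθ, hθP⟩ : ∃ θ : Om k, Rd π₀.V π₀.φ θ θ₀ ∧ cst P.y = θ ^ 3 * η := by
    refine ⟨cst (θ₀ / θ₁) * θ', ?_, ?_⟩
    · have h5 : Rd π₀.V π₀.φ (cst (θ₀ / θ₁) * θ') (θ₀ / θ₁ * θ₁) := Rd.mul (π₀.const _) hθ₁
      rwa [div_mul_cancel₀ _ hθ₁0] at h5
    · have h6 : (θ₀ / θ₁) ^ 3 = 1 := by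
        rw [div_pow, hθ₁', div_self (pow_ne_zero 3 hO₀.th)]
      rw [mul_pow, ← map_pow, h6, map_one, one_mul, hθ', div_mul_cancel₀ _ hη0]
  clear h3 hθ' hθ₁ hθ₁' hθ₁0
  have hθ0 : θ ≠ 0 := hθ.ne_zero hO₀.th
  have hU₀ : RdP π₀ U Q := ⟨by rw [hUt]; exact RdB.cst π₀ _, by rw [hUx]; exact hπ₀', by rw [hUy]; exact hηQ⟩
  obtain ⟨w, hwdef⟩ : ∃ w, w = mkW P.con U θ := ⟨_, rfl⟩
  have hO : Over w θ P.con U := by
    rw [hwdef]
    refine mkW_over hθ0 ?_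
    rw [con_y, hUy]
    exact hθP
  have hrd₀ : RdW π₀ w w₀ := by
    have h7 := mkW_rd (con_rd π₀ P) hU₀ hθ hO₀.th
    rw [mkW_eq hO₀, ← hwdef] at h7
    exact h7
  have hG : GG w := gg_of_rd hrd₀ hw₀ (over_on hO)
  obtain ⟨ϑ, hϑ0, hϑ⟩ := hG.g'.theta
  -- the finite set
  have hroots : ∀ ε ∈ (nthRoots 6 (1 : k)).toList, ε ^ 6 = 1 := by
    intro ε hε
    rw [Multiset.mem_toList, mem_nthRoots (by norm_num)] at hε
    exact hε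
  obtain ⟨B, hB⟩ := cof_list ([θ, ϑ, Disc w] ++
      ((nthRoots 6 (1 : k)).toList.map (fun ε => Qd w (cst ε * θ)) ++
        (nthRoots 6 (1 : k)).toList.map (fun ε => Qd w.swp (cst ε * ϑ)))) (by
    intro z hz
    rw [List.mem_append, List.mem_append, List.mem_map, List.mem_map] at hz
    rcases hz with hz | ⟨ε, hε, rfl⟩ | ⟨ε, hε, rfl⟩
    · simp only [List.mem_cons, List.not_mem_nil, or_false] at hz
      rcases hz with rfl | rfl | rfl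
      · exact hθ0
      · exact hϑ0
      · exact hG.disc
    · exact hG.g.qd _ (by rw [ext_cst6 (hroots ε hε)]; exact hO.T)
    · exact hG.g'.qd _ (by rw [ext_cst6 (hroots ε hε)]; exact hϑ))
  refine ⟨B, fun R hRt hRx => ?_⟩
  obtain ⟨π, hπ⟩ := place_over (some R.x)
  haveI := π.isLocal
  have hπ' : Rd π.V π.φ (tt k) R.x := hπ
  have hL := hB R.x hRx π hπ
  have hη2 : Rd π.V π.φ (η ^ 2) (R.y ^ 2) := by
    rw [hη, R.eq, hRt]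
    exact ((hπ'.pow 3).add ((RdB.cst π Q.t S'.a).mul hπ')).add
      (RdB.cst π Q.t S'.b)
  obtain ⟨R', hR', hUR⟩ : ∃ R' : Pt S' k, (R' = R ∨ R' = R.neg) ∧ RdP π U R' := by
    rcases rd_sq π hη2 with h2 | h2
    · exact ⟨R, Or.inl rfl, by rw [hUt, hRt]; exact RdB.cst π _, by rw [hUx]; exact hπ', by rw [hUy]; exact h2⟩
    · refine ⟨R.neg, Or.inr rfl, ?_, by rw [hUx]; exact hπ', by rw [hUy]; exact h2⟩
      show RdB π U.t R.t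
      rw [hUt, hRt]
      exact RdB.cst π _
  have hgoal : GP P R' := by
    obtain ⟨θ₂, hθ₂0, hθ₂⟩ := hL θ (by simp)
    obtain ⟨ϑ₂, hϑ₂0, hϑ₂⟩ := hL ϑ (by simp)
    obtain ⟨d₂, hd₂0, hd₂⟩ := hL (Disc w) (by simp)
    have hPy' : P.y = θ₂ ^ 3 * R'.y := by
      have h8 : Rd π.V π.φ (θ ^ 3 * U.y) (θ₂ ^ 3 * R'.y) := (hθ₂.pow 3).mul hUR.y
      rw [hUy, ← hθP] at h8
      exact Rd.unique (π.const _) h8
    obtain ⟨w₁, hw₁⟩ : ∃ w₁, w₁ = mkW P R' θ₂ := ⟨_, rfl⟩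
    have hO₁ : Over w₁ θ₂ P R' := by
      rw [hw₁]
      exact mkW_over hθ₂0 hPy'
    have hrd : RdW π w w₁ := by
      have h7 := mkW_rd (con_rd π P) hUR hθ₂ hθ₂0
      rw [← hwdef, ← hw₁] at h7
      exact h7
    have hR't : R'.t = Q.t := by
      rcases hR' with rfl | rfl
      · exact hRt
      · exact hRt
    have hdt : w₁.t S.dl ≠ 0 := by
      rw [← hO₁.t, hO₀.t]
      exact hw₀.g.dt
    have hds : w₁.s S'.dl ≠ 0 := by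
      rw [← hO₁.s, hR't, hO₀.s]
      exact hw₀.g.ds
    have hon : OnW w₁ := over_on hO₁
    have hon' : OnW w₁.swp := by
      have h9 : OnW w₁ := hon
      unfold OnW DD at h9 ⊢
      show w₁.T ^ 2 + w₁.T * (w₁.x ^ 3 - 48 * w₁.s S'.a * w₁.t S.a * w₁.x
        + 864 * w₁.s S'.b * w₁.t S.b - w₁.y ^ 2) +
        256 * w₁.s S'.dl * w₁.t S.dl = 0
      linear_combination h9
    refine ⟨hPy, w₁, θ₂, ⟨?_, ?_, ?_⟩, hO₁⟩
    · refine good_red hrd hθ₂ hθ₂0 hO.T hon hdt hds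
        (fun ε => rd_qd hrd (Rd.mul (π.const _) hθ₂)) (fun ε hε => ?_)
      refine hL _ ?_
      rw [List.mem_append, List.mem_append]
      refine Or.inr (Or.inl (List.mem_map.2 ⟨ε, ?_, rfl⟩))
      rw [Multiset.mem_toList, mem_nthRoots (by norm_num)]
      exact hε
    · refine good_red hrd.swp hϑ₂ hϑ₂0 hϑ hon' hds hdt
        (fun ε => rd_qd hrd.swp (Rd.mul (π.const _) hϑ₂)) (fun ε hε => ?_)
      refine hL _ ?_
      rw [List.mem_append, List.mem_append]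
      refine Or.inr (Or.inr (List.mem_map.2 ⟨ε, ?_, rfl⟩))
      rw [Multiset.mem_toList, mem_nthRoots (by norm_num)]
      exact hε
    · rw [(rd_disc hrd).unique hd₂]
      exact hd₂0
  rcases hR' with h10 | h10
  · rw [← h10]
    exact hgoal
  · rw [h10] at hgoal
    have h11 := hgoal.neg
    have h12 : R.neg.neg = R := by
      refine Pt.ext rfl rfl ?_
      show - -R.y = R.y
      rw [neg_neg]
    rwa [h12] at h11

end H90.QF
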