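import Pool.Agent.H90.QF.Alg

/-! # QF.GoodPair : over every pair of smooth fibres there is a good pair of points (about 200 lines)

PROOF. `t`, `s` given, `D = 256 dl(t) dl(s) ≠ 0`.
(1) `Disc` as a polynomial in `T` is `4 (...)^3 T^2 + 27 (T^2 + 864 b_t b_s T + D)^2`, of degree `4` with leading coefficient `27`, so there is
`T ≠ 0` with `Disc ≠ 0` (infinite field).  Put `T' = D/T`.
(2) Finite sets: `Θ` = the `θ` with `16 dl(s) θ^6 = -T`, `Θ'` = the `θ` with `16 dl(t) θ^6 = -T` (for the swap); all `θ ≠ 0`.  For `θ ∈ Θ` the polynomial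
`Qd` in `x` is quadratic with leading coefficient `θ^4 ≠ 0`; the same for `w.swp` and `Θ'`.  So there is `x` outside a finite set with
all these `Qd ≠ 0`, and moreover outside the finite set of the values `θ^(-2) (12 (e^2 + e θ^2 e' + (θ^2 e')^2) + 4 (a_t + θ^4 a_s))`, `θ ∈ Θ`, `e` a root
of `X^3 + a_t X + b_t`, `e'` a root of `X^3 + a_s X + b_s`.
(3) `y` with `T y^2 = T^2 + T (x^3 - 48 a_t a_s x + 864 b_t b_s) + D`: `w = (t, s, x, y, T)` satisfies `OnW`, `GG`.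
(4) `over_exists` (`Good.theta`) gives `(P, Q)` over `(w, θ)`, `θ ∈ Θ`.  If `P.y = 0` then `Q.y = 0` (`Over.y`), so `P.x`, `Q.x` are such roots `e`, `e'`
and `Over.e1` contradicts the choice of `x`. -/

namespace H90.QF

open Polynomial

variable {k : Type} [Field k] [IsAlgClosed k] [C23 k] {S S' : Fam k} {G : Type} [AddCommGroup G] (Φ : Fn S S' G)

omit [IsAlgClosed k] [C23 k] in
private theorem fin_of_ne {q : k[X]} (hq : q ≠ 0) (S : Set k) (hS : ∀ x ∈ S, q.eval x = 0) :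
    S.Finite :=
  (Polynomial.finite_setOfPred_isRoot hq).subset fun x hx => hS x hx

omit [IsAlgClosed k] [C23 k] in
private theorem fin_quad (u v c : k) (hu : u ≠ 0) : {x : k | u * x ^ 2 + v * x + c = 0}.Finite := by
  have hq : (C u * X ^ 2 + C v * X + C c : k[X]) ≠ 0 := by
    intro h
    have h2 := congrArg (fun q : k[X] => q.coeff 2) h
    simp at h2
    exact hu h2
  refine fin_of_ne hq _ ?_
  intro x hx
  simpa using hx

omit [IsAlgClosed k] [C23 k] in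
private theorem fin_cub (u v : k) : {x : k | x ^ 3 + u * x + v = 0}.Finite := by
  have hq : (X ^ 3 + C u * X + C v : k[X]) ≠ 0 := by
    intro h
    have h2 := congrArg (fun q : k[X] => q.coeff 3) h
    simp at h2
  refine fin_of_ne hq _ ?_
  intro x hx
  simpa using hx

omit [IsAlgClosed k] [C23 k] in
private theorem fin_six (u v : k) (hu : u ≠ 0) : {x : k | u * x ^ 6 = -v}.Finite := by
  have hq : (C u * X ^ 6 + C v : k[X]) ≠ 0 := by
    intro h
    have h2 := congrArg (fun q : k[X] => q.coeff 6) h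
    simp at h2
    exact hu h2
  refine fin_of_ne hq _ ?_
  intro x hx
  have hx' : u * x ^ 6 = -v := hx
  simp [hx']

omit [IsAlgClosed k] [C23 k] in
private theorem fin_lin (u v : k) (hu : u ≠ 0) : {x : k | u * x = v}.Finite := by
  refine (Set.finite_singleton (v / u)).subset ?_
  intro x hx
  have hx' : u * x = v := hx
  rw [Set.mem_singleton_iff, ← hx', mul_div_cancel_left₀ _ hu]

omit [IsAlgClosed k] [C23 k] in
private theorem th_ne {u v θ : k} (hv : v ≠ 0) (h : u * θ ^ 6 = -v) : θ ≠ 0 := by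
  rintro rfl
  apply hv
  have : -v = 0 := by rw [← h]; ring
  exact neg_eq_zero.1 this

theorem good_pair {t : S.R →ₐ[k] k} {s : S'.R →ₐ[k] k} (ht : t S.dl ≠ 0) (hs : s S'.dl ≠ 0) :
    ∃ (w : Wp S S' k) (θ : k) (P : Pt S k) (Q : Pt S' k), w.t = t ∧ w.s = s ∧ GG w ∧ Over w θ P Q ∧ P.y ≠ 0 := by
  have hinf : Infinite k := IsAlgClosed.instInfinite
  have h256 : (256 : k) ≠ 0 := n256 k
  have h27 : (27 : k) ≠ 0 := n27 k
  have h16 : (16 : k) ≠ 0 := n16 k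
  obtain ⟨Dt, hDt⟩ : ∃ z, z = t S.dl := ⟨_, rfl⟩
  obtain ⟨Ds, hDs⟩ : ∃ z, z = s S'.dl := ⟨_, rfl⟩
  obtain ⟨At, hAt⟩ : ∃ z, z = t S.a := ⟨_, rfl⟩
  obtain ⟨As, hAs⟩ : ∃ z, z = s S'.a := ⟨_, rfl⟩
  obtain ⟨Bt, hBt⟩ : ∃ z, z = t S.b := ⟨_, rfl⟩
  obtain ⟨Bs, hBs⟩ : ∃ z, z = s S'.b := ⟨_, rfl⟩
  rw [← hDt] at ht
  rw [← hDs] at hs
  have hD : 256 * Dt * Ds ≠ 0 := mul_ne_zero (mul_ne_zero h256 ht) hs
  -- the choice of `T`
  obtain ⟨T, hT0, hT1⟩ : ∃ T : k, T ≠ 0 ∧ 4 * (-48 * At * As) ^ 3 * T ^ 2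
      + 27 * (864 * Bt * Bs * T + T ^ 2 + 256 * Dt * Ds) ^ 2 ≠ 0 := by
    let q : k[X] := C (4 * (-48 * At * As) ^ 3) * X ^ 2
      + C 27 * (C (864 * Bt * Bs) * X + X ^ 2 + C (256 * Dt * Ds)) ^ 2
    have hq : q ≠ 0 := by
      intro h
      have h2 := congrArg (fun r : k[X] => r.eval 0) h
      simp only [q, eval_add, eval_mul, eval_pow, eval_C, eval_X, eval_zero, mul_zero, zero_add, ne_eq, OfNat.ofNat_ne_zero,
        not_false_eq_true, zero_pow] at h2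
      exact mul_ne_zero h27 (pow_ne_zero 2 hD) h2
    have hXq : X * q ≠ 0 := mul_ne_zero X_ne_zero hq
    obtain ⟨T, hT⟩ := (Polynomial.finite_setOfPred_isRoot hXq).infinite_compl.nonempty
    have hT' : T * q.eval T ≠ 0 := by
      intro h
      apply hT
      show (X * q).eval T = 0
      simpa using h
    refine ⟨T, left_ne_zero_of_mul hT', ?_⟩
    have h3 := right_ne_zero_of_mul hT'
    simpa [q] using h3
  -- the finite sets
  have hF1 : {θ : k | 16 * Ds * θ ^ 6 = -T}.Finite := fin_six _ _ (mul_ne_zero h16 hs)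
  have hF2 : {θ : k | 16 * Dt * θ ^ 6 = -T}.Finite := fin_six _ _ (mul_ne_zero h16 ht)
  have hE1 : {e : k | e ^ 3 + At * e + Bt = 0}.Finite := fin_cub _ _
  have hE2 : {e : k | e ^ 3 + As * e + Bs = 0}.Finite := fin_cub _ _
  have hB1 : (⋃ θ ∈ {θ : k | 16 * Ds * θ ^ 6 = -T}, {x : k | θ ^ 4 * x ^ 2
      + 4 * (At + θ ^ 4 * As) * θ ^ 2 * x
      + 16 * (At ^ 2 - At * (θ ^ 4 * As) + (θ ^ 4 * As) ^ 2) = 0}).Finite := by
    refine hF1.biUnion fun θ hθ => fin_quad _ _ _ (pow_ne_zero 4 (th_ne hT0 hθ))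
  have hB2 : (⋃ θ ∈ {θ : k | 16 * Dt * θ ^ 6 = -T}, {x : k | θ ^ 4 * x ^ 2
      + 4 * (As + θ ^ 4 * At) * θ ^ 2 * x
      + 16 * (As ^ 2 - As * (θ ^ 4 * At) + (θ ^ 4 * At) ^ 2) = 0}).Finite := by
    refine hF2.biUnion fun θ hθ => fin_quad _ _ _ (pow_ne_zero 4 (th_ne hT0 hθ))
  have hB3 : (⋃ θ ∈ {θ : k | 16 * Ds * θ ^ 6 = -T}, ⋃ e ∈ {e : k | e ^ 3 + At * e + Bt = 0},
      ⋃ e' ∈ {e : k | e ^ 3 + As * e + Bs = 0}, {x : k | θ ^ 2 * x =
        12 * (e ^ 2 + e * (θ ^ 2 * e') + (θ ^ 2 * e') ^ 2) + 4 * (At + θ ^ 4 * As)}).Finite := by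
    refine hF1.biUnion fun θ hθ => hE1.biUnion fun e _ => hE2.biUnion fun e' _ => ?_
    exact fin_lin _ _ (pow_ne_zero 2 (th_ne hT0 hθ))
  obtain ⟨x, hx⟩ := ((hB1.union hB2).union hB3).infinite_compl.nonempty
  simp only [Set.mem_compl_iff, Set.mem_union, not_or, Set.mem_iUnion, not_exists,
    Set.mem_ofPred_eq] at hx
  obtain ⟨⟨hx1, hx2⟩, hx3⟩ := hx
  -- the choice of `y`
  obtain ⟨y, hy⟩ : ∃ y : k, y ^ 2 = (T ^ 2 + T * (x ^ 3 - 48 * At * As * x + 864 * Bt * Bs)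
      + 256 * Dt * Ds) / T := IsAlgClosed.exists_pow_nat_eq _ (by norm_num)
  have hy' : T * y ^ 2 = T ^ 2 + T * (x ^ 3 - 48 * At * As * x + 864 * Bt * Bs)
      + 256 * Dt * Ds := by rw [hy, mul_div_cancel₀ _ hT0]
  obtain ⟨w, hw⟩ : ∃ w : Wp S S' k, w = ⟨t, s, x, y, T⟩ := ⟨_, rfl⟩
  have hg : Good w := by
    subst hw
    refine ⟨?_, ?_, ?_, ?_⟩
    · simp only [OnW, DD, ← hDt, ← hDs, ← hAt, ← hAs, ← hBt, ← hBs]
      linear_combination -hy'
    · simpa only [← hDt] using ht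
    · simpa only [← hDs] using hs
    · intro θ hθ h
      simp only [← hDs] at hθ
      simp only [Qd, ← hAt, ← hAs] at h
      apply hx1 θ hθ
      linear_combination h
  have hg' : Good w.swp := by
    subst hw
    refine ⟨?_, ?_, ?_, ?_⟩
    · simp only [OnW, DD, Wp.swp, ← hDt, ← hDs, ← hAt, ← hAs, ← hBt, ← hBs]
      linear_combination -hy'
    · simpa only [Wp.swp, ← hDs] using hs
    · simpa only [Wp.swp, ← hDt] using ht
    · intro θ hθ h
      simp only [Wp.swp, ← hDt] at hθ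
      simp only [Wp.swp, Qd, ← hAt, ← hAs] at h
      apply hx2 θ hθ
      linear_combination h
  have hdisc : Disc w ≠ 0 := by
    subst hw
    simp only [Disc, DD, ← hDt, ← hDs, ← hAt, ← hAs, ← hBt, ← hBs]
    exact hT1
  obtain ⟨θ, P, Q, hO⟩ := hg.ex
  refine ⟨w, θ, P, Q, by rw [hw], by rw [hw], ⟨hg, hg', hdisc⟩, hO, ?_⟩
  intro hPy
  have hQy : Q.y = 0 := by
    have h := hO.y
    rw [hPy] at h
    rcases mul_eq_zero.1 h.symm with h1 | h1
    · exact absurd h1 (pow_ne_zero 3 hO.th)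
    · exact h1
  have hPt : P.t = t := by rw [hO.t, hw]
  have hQt : Q.t = s := by rw [hO.s, hw]
  have hPe := P.eq
  have hQe := Q.eq
  rw [hPy, hPt, ← hAt, ← hBt] at hPe
  rw [hQy, hQt, ← hAs, ← hBs] at hQe
  have hth := hO.T
  have he1 := hO.e1
  subst hw
  simp only [← hDs] at hth
  simp only [← hAt, ← hAs] at he1
  refine hx3 θ hth P.x ?_ Q.x ?_ he1
  · rw [← hPe]; ring
  · rw [← hQe]; ring

end H90.QF
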