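import Pool.Agent.H90.QF.R1

/-! # QF.Line : two points of the cubic on a line in an asymptotic direction (about 200 lines)

Put `t = P.t`, `s = Q.t`, `A = a(t)`, `B = b(t)`, `A' = a(s)`, `B' = b(s)`, `μ₀ = P.x - ζ Q.x`.  All four points satisfy
`y₁^2 = x₁^3 + A x₁ + B = ζ^3 (x₂^3 + A' x₂ + B')` (as `ρ^2 = ζ^3`).  On the line `x₁ = ζ x₂ + μ` this equation is the quadratic
(E) `3 ζ^2 μ x₂^2 + (3 ζ μ^2 + A ζ - A' ζ^3) x₂ + (μ^3 + A μ + B - ζ^3 B') = 0`.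
PROOF of `line`. Over `Ω` with `μ = tt`: let `r₁, r₂` be the two roots of (E) (`exists_quad` with sum and product divided by `3 ζ^2 tt`),
`q_i = ζ r_i + tt`, `η_i` a square root of `q_i^3 + A q_i + B`, `U_i = (t, q_i, η_i)`, `U'_i = (s, r_i, η_i/ρ)` (a point of the surface by (E)).
`L = [(U₁, U'₁), (U₂, U'₂)]`.  At a place over `μ₀ ≠ 0`: the sum and the product of `r₁, r₂` reduce to those for `μ₀`, which are
`Q.x + Q'.x` (hypothesis `hsum`, divided by `3 μ₀ ζ`) and `Q.x * Q'.x` (because `Q.x` is a root of (E) for `μ₀`), so `rd_quad`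
gives `(r₁, r₂) ↦ (Q.x, Q'.x)` or `(Q'.x, Q.x)`; then `q_i ↦ P.x` or `P'.x`, `η_i^2 ↦ P.y^2` or `P'.y^2`, `η_i ↦ ±` (`rd_sq`), and
`(U_i, U'_i)` specialises to `(P, Q)` or `(P.neg, Q.neg)` (or the same with primes), with the class `Φ.cl P Q` (`cl_neg_neg`).
At a place over infinity: if `U_i` and `U'_i` are integral then `tt = q_i - ζ r_i` is integral, contradiction; so the sum is `0`.
`kk` with `u = some μ₀`, `u' = none`. -/

namespace H90.QF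

open Polynomial H68.BB

variable {k : Type} [Field k] [IsAlgClosed k] [C23 k] {S S' : Fam k} {G : Type} [AddCommGroup G] (Φ : Fn S S' G)

/-- the pair of points over a root of the quadratic equation -/
private theorem line_pt {t : S.R →ₐ[k] k} {s : S'.R →ₐ[k] k} {ρ ζ : k} (hζ : ζ ^ 3 = ρ ^ 2) {τ r : Om k}
    (hE : (cst ζ * r + τ) ^ 3 + cstB t S.a * (cst ζ * r + τ) + cstB t S.b =
      cst ζ ^ 3 * (r ^ 3 + cstB s S'.a * r + cstB s S'.b)) :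
    ∃ (U : Pt S (Om k)) (U' : Pt S' (Om k)), U.t = cstB t ∧ U.x = cst ζ * U'.x + τ ∧ U'.t = cstB s ∧ U'.x = r ∧
      U.y = cst ρ * U'.y := by
  obtain ⟨η, hη⟩ := IsAlgClosed.exists_pow_nat_eq
    (r ^ 3 + cstB s S'.a * r + cstB s S'.b) (show 0 < 2 by norm_num)
  refine ⟨⟨cstB t, cst ζ * r + τ, cst ρ * η, ?_⟩, ⟨cstB s, r, η, hη⟩, rfl, rfl, rfl, rfl, rfl⟩
  have h1 : (cst ζ : Om k) ^ 3 = cst ρ ^ 2 := by
    rw [← map_pow, ← map_pow, hζ]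
  rw [hE, mul_pow, hη, h1]

private theorem line_spec {π : Place k (Om k)} {U : Pt S (Om k)} {U' : Pt S' (Om k)} {P : Pt S k} {Q : Pt S' k} {ρ ζ μ₀ : k}
    {τ : Om k} (ht : U.t = cstB P.t) (hx : U.x = cst ζ * U'.x + τ) (hs : U'.t = cstB Q.t)
    (hy : U.y = cst ρ * U'.y) (hτ : Rd π.V π.φ τ μ₀) (hr : Rd π.V π.φ U'.x Q.x)
    (hP : P.x - ζ * Q.x = μ₀) (hPy : P.y = ρ * Q.y) : Φ.spv π (U, U') = Φ.cl P Q := by
  have h0 : RdB π U.t P.t := by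
    rw [ht]
    exact RdB.cst π _
  have h0' : RdB π U'.t Q.t := by
    rw [hs]
    exact RdB.cst π _
  have hxP : Rd π.V π.φ U.x P.x := by
    rw [hx]
    have h1 : Rd π.V π.φ (cst ζ * U'.x + τ) (ζ * Q.x + μ₀) :=
      (Rd.mul (π.const ζ) hr).add hτ
    have h2 : ζ * Q.x + μ₀ = P.x := by
      rw [← hP]
      ring
    rwa [h2] at h1
  have h1 : Rd π.V π.φ (U'.y ^ 2) (Q.y ^ 2) := by
    rw [U'.eq, Q.eq]
    exact ((hr.pow 3).add ((h0' S'.a).mul hr)).add (h0' S'.b)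
  rcases rd_sq π h1 with h | h
  · have h2 : Rd π.V π.φ U.y P.y := by
      rw [hy, hPy]
      exact Rd.mul (π.const ρ) h
    exact Φ.spv_rd ⟨h0, hxP, h2⟩ ⟨h0', hr, h⟩
  · have h2 : Rd π.V π.φ U.y (-P.y) := by
      have h3 : Rd π.V π.φ (cst ρ * U'.y) (ρ * -Q.y) := Rd.mul (π.const ρ) h
      rw [hy, hPy, ← mul_neg]
      exact h3
    have h4 : RdP π U P.neg := ⟨h0, hxP, h2⟩
    have h5 : RdP π U' Q.neg := ⟨h0', hr, h⟩
    rw [Φ.spv_rd h4 h5, cl_neg_neg Φ]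

theorem line {P P' : Pt S k} {Q Q' : Pt S' k} {ρ ζ : k} (hρ : ρ ≠ 0) (hζ : ζ ^ 3 = ρ ^ 2) (ht : P'.t = P.t)
    (hs : Q'.t = Q.t) (hy : P.y = ρ * Q.y) (hy' : P'.y = ρ * Q'.y)
    (hl : P'.x - ζ * Q'.x = P.x - ζ * Q.x) (hμ : P.x - ζ * Q.x ≠ 0)
    (hsum : 3 * (P.x - ζ * Q.x) * ζ * (Q.x + Q'.x) + 3 * (P.x - ζ * Q.x) ^ 2 + P.t S.a
      - Q.t S'.a * ζ ^ 2 = 0) : Φ.cl P Q + Φ.cl P' Q' = 0 := by
  set t : S.R →ₐ[k] k := P.t with htd
  set s : S'.R →ₐ[k] k := Q.t with hsd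
  set μ₀ : k := P.x - ζ * Q.x with hμd
  have hζ0 : ζ ≠ 0 := by
    rintro rfl
    rw [zero_pow three_ne_zero] at hζ
    exact hρ (pow_eq_zero_iff two_ne_zero |>.1 hζ.symm)
  have h3 : (3 : k) ≠ 0 := n3 k
  set τ : Om k := tt k with hτd
  have hτ0 : τ ≠ 0 := by
    intro h
    exact tt_ne k 0 (h.trans (map_zero (algebraMap k (Om k))).symm)
  have hζΩ : (cst ζ : Om k) ≠ 0 := by
    intro h
    exact hζ0 ((algebraMap k (Om k)).injective (h.trans (map_zero (algebraMap k (Om k))).symm))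
  have h3Ω : (3 : Om k) ≠ 0 := n3 (Om k)
  set A : Om k := cstB t S.a with hA
  set B : Om k := cstB t S.b with hB
  set A' : Om k := cstB s S'.a with hA'
  set B' : Om k := cstB s S'.b with hB'
  obtain ⟨r₁, r₂, hs12, hp12⟩ := exists_quad
    (-(3 * cst ζ * τ ^ 2 + A * cst ζ - A' * cst ζ ^ 3) / (3 * cst ζ ^ 2 * τ))
    ((τ ^ 3 + A * τ + B - cst ζ ^ 3 * B') / (3 * cst ζ ^ 2 * τ))
  have hden : 3 * (cst ζ : Om k) ^ 2 * τ ≠ 0 :=
    mul_ne_zero (mul_ne_zero h3Ω (pow_ne_zero 2 hζΩ)) hτ0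
  have hs' : (3 * cst ζ ^ 2 * τ) * (r₁ + r₂) =
      -(3 * cst ζ * τ ^ 2 + A * cst ζ - A' * cst ζ ^ 3) := by
    rw [hs12, mul_div_cancel₀ _ hden]
  have hp' : (3 * cst ζ ^ 2 * τ) * (r₁ * r₂) = τ ^ 3 + A * τ + B - cst ζ ^ 3 * B' := by
    rw [hp12, mul_div_cancel₀ _ hden]
  have hE1 : (cst ζ * r₁ + τ) ^ 3 + A * (cst ζ * r₁ + τ) + B =
      cst ζ ^ 3 * (r₁ ^ 3 + A' * r₁ + B') := by
    linear_combination r₁ * hs' - hp'
  have hE2 : (cst ζ * r₂ + τ) ^ 3 + A * (cst ζ * r₂ + τ) + B =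
      cst ζ ^ 3 * (r₂ ^ 3 + A' * r₂ + B') := by
    linear_combination r₂ * hs' - hp'
  obtain ⟨U₁, U₁', u1, u2, u3, u4, u5⟩ := line_pt (t := t) (s := s) hζ hE1
  obtain ⟨U₂, U₂', v1, v2, v3, v4, v5⟩ := line_pt (t := t) (s := s) hζ hE2
  refine Φ.kc [(U₁, U₁'), (U₂, U₂')] t s ?_ (some μ₀) none (Φ.cl P Q + Φ.cl P' Q') 0 ?_ ?_
  · intro p hp
    simp only [List.mem_cons, List.not_mem_nil, or_false] at hp
    rcases hp with rfl | rfl
    · exact ⟨u1, u3⟩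
    · exact ⟨v1, v3⟩
  · intro π hπ
    have := π.isLocal
    have hτ : Rd π.V π.φ τ μ₀ := hπ
    have rt : RdB π (cstB t) t := RdB.cst π t
    have rs : RdB π (cstB s) s := RdB.cst π s
    have rζ : Rd π.V π.φ (cst ζ : Om k) ζ := π.const ζ
    have rA : Rd π.V π.φ A (t S.a) := rt S.a
    have rB : Rd π.V π.φ B (t S.b) := rt S.b
    have rA' : Rd π.V π.φ A' (s S'.a) := rs S'.a
    have rB' : Rd π.V π.φ B' (s S'.b) := rs S'.b
    have r3 : Rd π.V π.φ (3 : Om k) 3 := Rd.three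
    have hden0 : 3 * ζ ^ 2 * μ₀ ≠ 0 := mul_ne_zero (mul_ne_zero h3 (pow_ne_zero 2 hζ0)) hμ
    have rden : Rd π.V π.φ (3 * cst ζ ^ 2 * τ) (3 * ζ ^ 2 * μ₀) := (r3.mul (rζ.pow 2)).mul hτ
    have hconst : μ₀ ^ 3 + t S.a * μ₀ + t S.b - ζ ^ 3 * s S'.b =
        (3 * ζ ^ 2 * μ₀) * (Q.x * Q'.x) := by
      have e1 := P.eq
      have e2 := Q.eq
      have e3 : P.x = ζ * Q.x + μ₀ := by
        rw [hμd]
        ring
      rw [hy, e3, ← htd] at e1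
      rw [← hsd] at e2
      linear_combination (-1 : k) * e1 + ρ ^ 2 * e2 - (Q.x ^ 3 + s S'.a * Q.x + s S'.b) * hζ
        + (-Q.x * ζ) * hsum
    have rsum : Rd π.V π.φ (r₁ + r₂) (Q.x + Q'.x) := by
      have e1 : Rd π.V π.φ (-(3 * cst ζ * τ ^ 2 + A * cst ζ - A' * cst ζ ^ 3))
          (-(3 * ζ * μ₀ ^ 2 + t S.a * ζ - s S'.a * ζ ^ 3)) :=
        ((((r3.mul rζ).mul (hτ.pow 2)).add (rA.mul rζ)).sub (rA'.mul (rζ.pow 3))).neg
      have e2 := e1.div rden hden0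
      rw [← hs12] at e2
      have e3 : -(3 * ζ * μ₀ ^ 2 + t S.a * ζ - s S'.a * ζ ^ 3) / (3 * ζ ^ 2 * μ₀) =
          Q.x + Q'.x := by
        rw [div_eq_iff hden0]
        linear_combination (-ζ) * hsum
      rwa [e3] at e2
    have rprod : Rd π.V π.φ (r₁ * r₂) (Q.x * Q'.x) := by
      have e1 : Rd π.V π.φ (τ ^ 3 + A * τ + B - cst ζ ^ 3 * B')
          (μ₀ ^ 3 + t S.a * μ₀ + t S.b - ζ ^ 3 * s S'.b) :=
        (((hτ.pow 3).add (rA.mul hτ)).add rB).sub ((rζ.pow 3).mul rB')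
      have e2 := e1.div rden hden0
      rw [← hp12] at e2
      have e3 : (μ₀ ^ 3 + t S.a * μ₀ + t S.b - ζ ^ 3 * s S'.b) / (3 * ζ ^ 2 * μ₀) =
          Q.x * Q'.x := by
        rw [div_eq_iff hden0, hconst]
        ring
      rwa [e3] at e2
    rw [List.map_cons, List.map_cons, List.map_nil, List.sum_cons, List.sum_cons, List.sum_nil,
      add_zero]
    have hP't : P'.t = t := ht
    have hQ't : Q'.t = s := hs
    rcases rd_quad π rsum rprod with ⟨h1, h2⟩ | ⟨h1, h2⟩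
    · rw [← u4] at h1
      rw [← v4] at h2
      rw [line_spec Φ u1 u2 u3 u5 hτ h1 rfl hy,
        line_spec Φ (P := P') (Q := Q') (by rw [hP't]; exact v1) v2 (by rw [hQ't]; exact v3) v5 hτ h2
          hl hy']
    · rw [← u4] at h1
      rw [← v4] at h2
      rw [line_spec Φ (P := P') (Q := Q') (by rw [hP't]; exact u1) u2 (by rw [hQ't]; exact u3) u5 hτ
        h1 hl hy', line_spec Φ v1 v2 v3 v5 hτ h2 rfl hy, add_comm]
  · intro π hπ
    have hτ : τ ∉ π.V := hπ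
    have rζ : (cst ζ : Om k) ∈ π.V := (π.const ζ).choose
    have e1 : Φ.spv π (U₁, U₁') = 0 := Φ.spv_zero (fun h1 => hτ (by
      have h2 : τ = U₁.x - cst ζ * U₁'.x := by
        rw [u2]
        ring
      rw [h2]
      exact sub_mem h1.1.2.1 (mul_mem rζ h1.2.2.1)))
    have e2 : Φ.spv π (U₂, U₂') = 0 := Φ.spv_zero (fun h1 => hτ (by
      have h2 : τ = U₂.x - cst ζ * U₂'.x := by
        rw [v2]
        ring
      rw [h2]
      exact sub_mem h1.1.2.1 (mul_mem rζ h1.2.2.1)))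
    rw [List.map_cons, List.map_cons, List.map_nil, List.sum_cons, List.sum_cons, List.sum_nil,
      add_zero, e1, e2, add_zero]

end H90.QF
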