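import Pool.Agent.H90.QF.Mirror
import Pool.Agent.H90.QF.Line
import Pool.Agent.H90.QF.AlgC

/-! # QF.Indep : the class of a pair over `w` does not depend on the sixth root (about 180 lines)

`star_pair`: `(P, Q)` over `(w, θ)`, `ε` a primitive cube root of unity, `θ'' = ε θ`, `z = θ^2`, `κ = ε^2` (so `θ''^2 = κ z`, `θ''^3 = θ^3`,
`θ''^4 = (κ z)^2`), `Qd w θ'' ≠ 0`.  Then there is `(P₁, Q₁)` over `(w.mir, θ'')` with `Φ.cl P Q + Φ.cl P₁ Q₁ = 0`: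
`μ = P.x - κ^2 z Q.x ≠ 0` by `mu_ne` (`Qd w θ'' = qh A ((κ z)^2 A') (κ xh)`, because `κ z x = κ xh`), let `y₂` be the solution of the linear
equation `hs` of `star`, `y₁ = κ^2 z y₂ + μ`, `η` a square root of `y₁^3 + A y₁ + B`, `P₁ = (t, y₁, η)`, `Q₁ = (s, y₂, η/θ^3)`; `star` gives
`Over w.mir θ'' P₁ Q₁`, and `line` with `ρ = θ^3`, `ζ = κ^2 z` gives the relation.
`indep`: `(P, Q)` over `(w, θ)`, `(P', Q')` over `(w, θ')`.  `θ'^6 = θ^6` (`Over.T`, `D_s ≠ 0`), so `θ' = ± ε θ` with `ε^3 = 1`.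
CASE `ε = 1`, `θ' = θ`: `over_uniq`, `cl_neg_neg`.  CASE `ε = 1`, `θ' = -θ`: `over_mir` gives `Over w.mir θ P' Q'.neg`, `mirror`:
`Φ.cl P Q + Φ.cl P' Q'.neg = 0`, `cl_neg_snd`.  CASE `ε ≠ 1` (then `ε^2 + ε + 1 = 0`): `star_pair` with `θ'' = ε θ`.  If `θ' = θ''` then
`mirror` gives `Φ.cl P' Q' + Φ.cl P₁ Q₁ = 0`.  If `θ' = -θ''` then `over_mir` gives `Over w.mir θ'' P' Q'.neg` and `over_uniq` (`Qd` does not depend on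
`y`) `Φ.cl P' Q'.neg = Φ.cl P₁ Q₁`.  In both cases `Φ.cl P' Q' = Φ.cl P Q`. -/

namespace H90.QF

open Polynomial H68.BB

variable {k : Type} [Field k] [IsAlgClosed k] [C23 k] {S S' : Fam k} {G : Type} [AddCommGroup G] (Φ : Fn S S' G)

theorem star_pair {w : Wp S S' k} {θ ε : k} {P : Pt S k} {Q : Pt S' k} (hs : w.s S'.dl ≠ 0)
    (hε : ε ^ 2 + ε + 1 = 0) (h : Over w θ P Q) (hq : Qd w (ε * θ) ≠ 0) :
    ∃ (P₁ : Pt S k) (Q₁ : Pt S' k), Over w.mir (ε * θ) P₁ Q₁ ∧ Φ.cl P Q + Φ.cl P₁ Q₁ = 0 := by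
  have _ := hs
  have hth : θ ≠ 0 := h.th
  have hz : θ ^ 2 ≠ 0 := pow_ne_zero 2 hth
  have hε3 : ε ^ 3 = 1 := by linear_combination (ε - 1) * hε
  have hκ : (ε ^ 2) ^ 2 + ε ^ 2 + 1 = 0 := by linear_combination (ε ^ 2 - ε + 1) * hε
  have hε0 : ε ≠ 0 := by
    rintro rfl
    norm_num at hε
  have e1 := h.e1
  have e2 := h.e2
  have hPe := P.eq
  have hQe := Q.eq
  have hy := h.y
  rw [h.t] at hPe
  rw [h.s] at hQe
  generalize hA : w.t S.a = A at *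
  generalize hA' : w.s S'.a = A' at *
  generalize hB : w.t S.b = B at *
  generalize hB' : w.s S'.b = B' at *
  have hc : P.x ^ 3 + A * P.x + B = (θ ^ 2) ^ 3 * (Q.x ^ 3 + A' * Q.x + B') := by
    rw [← hPe, ← hQe, hy]; ring
  have e1' : xh A ((θ ^ 2) ^ 2 * A') P.x (θ ^ 2 * Q.x) = θ ^ 2 * w.x := by
    rw [e1]; unfold xh; ring
  have e2' : yh A ((θ ^ 2) ^ 2 * A') P.x (θ ^ 2 * Q.x) = θ ^ 3 * w.y := by
    rw [e2]; unfold yh; ring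
  have hμ : P.x - (ε ^ 2) ^ 2 * θ ^ 2 * Q.x ≠ 0 := by
    apply mu_ne (A := A) (A' := A') hκ
    rw [e1']
    intro h0
    apply hq
    rw [← h0]
    unfold Qd qh
    rw [hA, hA']
    ring
  set μ := P.x - (ε ^ 2) ^ 2 * θ ^ 2 * Q.x with hμd
  set y₂ : k := (A' * ((ε ^ 2) ^ 2 * θ ^ 2) ^ 2 - A - 3 * μ ^ 2) / (3 * μ * ((ε ^ 2) ^ 2 * θ ^ 2)) - Q.x with hy2
  set y₁ : k := (ε ^ 2) ^ 2 * θ ^ 2 * y₂ + μ with hy1
  have hden : 3 * μ * ((ε ^ 2) ^ 2 * θ ^ 2) ≠ 0 :=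
    mul_ne_zero (mul_ne_zero (n3 _) hμ) (mul_ne_zero (pow_ne_zero 2 (pow_ne_zero 2 hε0)) hz)
  have hs' : 3 * μ * ((ε ^ 2) ^ 2 * θ ^ 2) * (Q.x + y₂) + 3 * μ ^ 2 + A - A' * ((ε ^ 2) ^ 2 * θ ^ 2) ^ 2 = 0 := by
    have h1 : Q.x + y₂ = (A' * ((ε ^ 2) ^ 2 * θ ^ 2) ^ 2 - A - 3 * μ ^ 2) / (3 * μ * ((ε ^ 2) ^ 2 * θ ^ 2)) := by
      rw [hy2]; ring
    rw [h1, mul_div_cancel₀ _ hden]
    ring
  have hl : y₁ - (ε ^ 2) ^ 2 * θ ^ 2 * y₂ = P.x - (ε ^ 2) ^ 2 * θ ^ 2 * Q.x := by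
    rw [hy1, hμd]; ring
  obtain ⟨c1, c2, c3⟩ := star (A := A) (A' := A') (B := B) (B' := B') hz hκ hc hμ hl hs'
  rw [e1'] at c2
  rw [e2'] at c3
  obtain ⟨η, hη⟩ := IsAlgClosed.exists_pow_nat_eq (y₁ ^ 3 + A * y₁ + B) (n := 2) (by norm_num)
  have hθ3 : θ ^ 3 ≠ 0 := pow_ne_zero 3 hth
  have hQ1 : (η / θ ^ 3) ^ 2 = y₂ ^ 3 + A' * y₂ + B' := by
    rw [div_pow, hη, c1, div_eq_iff (pow_ne_zero 2 hθ3)]; ring
  let P₁ : Pt S k := ⟨w.t, y₁, η, by rw [hA, hB]; exact hη⟩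
  let Q₁ : Pt S' k := ⟨w.s, y₂, η / θ ^ 3, by rw [hA', hB']; exact hQ1⟩
  have hε6 : (ε * θ) ^ 6 = θ ^ 6 := by linear_combination (ε ^ 3 + 1) * θ ^ 6 * hε3
  have hε33 : (ε * θ) ^ 3 = θ ^ 3 := by linear_combination θ ^ 3 * hε3
  refine ⟨P₁, Q₁, ⟨rfl, rfl, mul_ne_zero hε0 hth, ?_, ?_, ?_, ?_⟩, ?_⟩
  · show η = (ε * θ) ^ 3 * (η / θ ^ 3)
    rw [hε33, mul_div_cancel₀ _ hθ3]
  · show 16 * w.s S'.dl * (ε * θ) ^ 6 = -w.T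
    rw [hε6]; exact h.T
  · show (ε * θ) ^ 2 * w.x = 12 * (y₁ ^ 2 + y₁ * ((ε * θ) ^ 2 * y₂) + ((ε * θ) ^ 2 * y₂) ^ 2)
      + 4 * (w.t S.a + (ε * θ) ^ 4 * w.s S'.a)
    rw [hA, hA']
    have h1 : (ε * θ) ^ 2 * w.x = ε ^ 2 * (θ ^ 2 * w.x) := by ring
    rw [h1, ← c2]
    unfold xh
    ring
  · show (ε * θ) ^ 3 * (-w.y) = 12 * (3 * (y₁ + (ε * θ) ^ 2 * y₂) * (y₁ ^ 2 + y₁ * ((ε * θ) ^ 2 * y₂) + ((ε * θ) ^ 2 * y₂) ^ 2)
      + w.t S.a * (y₁ + 2 * ((ε * θ) ^ 2 * y₂)) + (ε * θ) ^ 4 * w.s S'.a * (2 * y₁ + (ε * θ) ^ 2 * y₂))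
    rw [hA, hA']
    have h1 : (ε * θ) ^ 3 * (-w.y) = -(θ ^ 3 * w.y) := by rw [hε33]; ring
    rw [h1, ← c3]
    unfold yh
    ring
  · have hζ : ((ε ^ 2) ^ 2 * θ ^ 2) ^ 3 = (θ ^ 3) ^ 2 := by
      have : ((ε ^ 2) ^ 2 * θ ^ 2) ^ 3 = (ε ^ 3) ^ 4 * θ ^ 6 := by ring
      rw [this, hε3]; ring
    refine line Φ (P := P) (Q := Q) (P' := P₁) (Q' := Q₁) (ρ := θ ^ 3) (ζ := (ε ^ 2) ^ 2 * θ ^ 2) hθ3 hζ ?_ ?_ hy ?_ ?_ ?_ ?_
    · show w.t = P.t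
      exact h.t.symm
    · show w.s = Q.t
      exact h.s.symm
    · show η = θ ^ 3 * (η / θ ^ 3)
      rw [mul_div_cancel₀ _ hθ3]
    · exact hl
    · exact hμ
    · rw [h.t, h.s, hA, hA']
      exact hs'

theorem indep {w : Wp S S' k} {θ θ' : k} {P P' : Pt S k} {Q Q' : Pt S' k} (hw : Good w) (h : Over w θ P Q)
    (h' : Over w θ' P' Q') : Φ.cl P Q = Φ.cl P' Q' := by
  have hq : Qd w θ ≠ 0 := hw.qd θ h.T
  -- the case of equal roots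
  have key0 : ∀ {w : Wp S S' k} {θ : k} {P P' : Pt S k} {Q Q' : Pt S' k}, Qd w θ ≠ 0 → Over w θ P Q →
      Over w θ P' Q' → Φ.cl P Q = Φ.cl P' Q' := by
    intro w θ P P' Q Q' hq h h'
    rcases over_uniq hq h h' with ⟨h1, h2⟩ | ⟨h1, h2⟩
    · rw [h1, h2]
    · rw [h1, h2, cl_neg_neg Φ]
  have h16 : (16 : k) * w.s S'.dl ≠ 0 := mul_ne_zero (n16 k) hw.ds
  have h6 : θ' ^ 6 = θ ^ 6 := by
    have h1 : 16 * w.s S'.dl * θ' ^ 6 = 16 * w.s S'.dl * θ ^ 6 := by rw [h.T, h'.T]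
    exact mul_left_cancel₀ h16 h1
  have hth : θ ≠ 0 := h.th
  -- `θ' = ε θ` or `θ' = - ε θ` with `ε ^ 3 = 1`
  obtain ⟨ε, hε3, hε⟩ : ∃ ε : k, ε ^ 3 = 1 ∧ (θ' = ε * θ ∨ θ' = -(ε * θ)) := by
    have h3 : (θ' ^ 3 - θ ^ 3) * (θ' ^ 3 + θ ^ 3) = 0 := by linear_combination h6
    rcases mul_eq_zero.1 h3 with h4 | h4
    · refine ⟨θ' / θ, ?_, Or.inl ?_⟩
      · rw [div_pow, div_eq_one_iff_eq (pow_ne_zero 3 hth)]
        linear_combination h4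
      · rw [div_mul_cancel₀ _ hth]
    · refine ⟨-(θ' / θ), ?_, Or.inr ?_⟩
      · rw [neg_pow, div_pow]
        have h5 : θ' ^ 3 = -θ ^ 3 := by linear_combination h4
        rw [h5, neg_div, div_self (pow_ne_zero 3 hth)]
        norm_num
      · rw [neg_mul, div_mul_cancel₀ _ hth, neg_neg]
  have hqm : ∀ θ : k, Qd w.mir θ = Qd w θ := fun θ => rfl
  have h1 : (ε - 1) * (ε ^ 2 + ε + 1) = 0 := by linear_combination hε3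
  rcases mul_eq_zero.1 h1 with h2 | h2
  · have h3 : ε = 1 := by linear_combination h2
    rw [h3, one_mul] at hε
    rcases hε with h4 | h4
    · rw [h4] at h'
      exact key0 hq h h'
    · rw [h4] at h'
      have h5 := over_mir h'
      have h6 := mirror Φ hw.ds hq h h5
      rw [cl_neg_snd Φ] at h6
      exact sub_eq_zero.1 (by rw [sub_eq_add_neg]; exact h6)
  · have hq2 : Qd w (ε * θ) ≠ 0 := by
      apply hw.qd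
      have h3 : (ε * θ) ^ 6 = θ ^ 6 := by linear_combination (ε ^ 3 + 1) * θ ^ 6 * hε3
      rw [h3]; exact h.T
    obtain ⟨P₁, Q₁, ho, hcl⟩ := star_pair Φ hw.ds h2 h hq2
    rcases hε with h4 | h4
    · rw [h4] at h'
      have h5 := mirror Φ hw.ds hq2 h' ho
      exact add_right_cancel (hcl.trans h5.symm)
    · rw [h4] at h'
      have h5 := over_mir h'
      have h6 := key0 (by rw [hqm]; exact hq2) h5 ho
      rw [cl_neg_snd Φ] at h6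
      rw [← h6] at hcl
      exact sub_eq_zero.1 (by rw [sub_eq_add_neg]; exact hcl)

open Classical in
/-- the class of the pairs over `w` -/
noncomputable def CC (w : Wp S S' k) : G :=
  if h : ∃ p : PP S S' k, ∃ θ : k, Over w θ p.1 p.2 then Φ.cl h.choose.1 h.choose.2 else 0

theorem CC_eq {w : Wp S S' k} {θ : k} {P : Pt S k} {Q : Pt S' k} (hw : Good w) (h : Over w θ P Q) :
    CC Φ w = Φ.cl P Q := by
  have h1 : ∃ p : PP S S' k, ∃ θ : k, Over w θ p.1 p.2 := ⟨(P, Q), θ, h⟩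
  unfold CC
  rw [dif_pos h1]
  obtain ⟨θ', h2⟩ := h1.choose_spec
  exact indep Φ hw h2 h

/-- the class of the specialisation of a pair over `w`, if `w` specialises to a good point -/
theorem spec_CC {π : Place k (Om k)} {w : Wp S S' (Om k)} {w₀ : Wp S S' k} {θ : Om k} (hw : RdW π w w₀)
    (h₀ : Good w₀) {P : Pt S (Om k)} {Q : Pt S' (Om k)} (h : Over w θ P Q) : Φ.spv π (P, Q) = CC Φ w₀ := by
  obtain ⟨θ₀, h1, h2⟩ := rd_theta hw h₀.ds h.T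
  have h3 : θ₀ ≠ 0 := by
    rintro rfl
    apply h₀.T_ne
    have h4 : -w₀.T = 0 := by rw [← h2]; ring
    exact neg_eq_zero.1 h4
  obtain ⟨P₀, Q₀, h5⟩ := over_exists h₀.on h₀.ds h3 h2 (h₀.qd θ₀ h2)
  rw [spec_over Φ hw h1 (h₀.qd θ₀ h2) h h5, CC_eq Φ h₀ h5]

theorem CC_mir {w : Wp S S' k} (hw : Good w) : CC Φ w + CC Φ w.mir = 0 := by
  obtain ⟨θ, h0, hT⟩ := hw.theta
  obtain ⟨P, Q, h⟩ := over_exists hw.on hw.ds h0 hT (hw.qd θ hT)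
  obtain ⟨P', Q', h'⟩ := over_exists hw.mir.on hw.mir.ds h0 hT (hw.mir.qd θ hT)
  rw [CC_eq Φ hw h, CC_eq Φ hw.mir h']
  exact mirror Φ hw.ds (hw.qd θ hT) h h'

end H90.QF
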