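import Pool.Agent.H90.QF.Pack
import Pool.Agent.H90.QF.ConstC

/-! # QF.RoitC : there is no nonconstant polynomial curve in a fibre of the Fano variety (complete) -/

namespace H90.QF

open Polynomial
open H90.QE (FF)

variable {k : Type} [Field k] [IsAlgClosed k] [C23 k] {a b a' b' q A B E : k[X]}

theorem roit_c (hd : Dat a b a' b' q A B E) {σ₀ x₀ y₀ T₀ : k} (hw : GG (mkw a b a' b' q σ₀ x₀ y₀ T₀)) {x y T : k[X]}
    (hx0 : x.eval 0 = x₀) (hy0 : y.eval 0 = y₀) (hT0 : T.eval 0 = T₀) (hF : FF A B E (C σ₀) x y T = 0) :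
    x = C x₀ ∧ y = C y₀ ∧ T = C T₀ := by
  have haC : ∀ p : k[X], aeval (C σ₀ : k[X]) p = C (aeval σ₀ p) := by
    intro p
    have h1 := aeval_algHom_apply (Polynomial.CAlgHom : k →ₐ[k] k[X]) σ₀ p
    exact h1
  have hdt : aeval σ₀ (FL a b).dl ≠ 0 := hw.g.dt
  have hds : aeval σ₀ (FL a' b').dl ≠ 0 := hw.g.ds
  have hq : aeval σ₀ q ≠ 0 := q_ne hd hdt hds
  have hE : aeval σ₀ E ≠ 0 := by
    intro h0
    have h3 := hd.evE σ₀
    rw [h0, mul_zero] at h3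
    exact mul_ne_zero hdt hds h3
  unfold FF at hF
  rw [haC A, haC B, haC E] at hF
  set A0 : k := aeval σ₀ A with hA0
  set B0 : k := aeval σ₀ B with hB0
  set E0 : k := aeval σ₀ E with hE0
  have hprod : T * (-(T + (x ^ 3 - 48 * C A0 * x + 864 * C B0 - y ^ 2))) = C (256 * E0) := by
    rw [C_mul, map_ofNat]
    linear_combination -hF
  have hTu : IsUnit T := by
    have h1 : IsUnit (C (256 * E0)) := isUnit_C.2 (isUnit_iff_ne_zero.2 (mul_ne_zero (n256 k) hE))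
    rw [← hprod] at h1
    exact isUnit_of_mul_isUnit_left h1
  obtain ⟨r, hr, hrT⟩ := Polynomial.isUnit_iff.1 hTu
  have hrw : r = T₀ := by
    rw [← hT0, ← hrT, eval_C]
  have hT : T = C T₀ := by rw [← hrT, hrw]
  have hτ : T₀ ≠ 0 := by
    rw [← hrw]
    exact hr.ne_zero
  have hcurve : y ^ 2 = x ^ 3 + C (-48 * A0) * x + C (864 * B0 + T₀ + 256 * E0 / T₀) := by
    have e1 : (C T₀ : k[X]) * y ^ 2 =
        C T₀ * (x ^ 3 + C (-48 * A0) * x + C (864 * B0 + T₀ + 256 * E0 / T₀)) := by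
      have e2 : (C T₀ : k[X]) * C (864 * B0 + T₀ + 256 * E0 / T₀) = 864 * C T₀ * C B0 + C T₀ ^ 2 + C (256 * E0) := by
        rw [← C_mul]
        have e3 : T₀ * (864 * B0 + T₀ + 256 * E0 / T₀) = 864 * T₀ * B0 + T₀ ^ 2 + 256 * E0 := by
          field_simp
        rw [e3, C_add, C_add, C_mul, C_mul, C_pow, map_ofNat]
      have e4 : (C (-48 * A0) : k[X]) = -48 * C A0 := by
        rw [C_mul, C_neg, map_ofNat]
      rw [mul_add, mul_add, e2, e4, C_mul, map_ofNat]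
      rw [hT] at hF
      linear_combination -hF
    exact mul_left_cancel₀ (C_ne_zero.2 hτ) e1
  have hd' : 4 * (-48 * A0) ^ 3 + 27 * (864 * B0 + T₀ + 256 * E0 / T₀) ^ 2 ≠ 0 := by
    intro h0
    apply hw.disc
    have h1 := hd.evA σ₀
    have h2 := hd.evB σ₀
    have h3 := hd.evE σ₀
    rw [← hA0] at h1
    rw [← hB0] at h2
    rw [← hE0] at h3
    have h4 : T₀ * (864 * B0 + T₀ + 256 * E0 / T₀) = 864 * B0 * T₀ + T₀ ^ 2 + 256 * E0 := by
      field_simp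
    have h5 : 4 * (-48 * A0) ^ 3 * T₀ ^ 2 + 27 * (864 * B0 * T₀ + T₀ ^ 2 + 256 * E0) ^ 2 = 0 := by
      rw [← h4]
      linear_combination T₀ ^ 2 * h0
    unfold Disc DD mkw
    dsimp only
    have e1 : -48 * aeval σ₀ a * aeval σ₀ a' = -48 * (aeval σ₀ q ^ 4 * A0) := by
      rw [← h1]
      ring
    have e2 : 864 * aeval σ₀ b * aeval σ₀ b' * (aeval σ₀ q ^ 6 * T₀) + (aeval σ₀ q ^ 6 * T₀) ^ 2 +
        256 * aeval σ₀ (FL a b).dl * aeval σ₀ (FL a' b').dl = aeval σ₀ q ^ 12 * (864 * B0 * T₀ + T₀ ^ 2 + 256 * E0) := by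
      linear_combination 864 * (aeval σ₀ q ^ 6 * T₀) * h2 + 256 * h3
    rw [e1, e2]
    linear_combination aeval σ₀ q ^ 24 * h5
  obtain ⟨h1, h2⟩ := const_curve (n2 k) hcurve hd'
  rw [hx0] at h1
  rw [hy0] at h2
  exact ⟨h1, h2, hT⟩

end H90.QF
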