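import Pool.Agent.H90.QF.Spec

/-! # QF.Mirror : opposite points of the Jacobian (about 130 lines)

`(P, Q)` over `(w, θ)` and `(P', Q')` over `(mir w, θ)`.
PROOF of `mirror`. Apply `kk` to the family with parameter `x = tt`: `w' = (t, s, tt, η, T)` (constants `t, s, T`) with
`T η^2 = T^2 + T (tt^3 - 48 a_t a_s tt + 864 b_t b_s) + DD` (`T ≠ 0` because `T = -16 D_s θ^6`), so `OnW w'`, `OnW w'.mir`.  At a place `π₀`
over `w.x` (`place_over`): `η^2 ↦ w.y^2` (`OnW w` by `over_on`), so `w' ↦ w` or `w.mir`, and `Qd w' (cst θ) ↦ Qd w θ ≠ 0` (`Qd` does not depend on `y`), so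
`Qd w' (cst θ) ≠ 0` and by `over_exists` there are pairs `(U, U')` over `(w', cst θ)` and `(Z, Z')` over `(w'.mir, cst θ)`.  `L = [(U, U'), (Z, Z')]`.
At EVERY place over `w.x`: `spec_over` twice gives `Φ.cl P Q + Φ.cl P' Q'` (in the one or the other order).  At a place over infinity:
if `U`, `U'` were both integral then `θ^2 tt = 12 (...) + 4 (...)` (`Over.e1`) would be integral; so `spv = 0` (`Φ.spv_zero`), the same for
`(Z, Z')`.  So `kk` with `u = some w.x`, `u' = none` gives the claim. -/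

namespace H90.QF

open Polynomial H68.BB

variable {k : Type} [Field k] [IsAlgClosed k] [C23 k] {S S' : Fam k} {G : Type} [AddCommGroup G] (Φ : Fn S S' G)

omit [IsAlgClosed k] [C23 k] in
private theorem mirror_inf {w' : Wp S S' (Om k)} {θ : k} (hθ : θ ≠ 0) (hx : w'.x = tt k)
    {U : Pt S (Om k)} {U' : Pt S' (Om k)} (h : Over w' (cst θ) U U') {π : Place k (Om k)}
    (hπ : tt k ∉ π.V) : Φ.spv π (U, U') = 0 := by
  refine Φ.spv_zero fun hI => hπ ?_
  obtain ⟨⟨ht, hX, hY⟩, ht', hX', hY'⟩ := hI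
  have rt : RdB π U.t (spB π U.t ht) := spB_rd ht
  have rX := Rd.of_mem (φ := π.φ) hX
  have rt' : RdB π U'.t (spB π U'.t ht') := spB_rd ht'
  have rX' := Rd.of_mem (φ := π.φ) hX'
  have rθ : Rd π.V π.φ (cst θ) θ := π.const θ
  have ra := rt S.a
  have ra' := rt' S'.a
  have r12 := rd_ofNat π 12
  have r4 := rd_ofNat π 4
  have rm := (rθ.pow 2).mul rX'
  have r1 := (r12.mul (((rX.pow 2).add (rX.mul rm)).add (rm.pow 2))).add
    (r4.mul (ra.add ((rθ.pow 4).mul ra')))
  have e1 := h.e1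
  rw [hx, ← h.t, ← h.s] at e1
  rw [← e1] at r1
  have ri : Rd π.V π.φ (cst θ⁻¹) θ⁻¹ := π.const θ⁻¹
  have r2 := (ri.pow 2).mul r1
  have hc : cst θ⁻¹ * cst θ = (1 : Om k) := by
    rw [← map_mul, inv_mul_cancel₀ hθ, map_one]
  have e2 : cst θ⁻¹ ^ 2 * (cst θ ^ 2 * tt k) = tt k := by
    calc cst θ⁻¹ ^ 2 * (cst θ ^ 2 * tt k) = (cst θ⁻¹ * cst θ) ^ 2 * tt k := by ring
      _ = tt k := by rw [hc]; ring
  rw [e2] at r2
  exact r2.mem

theorem mirror {w : Wp S S' k} {θ : k} {P P' : Pt S k} {Q Q' : Pt S' k} (hs : w.s S'.dl ≠ 0)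
    (hq : Qd w θ ≠ 0) (h : Over w θ P Q) (h' : Over w.mir θ P' Q') : Φ.cl P Q + Φ.cl P' Q' = 0 := by
  have hTne : w.T ≠ 0 := by
    intro h0
    have h1 := h.T
    rw [h0, neg_zero] at h1
    rcases mul_eq_zero.mp h1 with h2 | h2
    · rcases mul_eq_zero.mp h2 with h3 | h3
      · exact absurd h3 (n16 k)
      · exact hs h3
    · exact h.th (eq_zero_of_pow_eq_zero h2)
  have hcT : (cst w.T : Om k) ≠ 0 := by
    intro h0
    exact hTne ((map_eq_zero (algebraMap k (Om k))).mp h0)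
  set A : Om k := cstB w.t S.a with hA
  set A' : Om k := cstB w.s S'.a with hA'
  set B : Om k := cstB w.t S.b with hB
  set B' : Om k := cstB w.s S'.b with hB'
  set D : Om k := 256 * cstB w.t S.dl * cstB w.s S'.dl with hD
  obtain ⟨η, hη⟩ := IsAlgClosed.exists_pow_nat_eq
    ((cst w.T ^ 2 + cst w.T * (tt k ^ 3 - 48 * A * A' * tt k + 864 * B * B') + D) / cst w.T)
    (n := 2) (by norm_num)
  let w' : Wp S S' (Om k) := ⟨cstB w.t, cstB w.s, tt k, η, cst w.T⟩
  have hmul : cst w.T * η ^ 2 =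
      cst w.T ^ 2 + cst w.T * (tt k ^ 3 - 48 * A * A' * tt k + 864 * B * B') + D := by
    rw [hη]
    field_simp
  have hon : OnW w' := by
    change cst w.T ^ 2 + cst w.T * (tt k ^ 3 - 48 * A * A' * tt k + 864 * B * B' - η ^ 2) + D = 0
    linear_combination -hmul
  have hon' : OnW w'.mir := by
    change cst w.T ^ 2 + cst w.T * (tt k ^ 3 - 48 * A * A' * tt k + 864 * B * B' - (-η) ^ 2) + D = 0
    linear_combination -hmul
  have honw := over_on h
  -- reductions at places over `w.x`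
  have hred : ∀ π : Place k (Om k), OverPl π (some w.x) → RdW π w' w ∨ RdW π w' w.mir := by
    intro π hπ
    have hx : Rd π.V π.φ (tt k) w.x := hπ
    have rt : RdB π (cstB w.t) w.t := RdB.cst π _
    have rs : RdB π (cstB w.s) w.s := RdB.cst π _
    have rT : Rd π.V π.φ (cst w.T) w.T := π.const _
    have rA := rt S.a
    have rA' := rs S'.a
    have rB := rt S.b
    have rB' := rs S'.b
    have rDt := rt S.dl
    have rDs := rs S'.dl
    have r48 := rd_ofNat π 48
    have r864 := rd_ofNat π 864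
    have r256 := rd_ofNat π 256
    have := Place.isLocal π
    have r1 := ((rT.pow 2).add (rT.mul (((hx.pow 3).sub ((((r48.mul rA).mul rA').mul hx))).add
      ((r864.mul rB).mul rB')))).add ((r256.mul rDt).mul rDs)
    have r2 := r1.div rT hTne
    have hy : (w.T ^ 2 + w.T * (w.x ^ 3 - 48 * w.t S.a * w.s S'.a * w.x
        + 864 * w.t S.b * w.s S'.b)
        + 256 * w.t S.dl * w.s S'.dl) / w.T = w.y ^ 2 := by
      rw [div_eq_iff hTne]
      have h1 : w.T ^ 2 + w.T * (w.x ^ 3 - 48 * w.t S.a * w.s S'.a * w.x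
        + 864 * w.t S.b * w.s S'.b - w.y ^ 2)
        + 256 * w.t S.dl * w.s S'.dl = 0 := honw
      linear_combination h1
    rw [hy] at r2
    have r3 : Rd π.V π.φ (η ^ 2) (w.y ^ 2) := by
      rw [hη]
      exact r2
    rcases rd_sq π r3 with h1 | h1
    · exact Or.inl ⟨rt, rs, hx, h1, rT⟩
    · exact Or.inr ⟨rt, rs, hx, h1, rT⟩
  have hqmir : Qd w.mir θ = Qd w θ := rfl
  have hQ : Qd w' (cst θ) ≠ 0 := by
    obtain ⟨π, hπ⟩ := place_over (k := k) (some w.x)
    have rθ : Rd π.V π.φ (cst θ) θ := π.const θ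
    rcases hred π hπ with h1 | h1
    · exact (rd_qd h1 rθ).ne_zero hq
    · exact (rd_qd h1 rθ).ne_zero (by rw [hqmir]; exact hq)
  have hQ' : Qd w'.mir (cst θ) ≠ 0 := hQ
  have hθ0 : (cst θ : Om k) ≠ 0 := by
    intro h0
    exact h.th ((map_eq_zero (algebraMap k (Om k))).mp h0)
  have hDs : cstB w.s S'.dl = cst (w.s S'.dl) := rfl
  have hs' : w'.s S'.dl ≠ 0 := by
    change cstB w.s S'.dl ≠ 0
    rw [hDs]
    intro h0
    exact hs ((map_eq_zero (algebraMap k (Om k))).mp h0)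
  have hT' : 16 * w'.s S'.dl * cst θ ^ 6 = -w'.T := by
    change 16 * cstB w.s S'.dl * cst θ ^ 6 = -cst w.T
    rw [hDs]
    have h1 := congrArg (algebraMap k (Om k)) h.T
    rw [map_mul, map_mul, map_pow, map_neg, map_ofNat] at h1
    exact h1
  obtain ⟨U, U', hU⟩ := over_exists hon hs' hθ0 hT' hQ
  obtain ⟨Z, Z', hZ⟩ := over_exists (w := w'.mir) hon' hs' hθ0 hT' hQ'
  refine Φ.kc [(U, U'), (Z, Z')] w.t w.s ?_ (some w.x) none (Φ.cl P Q + Φ.cl P' Q') 0 ?_ ?_
  · intro p hp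
    simp only [List.mem_cons, List.not_mem_nil, or_false] at hp
    rcases hp with rfl | rfl
    · exact ⟨hU.t, hU.s⟩
    · exact ⟨hZ.t, hZ.s⟩
  · intro π hπ
    have rθ : Rd π.V π.φ (cst θ) θ := π.const θ
    have hsum : (List.map (Φ.spv π) [(U, U'), (Z, Z')]).sum = Φ.spv π (U, U') + Φ.spv π (Z, Z') := by
      simp
    rw [hsum]
    rcases hred π hπ with h1 | h1
    · rw [spec_over Φ h1 rθ hq hU h, spec_over Φ h1.mir rθ (by rw [hqmir]; exact hq) hZ h']
    · have h2 : RdW π w'.mir w := by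
        have h3 := h1.mir
        rw [mir_mir] at h3
        exact h3
      rw [spec_over Φ h1 rθ (by rw [hqmir]; exact hq) hU h', spec_over Φ h2 rθ hq hZ h, add_comm]
  · intro π hπ
    have hπ' : tt k ∉ π.V := hπ
    have hsum : (List.map (Φ.spv π) [(U, U'), (Z, Z')]).sum = Φ.spv π (U, U') + Φ.spv π (Z, Z') := by
      simp
    rw [hsum, mirror_inf Φ h.th rfl hU hπ', mirror_inf Φ h.th rfl hZ hπ', add_zero]

end H90.QF
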