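import Pool.Agent.H90.QF.Base

/-! # QF.R1 : the opposite point has the opposite class (complete)

As `H71.K3.R1`: `kk` for `L = [(U, Q.con), (U.neg, Q.con)]`, `U = (t, tt, η)`. -/

namespace H90.QF

open Polynomial H68.BB

variable {k : Type} [Field k] [IsAlgClosed k] {S S' : Fam k} {G : Type} [AddCommGroup G] (Φ : Fn S S' G)

theorem r1_exists (t : S.R →ₐ[k] k) : ∃ U : Pt S (Om k), U.t = cstB t ∧ U.x = tt k := by
  obtain ⟨η, hη⟩ := IsAlgClosed.exists_pow_nat_eq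
    ((tt k) ^ 3 + cstB t S.a * tt k + cstB t S.b) (show 0 < 2 by norm_num)
  exact ⟨⟨cstB t, tt k, η, hη⟩, rfl, rfl⟩

omit [IsAlgClosed k] in
theorem r1_cases {π : Place k (Om k)} {U : Pt S (Om k)} {P : Pt S k}
    (ht : U.t = cstB P.t) (hx : Rd π.V π.φ U.x P.x) : RdP π U P ∨ RdP π U P.neg := by
  have h0 : RdB π U.t P.t := by
    rw [ht]
    exact RdB.cst π _
  have h1 : Rd π.V π.φ (U.y ^ 2) (P.y ^ 2) := by
    rw [U.eq, P.eq]
    exact ((hx.pow 3).add ((h0 S.a).mul hx)).add (h0 S.b)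
  rcases rd_sq π h1 with h | h
  · exact Or.inl ⟨h0, hx, h⟩
  · exact Or.inr ⟨h0, hx, h⟩

theorem cl_neg_fst (P : Pt S k) (Q : Pt S' k) : Φ.cl P.neg Q = -Φ.cl P Q := by
  obtain ⟨U, hUt, hUx⟩ := r1_exists P.t
  have h := Φ.kc [(U, Q.con), (U.neg, Q.con)] P.t Q.t (by
      intro p hp
      simp only [List.mem_cons, List.not_mem_nil, or_false] at hp
      rcases hp with rfl | rfl
      · exact ⟨hUt, rfl⟩
      · exact ⟨hUt, rfl⟩) (some P.x) none (Φ.cl P Q + Φ.cl P.neg Q) 0 (by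
      intro π hπ
      have hx : Rd π.V π.φ U.x P.x := by
        rw [hUx]
        exact hπ
      rw [List.map_cons, List.map_cons, List.map_nil, List.sum_cons, List.sum_cons, List.sum_nil,
        add_zero]
      rcases r1_cases hUt hx with h1 | h1
      · rw [Φ.spv_rd h1 (con_rd π Q), Φ.spv_rd h1.neg (con_rd π Q)]
      · rw [Φ.spv_rd h1 (con_rd π Q), Φ.spv_rd h1.neg (con_rd π Q), neg_neg_pt, add_comm]) (by
      intro π hπ
      have hx : U.x ∉ π.V := by
        rw [hUx]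
        exact hπ
      have e1 : Φ.spv π (U, Q.con) = 0 := Φ.spv_zero (fun h1 => hx h1.1.2.1)
      have e2 : Φ.spv π (U.neg, Q.con) = 0 := Φ.spv_zero (fun h1 => hx h1.1.2.1)
      rw [List.map_cons, List.map_cons, List.map_nil, List.sum_cons, List.sum_cons, List.sum_nil,
        add_zero, e1, e2, add_zero])
  exact eq_neg_of_add_eq_zero_right h

theorem cl_neg_snd (P : Pt S k) (Q : Pt S' k) : Φ.cl P Q.neg = -Φ.cl P Q := cl_neg_fst Φ.swp Q P

theorem cl_neg_neg (P : Pt S k) (Q : Pt S' k) : Φ.cl P.neg Q.neg = Φ.cl P Q := by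
  rw [cl_neg_fst, cl_neg_snd, neg_neg]

theorem cl_two_fst (P : Pt S k) (Q : Pt S' k) (h : P.y = 0) : Φ.cl P Q = 0 := by
  have h1 : P.neg = P := by
    apply Pt.ext
    · rfl
    · rfl
    · show -P.y = P.y
      rw [h, neg_zero]
  have h2 := cl_neg_fst Φ P Q
  rw [h1] at h2
  apply Φ.half
  nth_rewrite 1 [h2]
  exact neg_add_cancel _

theorem cl_two_snd (P : Pt S k) (Q : Pt S' k) (h : Q.y = 0) : Φ.cl P Q = 0 := cl_two_fst Φ.swp Q P h

end H90.QF
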