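import Pool.Agent.H90.QF.Alg
import Pool.Agent.H90.QF.R1

/-! # QF.Spec : specialisation of pairs over `w` (about 220 lines)

`rd_qd`: `Rd` calculus (`rd_aeval`, `rd_ofNat`).
`spec_rd`: `(P, Q)` over `(w, θ)` over `Ω`, `w ↦ w₀`, `θ ↦ θ₀ ≠ 0` and `Qd w₀ θ₀ ≠ 0`.  With `A = a(w.t)`, `A' = θ^4 a(w.s)`, `B = b(w.t)`, `B' = θ^6 b(w.s)`,
`X = P.x`, `X' = θ^2 Q.x`: `alg_lin` is a linear system for `m = X - X'`, `p = X + X'` with integral coefficients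
(`xh = θ^2 w.x`, `yh = θ^3 w.y`) and determinant `Qd/48`, which reduces to a nonzero element: by Cramer's rule `m`, `p` are
integral, so `X = (p + m)/2` and `X' = (p - m)/2` too, so `Q.x = X'/θ^2` (`Rd.div`).  `P.y^2 = X^3 + A X + B` is integral, so `P.y` is
(`rd_pow_root`), and `Q.y = P.y/θ^3`.  So `P`, `Q` are integral (`Pt.Int`); their specialisations `P₀`, `Q₀` satisfy `Over w₀ θ₀ P₀ Q₀` (reduce
all equations, `Rd.unique`).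
`spec_over`: by `spec_rd` the class is `Φ.cl P₁ Q₁` for some pair over `(w₀, θ₀)`; by `over_uniq` it is `(P₀, Q₀)` or
`(P₀.neg, Q₀.neg)`; `cl_neg_neg`.
`rd_theta`: `θ^6 = -T/(16 D_s)` is integral, `rd_pow_root`.
`good_of_rd`: `θ ∈ Ω` with `16 D_s θ^6 = -T` reduces to such a `θ₀` (`rd_theta`), and `Qd w θ` reduces to `Qd w₀ θ₀ ≠ 0`.
`gg_of_rd`: the same for `w.swp` and `Disc`; `OnW w.swp` is `OnW w`. -/

namespace H90.QF

open Polynomial H68.BB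

variable {k : Type} [Field k] [IsAlgClosed k] [C23 k] {S S' : Fam k} {G : Type} [AddCommGroup G] (Φ : Fn S S' G)

theorem rd_qd {π : Place k (Om k)} {w : Wp S S' (Om k)} {w₀ : Wp S S' k} {θ : Om k} {θ₀ : k} (hw : RdW π w w₀)
    (hθ : Rd π.V π.φ θ θ₀) : Rd π.V π.φ (Qd w θ) (Qd w₀ θ₀) := by
  have h1 := hw.t S.a
  have h2 := (hθ.pow 4).mul (hw.s S'.a)
  have h3 := (hθ.pow 2).mul hw.x
  exact ((h3.pow 2).add (((rd_ofNat π 4).mul (h1.add h2)).mul h3)).add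
    ((rd_ofNat π 16).mul (((h1.pow 2).sub (h1.mul h2)).add (h2.pow 2)))

private theorem rd_dd {π : Place k (Om k)} {w : Wp S S' (Om k)} {w₀ : Wp S S' k} (hw : RdW π w w₀) :
    Rd π.V π.φ (DD w) (DD w₀) :=
  ((rd_ofNat π 256).mul (hw.t _)).mul (hw.s _)

theorem rd_disc {π : Place k (Om k)} {w : Wp S S' (Om k)} {w₀ : Wp S S' k} (hw : RdW π w w₀) :
    Rd π.V π.φ (Disc w) (Disc w₀) := by
  have ht := hw.t S.a
  have hs := hw.s S'.a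
  have ht' := hw.t S.b
  have hs' := hw.s S'.b
  exact (((rd_ofNat π 4).mul (((((rd_ofNat π 48).neg).mul ht).mul hs).pow 3)).mul (hw.T.pow 2)).add
    ((rd_ofNat π 27).mul ((((((((rd_ofNat π 864).mul ht').mul hs').mul hw.T).add (hw.T.pow 2)).add
      (rd_dd hw)).pow 2)))

theorem rd_theta {π : Place k (Om k)} {w : Wp S S' (Om k)} {w₀ : Wp S S' k} {θ : Om k} (hw : RdW π w w₀)
    (hs : w₀.s S'.dl ≠ 0) (hT : 16 * w.s S'.dl * θ ^ 6 = -w.T) :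
    ∃ θ₀ : k, Rd π.V π.φ θ θ₀ ∧ 16 * w₀.s S'.dl * θ₀ ^ 6 = -w₀.T := by
  have := π.isLocal
  have h1 := (rd_ofNat π 16).mul (hw.s S'.dl)
  have h16 : (16 : k) * w₀.s S'.dl ≠ 0 := mul_ne_zero (n16 k) hs
  have h2 : θ ^ 6 = -w.T / (16 * w.s S'.dl) := by
    rw [eq_div_iff (h1.ne_zero h16), ← hT]; ring
  have h3 := (hw.T.neg).div h1 h16
  rw [← h2] at h3
  obtain ⟨θ₀, h4, h5⟩ := rd_pow_root π (by norm_num) h3
  refine ⟨θ₀, h4, ?_⟩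
  rw [h5, mul_div_cancel₀ _ h16]

theorem good_of_rd {π : Place k (Om k)} {w : Wp S S' (Om k)} {w₀ : Wp S S' k} (hw : RdW π w w₀) (h₀ : Good w₀)
    (hon : OnW w) : Good w where
  on := hon
  dt := (hw.t _).ne_zero h₀.dt
  ds := (hw.s _).ne_zero h₀.ds
  qd := by
    intro θ hT
    obtain ⟨θ₀, h1, h2⟩ := rd_theta hw h₀.ds hT
    exact (rd_qd hw h1).ne_zero (h₀.qd θ₀ h2)

private theorem onW_swp {F : Type} [Field F] [Algebra k F] {w : Wp S S' F} (h : OnW w) : OnW w.swp := by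
  unfold OnW DD Wp.swp at *
  linear_combination h

theorem gg_of_rd {π : Place k (Om k)} {w : Wp S S' (Om k)} {w₀ : Wp S S' k} (hw : RdW π w w₀) (h₀ : GG w₀)
    (hon : OnW w) : GG w where
  g := good_of_rd hw h₀.g hon
  g' := good_of_rd hw.swp h₀.g' (onW_swp hon)
  disc := (rd_disc hw).ne_zero h₀.disc

theorem spec_rd {π : Place k (Om k)} {w : Wp S S' (Om k)} {w₀ : Wp S S' k} {θ : Om k} {θ₀ : k} (hw : RdW π w w₀)
    (hθ : Rd π.V π.φ θ θ₀) (h0 : θ₀ ≠ 0) (hq : Qd w₀ θ₀ ≠ 0) {P : Pt S (Om k)} {Q : Pt S' (Om k)}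
    (h : Over w θ P Q) : ∃ (P₀ : Pt S k) (Q₀ : Pt S' k), RdP π P P₀ ∧ RdP π Q Q₀ ∧ Over w₀ θ₀ P₀ Q₀ := by
  have := π.isLocal
  have hA := hw.t S.a
  have hA' := (hθ.pow 4).mul (hw.s S'.a)
  have hB := hw.t S.b
  have hB' := (hθ.pow 6).mul (hw.s S'.b)
  have hx := (hθ.pow 2).mul hw.x
  have hy := (hθ.pow 3).mul hw.y
  -- the equation of the plane cubic
  have hPt := P.eq
  have hQt := Q.eq
  rw [h.t] at hPt
  rw [h.s] at hQt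
  have hcub : P.x ^ 3 + w.t S.a * P.x + w.t S.b =
      (θ ^ 2 * Q.x) ^ 3 + (θ ^ 4 * w.s S'.a) * (θ ^ 2 * Q.x) + θ ^ 6 * w.s S'.b := by
    rw [← hPt, h.y]
    linear_combination θ ^ 6 * hQt
  obtain ⟨e1, e2⟩ := alg_lin hcub
  have hxh : xh (w.t S.a) (θ ^ 4 * w.s S'.a) P.x (θ ^ 2 * Q.x) = θ ^ 2 * w.x := by
    unfold xh; exact h.e1.symm
  have hyh : yh (w.t S.a) (θ ^ 4 * w.s S'.a) P.x (θ ^ 2 * Q.x) = θ ^ 3 * w.y := by
    unfold yh; exact h.e2.symm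
  rw [hxh] at e1 e2
  rw [hyh] at e2
  have hM := hx.add ((rd_ofNat π 2).mul (hA.add hA'))
  have hk := (rd_ofNat π 6).mul (hA.sub hA')
  have hc := (rd_ofNat π 12).mul (hB.sub hB')
  obtain ⟨M, hMd⟩ : ∃ M, M = θ ^ 2 * w.x + 2 * (w.t S.a + θ ^ 4 * w.s S'.a) := ⟨_, rfl⟩
  obtain ⟨κ, hκd⟩ : ∃ κ, κ = 6 * (w.t S.a - θ ^ 4 * w.s S'.a) := ⟨_, rfl⟩
  rw [← hMd] at hM e1 e2
  rw [← hκd] at hk e1 e2
  have hdet := ((rd_ofNat π 3).mul (hM.pow 2)).add (hk.pow 2)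
  have hd0 : 3 * (θ₀ ^ 2 * w₀.x + 2 * (w₀.t S.a + θ₀ ^ 4 * w₀.s S'.a)) ^ 2 +
      (6 * (w₀.t S.a - θ₀ ^ 4 * w₀.s S'.a)) ^ 2 ≠ 0 := by
    intro h1
    apply hq
    have h2 : 3 * Qd w₀ θ₀ = 0 := by
      unfold Qd
      linear_combination h1
    exact (mul_eq_zero.1 h2).resolve_left (n3 k)
  have hdet0 := hdet.ne_zero hd0
  have k1 : P.x - θ ^ 2 * Q.x = (3 * M * (-(12 * (w.t S.b - θ ^ 6 * w.s S'.b))) - κ * (θ ^ 3 * w.y)) /
      (3 * M ^ 2 + κ ^ 2) := by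
    rw [eq_div_iff hdet0]
    linear_combination 3 * M * e1 - κ * e2
  have k2 : P.x + θ ^ 2 * Q.x = (κ * (-(12 * (w.t S.b - θ ^ 6 * w.s S'.b))) + M * (θ ^ 3 * w.y)) /
      (3 * M ^ 2 + κ ^ 2) := by
    rw [eq_div_iff hdet0]
    linear_combination κ * e1 + M * e2
  have m1 := ((((rd_ofNat π 3).mul hM).mul hc.neg).sub (hk.mul hy)).div hdet hd0
  have m2 := ((hk.mul hc.neg).add (hM.mul hy)).div hdet hd0
  rw [← k1] at m1
  rw [← k2] at m2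
  have hPx : P.x ∈ π.V := by
    have h1 := ((m1.add m2).div (rd_ofNat π 2) (n2 k)).mem
    have h2 : (P.x - θ ^ 2 * Q.x + (P.x + θ ^ 2 * Q.x)) / 2 = P.x := by
      rw [div_eq_iff (n2 (Om k))]
      ring
    rw [h2] at h1
    exact h1
  have hQx : Q.x ∈ π.V := by
    have h1 := (((m2.sub m1).div (rd_ofNat π 2) (n2 k)).div (hθ.pow 2) (pow_ne_zero 2 h0)).mem
    have hθ0 : θ ≠ 0 := h.th
    have h2 : (P.x + θ ^ 2 * Q.x - (P.x - θ ^ 2 * Q.x)) / 2 / θ ^ 2 = Q.x := by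
      rw [div_eq_iff (pow_ne_zero 2 hθ0), div_eq_iff (n2 (Om k))]
      ring
    rw [h2] at h1
    exact h1
  have hPt' : RdB π P.t w₀.t := by rw [h.t]; exact hw.t
  have hQt' : RdB π Q.t w₀.s := by rw [h.s]; exact hw.s
  have hPy : P.y ∈ π.V := by
    have h1 := (((Rd.of_mem (φ := π.φ) hPx).pow 3).add ((hPt' S.a).mul
      (Rd.of_mem (φ := π.φ) hPx))).add (hPt' S.b)
    rw [← P.eq] at h1
    obtain ⟨y₀, h2, _⟩ := rd_pow_root π (by norm_num) h1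
    exact h2.mem
  have hQy : Q.y ∈ π.V := by
    have h1 := ((Rd.of_mem (φ := π.φ) hPy).div (hθ.pow 3) (pow_ne_zero 3 h0)).mem
    have h2 : P.y / θ ^ 3 = Q.y := by
      rw [h.y, mul_comm, mul_div_assoc, div_self (pow_ne_zero 3 h.th), mul_one]
    rw [h2] at h1
    exact h1
  have iP : P.Int π := ⟨hPt'.bi, hPx, hPy⟩
  have iQ : Q.Int π := ⟨hQt'.bi, hQx, hQy⟩
  have rP := RdP.sp iP
  have rQ := RdP.sp iQ
  have et : (P.sp π iP).t = w₀.t := rP.t.unique hPt'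
  have es : (Q.sp π iQ).t = w₀.s := rQ.t.unique hQt'
  refine ⟨P.sp π iP, Q.sp π iQ, rP, rQ, ⟨et, es, h0, ?_, ?_, ?_, ?_⟩⟩
  · have h1 := (hθ.pow 3).mul rQ.y
    rw [← h.y] at h1
    exact rP.y.unique h1
  · have h1 := ((rd_ofNat π 16).mul (hw.s S'.dl)).mul (hθ.pow 6)
    rw [h.T] at h1
    exact h1.unique hw.T.neg
  · have hX' := (hθ.pow 2).mul rQ.x
    have h1 := ((rd_ofNat π 12).mul (((rP.x.pow 2).add (rP.x.mul hX')).add (hX'.pow 2))).add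
      ((rd_ofNat π 4).mul (hA.add hA'))
    rw [← h.e1] at h1
    exact hx.unique h1
  · have hX' := (hθ.pow 2).mul rQ.x
    have h1 := (rd_ofNat π 12).mul (((((rd_ofNat π 3).mul (rP.x.add hX')).mul
      (((rP.x.pow 2).add (rP.x.mul hX')).add (hX'.pow 2))).add
      (hA.mul (rP.x.add ((rd_ofNat π 2).mul hX')))).add (hA'.mul (((rd_ofNat π 2).mul rP.x).add hX')))
    rw [← h.e2] at h1
    exact hy.unique h1

theorem spec_over {π : Place k (Om k)} {w : Wp S S' (Om k)} {w₀ : Wp S S' k} {θ : Om k} {θ₀ : k} (hw : RdW π w w₀)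
    (hθ : Rd π.V π.φ θ θ₀) (hq : Qd w₀ θ₀ ≠ 0) {P : Pt S (Om k)} {Q : Pt S' (Om k)}
    (h : Over w θ P Q) {P₀ : Pt S k} {Q₀ : Pt S' k} (h₀ : Over w₀ θ₀ P₀ Q₀) : Φ.spv π (P, Q) = Φ.cl P₀ Q₀ := by
  obtain ⟨P₁, Q₁, r1, r2, h1⟩ := spec_rd hw hθ h₀.th hq h
  rw [Φ.spv_rd r1 r2]
  rcases over_uniq hq h₀ h1 with ⟨e1, e2⟩ | ⟨e1, e2⟩
  · rw [e1, e2]
  · rw [e1, e2, cl_neg_neg]

end H90.QF
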